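import Pool.Agent.ACG.PivC

/-! Project ACG: counting chains of pivotal sets. -/

set_option autoImplicit false

namespace Pool.Agent.ACG

open Finset Classical

variable {U : Type} [Fintype U] [DecidableEq U]

theorem ChnC_geom (m k : ℕ) :
    ∑ a ∈ Icc 1 k, m ^ a * (2 * m) ^ (k - a) + m ^ k = (2 * m) ^ k := by
  induction k with
  | zero => simp
  | succ k ih =>
    rw [Finset.sum_Icc_succ_top (by omega), Nat.sub_self, pow_zero, mul_one]
    have : ∑ a ∈ Icc 1 k, m ^ a * (2 * m) ^ (k + 1 - a) =
        2 * m * ∑ a ∈ Icc 1 k, m ^ a * (2 * m) ^ (k - a) := by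
      rw [Finset.mul_sum]
      apply Finset.sum_congr rfl
      intro a ha
      rw [Finset.mem_Icc] at ha
      rw [Nat.succ_sub ha.2, pow_succ]
      ring
    rw [this, pow_succ (2 * m), ← ih, pow_succ]
    ring

/-- Counting sets built from a first part and a rest. -/
theorem ChnC_union {α : Type} [DecidableEq α] (F : Finset (Finset α)) (P : ℕ → Finset (Finset α))
    (Q : ℕ → Finset α → Finset (Finset α)) (m k : ℕ)
    (hF : ∀ V ∈ F, ∃ a ∈ Icc 1 k, ∃ W ∈ P a, ∃ V' ∈ Q a W, V = W ∪ V')
    (hP : ∀ a ∈ Icc 1 k, (P a).card ≤ m ^ a)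
    (hQ : ∀ a ∈ Icc 1 k, ∀ W ∈ P a, (Q a W).card ≤ (2 * m) ^ (k - a)) :
    F.card ≤ (2 * m) ^ k := by
  have h1 : F ⊆ (Icc 1 k).biUnion fun a => (P a).biUnion fun W => (Q a W).image fun V' => W ∪ V' := by
    intro V hV
    obtain ⟨a, ha, W, hW, V', hV', rfl⟩ := hF V hV
    rw [Finset.mem_biUnion]
    refine ⟨a, ha, ?_⟩
    rw [Finset.mem_biUnion]
    exact ⟨W, hW, Finset.mem_image_of_mem _ hV'⟩
  refine (Finset.card_le_card h1).trans (Finset.card_biUnion_le.trans ?_)
  have h2 : ∀ a ∈ Icc 1 k, ((P a).biUnion fun W => (Q a W).image fun V' => W ∪ V').card ≤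
      m ^ a * (2 * m) ^ (k - a) := by
    intro a ha
    refine Finset.card_biUnion_le.trans ?_
    refine (Finset.sum_le_card_nsmul _ _ ((2 * m) ^ (k - a)) fun W hW =>
      Finset.card_image_le.trans (hQ a ha W hW)).trans ?_
    rw [smul_eq_mul]
    exact Nat.mul_le_mul_right _ (hP a ha)
  refine (Finset.sum_le_sum h2).trans ?_
  have := ChnC_geom m k
  omega

theorem chn_card (hs : List (Fn U)) (D : ℕ) (R : Finset U) (x : U → Bool)
    (h : ∀ f ∈ hs, DT D R x f) (k : ℕ) :
    (univ.filter fun V : Finset U => V ⊆ R ∧ V.card = k ∧ Chn hs x V).card ≤ (2 * D) ^ k := by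
  induction k using Nat.strong_induction_on generalizing R x with
  | _ k ih =>
    rcases Nat.eq_zero_or_pos k with hk | hk
    · subst hk
      rw [pow_zero]
      refine (Finset.card_le_card (t := {∅}) ?_).trans (by simp)
      intro V hV
      rw [Finset.mem_filter, Finset.card_eq_zero] at hV
      rw [Finset.mem_singleton]
      exact hV.2.2.1
    obtain ⟨h₀, hh₀⟩ : ∃ h₀ : Option (Fn U), h₀ = ff hs x := ⟨_, rfl⟩
    cases h₀ with
    | none =>
      refine le_trans (le_of_eq ?_) (Nat.zero_le _)
      rw [Finset.card_eq_zero, Finset.filter_eq_empty_iff]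
      rintro V - ⟨-, h2, h3⟩
      cases h3 with
      | nil => rw [Finset.card_empty] at h2; omega
      | cons _ g W V' hg => rw [← hh₀] at hg; exact absurd hg (by simp)
    | some h₀ =>
      apply ChnC_union _ (fun a => univ.filter fun W : Finset U => W ⊆ R ∧ W.card = a ∧ Piv h₀ x W)
        (fun a W => univ.filter fun V : Finset U => V ⊆ R \ W ∧ V.card = k - a ∧
          Chn hs (swOn x W) V)
      · intro V hV
        rw [Finset.mem_filter] at hV
        obtain ⟨-, h1, h2, h3⟩ := hV
        cases h3 with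
        | nil => rw [Finset.card_empty] at h2; omega
        | cons _ g W V' hg hp hdis hc =>
          rw [← hh₀, Option.some_inj] at hg
          subst hg
          have hcard := Finset.card_union_of_disjoint hdis
          have hpos : 1 ≤ W.card := hp.1.card_pos
          refine ⟨W.card, Finset.mem_Icc.2 ⟨hpos, by omega⟩, W, ?_, V', ?_, rfl⟩
          · rw [Finset.mem_filter]
            exact ⟨Finset.mem_univ _, Finset.union_subset_left h1, rfl, hp⟩
          · rw [Finset.mem_filter]
            refine ⟨Finset.mem_univ _, ?_, by omega, hc⟩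
            rw [Finset.subset_sdiff]
            exact ⟨Finset.union_subset_right h1, hdis.symm⟩
      · intro a ha
        have hmem : h₀ ∈ hs := List.mem_of_find?_eq_some hh₀.symm
        refine (piv_card D R x h₀ (h h₀ hmem) a).trans (Nat.choose_le_pow _ _)
      · intro a ha W hW
        rw [Finset.mem_Icc] at ha
        rw [Finset.mem_filter] at hW
        apply ih (k - a) (by omega)
        intro f hf
        exact (h f hf).swOn W hW.2.1

end Pool.Agent.ACG
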