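import Pool.Agent.ACG.Defs

/-! Project ACG: basic facts on circuits. -/

set_option autoImplicit false

namespace Pool.Agent.ACG

open Finset Classical

variable {U : Type} [Fintype U] [DecidableEq U]

theorem exists_circ {S d : ℕ} {F : Finset (Fn U)} (h : Levels S d F) :
    ∃ C : Circ U S d, C.L d = F := by
  induction h with
  | zero F hF hc =>
    refine ⟨⟨fun i => if i = 0 then F else ∅, fun _ _ => [], fun _ _ => true, ?_, ?_, ?_, ?_, ?_⟩,
      ?_⟩
    · intro i
      split_ifs
      · exact hc
      · simp
    · intro f hf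
      rw [if_pos rfl] at hf
      exact hF f hf
    · intro i g h hh
      exact absurd hh (by simp)
    · intro i g
      simp
    · intro i hi
      exact absurd hi (by omega)
    · simp
  | succ d F G _ hN hG ih =>
    obtain ⟨C, hC⟩ := ih
    choose! H hHF hH using hN
    refine ⟨⟨fun i => if i = d + 1 then G else C.L i,
      fun i g => if i < d then C.kids i g else if i = d ∧ g ∈ G then (H g).toList else [],
      fun i g => if i < d then C.isAnd i g else decide (∀ x, g x = true ↔ ∀ h ∈ H g, h x = true),
      ?_, ?_, ?_, ?_, ?_⟩, ?_⟩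
    · intro i
      split_ifs
      · exact hG
      · exact C.card_le i
    · intro f hf
      rw [if_neg (by omega)] at hf
      exact C.base f hf
    · intro i g h hh
      split_ifs at hh with h1 h2
      · rw [if_neg (by omega)]
        exact C.kids_mem i g h hh
      · rw [if_neg (by omega), h2.1, hC]
        exact hHF g h2.2 (Finset.mem_toList.1 hh)
      · exact absurd hh (by simp)
    · intro i g
      split_ifs with h1 h2
      · exact C.kids_len i g
      · rw [Finset.length_toList]
        refine (Finset.card_le_card (hHF g h2.2)).trans ?_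
        rw [← hC]
        exact C.card_le d
      · simp
    · intro i hi g hg x
      by_cases h1 : i < d
      · rw [if_neg (by omega)] at hg
        rw [if_pos h1, if_pos h1]
        exact C.eval i h1 g hg x
      · have h2 : i = d := by omega
        rw [if_pos (by omega)] at hg
        have hk : (if i < d then C.kids i g else if i = d ∧ g ∈ G then (H g).toList else []) =
            (H g).toList := by rw [if_neg h1, if_pos ⟨h2, hg⟩]
        have ha : (if i < d then C.isAnd i g else
            decide (∀ x, g x = true ↔ ∀ h ∈ H g, h x = true)) =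
            decide (∀ x, g x = true ↔ ∀ h ∈ H g, h x = true) := if_neg h1
        rw [ha, hk]
        by_cases h3 : ∀ x, g x = true ↔ ∀ h ∈ H g, h x = true
        · rw [if_pos (by simpa using h3), Bool.eq_iff_iff, List.all_eq_true, h3 x]
          simp only [Finset.mem_toList]
        · rw [if_neg (by simpa using h3), Bool.eq_iff_iff, List.any_eq_true]
          rcases hH g hg with h4 | h4
          · rw [h4 x]
            simp only [Finset.mem_toList]
          · exact absurd h4 h3
    · simp

theorem CircB_mono {S S' d : ℕ} (hS : S ≤ S') {F : Finset (Fn U)} (h : Levels S d F) :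
    Levels S' d F := by
  induction h with
  | zero F hF hc => exact Levels.zero F hF (hc.trans hS)
  | succ d F G _ hN hG ih => exact Levels.succ d F G ih hN (hG.trans hS)

theorem CircB_card {S d : ℕ} {F : Finset (Fn U)} (h : Levels S d F) : F.card ≤ S := by
  cases h with
  | zero _ _ h => exact h
  | succ _ _ _ _ _ h => exact h

theorem Computes.mono {S S' d : ℕ} {f : Fn U} (h : Computes S d f) (hS : S ≤ S') :
    Computes S' d f := by
  obtain ⟨F, hF, hf⟩ := h
  exact ⟨F, CircB_mono hS hF, hf⟩

theorem Computes.pos {S d : ℕ} {f : Fn U} (h : Computes S d f) : 1 ≤ S := by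
  obtain ⟨F, hF, hf⟩ := h
  exact (Finset.card_pos.2 ⟨f, hf⟩).trans_le (CircB_card hF)

/-- Families of substitutions. -/
theorem CircB_sub {U' : Type} [Fintype U'] [DecidableEq U'] {ι : Type} (Y : Finset ι)
    (s : ι → (U → Bool) → U' → Bool)
    (hs : ∀ i e', (∃ b, ∀ x, s i x e' = b) ∨ ∃ e, ∀ x, s i x e' = x e)
    {S d : ℕ} {F : Finset (Fn U')} (h : Levels S d F) :
    Levels (Y.card * S) d (Y.biUnion fun i => F.image fun c x => c (s i x)) := by
  have hcard : ∀ F : Finset (Fn U'), F.card ≤ S →
      (Y.biUnion fun i => F.image fun c x => c (s i x)).card ≤ Y.card * S := by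
    intro F hF
    refine Finset.card_biUnion_le.trans ?_
    refine (Finset.sum_le_card_nsmul _ _ S fun i _ => Finset.card_image_le.trans hF).trans ?_
    rw [smul_eq_mul]
  induction h with
  | zero F hF hc =>
    refine Levels.zero _ ?_ (hcard F hc)
    intro f hf
    rw [Finset.mem_biUnion] at hf
    obtain ⟨i, -, hf⟩ := hf
    rw [Finset.mem_image] at hf
    obtain ⟨c, hcF, rfl⟩ := hf
    rcases hF c hcF with ⟨b, hb⟩ | ⟨e, he⟩ | ⟨e, he⟩
    · exact Or.inl ⟨b, fun x => hb _⟩
    · rcases hs i e with ⟨b, hb⟩ | ⟨e', he'⟩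
      · exact Or.inl ⟨b, fun x => (he _).trans (by rw [hb])⟩
      · exact Or.inr (Or.inl ⟨e', fun x => (he _).trans (by rw [he'])⟩)
    · rcases hs i e with ⟨b, hb⟩ | ⟨e', he'⟩
      · exact Or.inl ⟨!b, fun x => (he _).trans (by rw [hb])⟩
      · exact Or.inr (Or.inr ⟨e', fun x => (he _).trans (by rw [he'])⟩)
  | succ d F G _ hN hG ih =>
    refine Levels.succ _ _ _ ih ?_ (hcard G hG)
    intro g hg
    rw [Finset.mem_biUnion] at hg
    obtain ⟨i, hi, hg⟩ := hg
    rw [Finset.mem_image] at hg
    obtain ⟨c, hcG, rfl⟩ := hg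
    obtain ⟨H, hHF, hH⟩ := hN c hcG
    refine ⟨H.image fun c x => c (s i x), ?_, ?_⟩
    · intro h hh
      rw [Finset.mem_biUnion]
      exact ⟨i, hi, Finset.image_subset_image hHF hh⟩
    · rcases hH with hH | hH
      · left
        intro x
        rw [hH]
        simp only [Finset.mem_image]
        constructor
        · rintro ⟨h, hh, hx⟩
          exact ⟨_, ⟨h, hh, rfl⟩, hx⟩
        · rintro ⟨_, ⟨h, hh, rfl⟩, hx⟩
          exact ⟨h, hh, hx⟩
      · right
        intro x
        rw [hH]
        simp only [Finset.mem_image]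
        constructor
        · rintro hx _ ⟨h, hh, rfl⟩
          exact hx h hh
        · intro hx h hh
          exact hx _ ⟨h, hh, rfl⟩

/-- Fix the guessed bits in all ways and take the OR. -/
theorem GuessComputes.computes {S d g : ℕ} {f : Fn U} (h : GuessComputes S d g f) :
    Computes (2 ^ g * S) (d + 1) f := by
  obtain ⟨c, hcomp, hc⟩ := h
  have hS := hcomp.pos
  obtain ⟨F, hF, hcF⟩ := hcomp
  have h1 := CircB_sub (U := U) (univ : Finset (Fin g → Bool)) (fun y x => Sum.elim x y) (by
    intro y e'
    cases e' with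
    | inl e => exact Or.inr ⟨e, fun x => rfl⟩
    | inr i => exact Or.inl ⟨y i, fun x => rfl⟩) hF
  have h2 : (univ : Finset (Fin g → Bool)).card = 2 ^ g := by
    rw [Finset.card_univ, Fintype.card_fun, Fintype.card_bool, Fintype.card_fin]
  rw [h2] at h1
  refine ⟨{f}, Levels.succ _ _ _ h1 ?_ ?_, Finset.mem_singleton_self f⟩
  · intro g' hg'
    rw [Finset.mem_singleton] at hg'
    subst hg'
    refine ⟨univ.image fun y x => c (Sum.elim x y), ?_, Or.inl ?_⟩
    · intro h hh
      rw [Finset.mem_image] at hh
      obtain ⟨y, -, rfl⟩ := hh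
      rw [Finset.mem_biUnion]
      exact ⟨y, Finset.mem_univ _, Finset.mem_image_of_mem _ hcF⟩
    · intro x
      rw [hc]
      simp
  · rw [Finset.card_singleton]
    exact Nat.mul_pos (Nat.pow_pos (by norm_num)) hS

/-- Substitution of variables and constants. -/
theorem Computes.subst {U' : Type} [Fintype U'] [DecidableEq U'] {S d : ℕ} {f : Fn U'}
    (h : Computes S d f) (ρ : U' → U ⊕ Bool) :
    Computes S d (fun x : U → Bool => f (fun e => Sum.elim x id (ρ e))) := by
  obtain ⟨F, hF, hf⟩ := h
  have h1 := CircB_sub (U := U) (univ : Finset Unit)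
    (fun _ x e => Sum.elim x id (ρ e)) (by
    intro _ e'
    rcases hρ : ρ e' with e | b
    · exact Or.inr ⟨e, fun x => rfl⟩
    · exact Or.inl ⟨b, fun x => rfl⟩) hF
  rw [Finset.card_univ, Fintype.card_unit, one_mul] at h1
  refine ⟨_, h1, ?_⟩
  rw [Finset.mem_biUnion]
  exact ⟨(), Finset.mem_univ _, Finset.mem_image_of_mem _ hf⟩

/-- Substitution of variables and constants. -/
theorem GuessComputes.subst {U' : Type} [Fintype U'] [DecidableEq U'] {S d g : ℕ} {f : Fn U'}
    (h : GuessComputes S d g f) (ρ : U' → U ⊕ Bool) :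
    GuessComputes S d g (fun x : U → Bool => f (fun e => Sum.elim x id (ρ e))) := by
  obtain ⟨c, hcomp, hc⟩ := h
  have h1 := hcomp.subst (U := U ⊕ Fin g) (fun e => match e with
    | Sum.inl e => Sum.map Sum.inl id (ρ e)
    | Sum.inr i => Sum.inl (Sum.inr i))
  refine ⟨_, h1, fun x => ?_⟩
  rw [hc]
  have h2 : ∀ y : Fin g → Bool, (fun e : U' ⊕ Fin g => Sum.elim (Sum.elim x y) id
      (match e with
        | Sum.inl e => Sum.map Sum.inl id (ρ e)
        | Sum.inr i => Sum.inl (Sum.inr i))) =
      Sum.elim (fun e => Sum.elim x id (ρ e)) y := by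
    intro y
    funext e
    rcases e with e | i
    · simp only [Sum.elim_inl]
      rcases ρ e with e' | b <;> simp
    · simp
  simp only [h2]

/-- More guessed bits. -/
theorem GuessComputes.mono {S S' d g g' : ℕ} {f : Fn U} (h : GuessComputes S d g f)
    (hS : S ≤ S') (hg : g ≤ g') : GuessComputes S' d g' f := by
  obtain ⟨c, hcomp, hc⟩ := h
  have h1 := (hcomp.mono hS).subst (U := U ⊕ Fin g') (fun e => match e with
    | Sum.inl e => Sum.inl (Sum.inl e)
    | Sum.inr i => Sum.inl (Sum.inr (Fin.castLE hg i)))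
  refine ⟨_, h1, fun x => ?_⟩
  rw [hc]
  have h2 : ∀ y : Fin g' → Bool, (fun e : U ⊕ Fin g => Sum.elim (Sum.elim x y) id
      (match e with
        | Sum.inl e => Sum.inl (Sum.inl e)
        | Sum.inr i => Sum.inl (Sum.inr (Fin.castLE hg i)))) =
      Sum.elim x (fun i => y (Fin.castLE hg i)) := by
    intro y
    funext e
    rcases e with e | i <;> simp
  simp only [h2]
  constructor
  · rintro ⟨y, hy⟩
    refine ⟨fun j => if hj : (j : ℕ) < g then y ⟨j, hj⟩ else false, ?_⟩
    have h3 : (fun i : Fin g => (fun j : Fin g' => if hj : (j : ℕ) < g then y ⟨j, hj⟩ else false)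
        (Fin.castLE hg i)) = y := by
      funext i
      simp
    rw [h3]
    exact hy
  · rintro ⟨y, hy⟩
    exact ⟨_, hy⟩

end Pool.Agent.ACG
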