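import Pool.Agent.ACG.CircB

/-! Project ACG: from circuits to circuits in levelled form. -/

set_option autoImplicit false

namespace Pool.Agent.ACG

open Finset Classical

variable {U : Type} [Fintype U] [DecidableEq U]

/-- All inputs. -/
noncomputable def Conv_lits (U : Type) [Fintype U] [DecidableEq U] : Finset (Fn U) :=
  (univ.image fun (b : Bool) (_ : U → Bool) => b) ∪
    ((univ.image fun (e : U) (x : U → Bool) => x e) ∪
      univ.image fun (e : U) (x : U → Bool) => !(x e))

theorem Conv_mem {f : Fn U} : f ∈ Conv_lits U ↔ IsLit f := by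
  simp only [Conv_lits, Finset.mem_union, Finset.mem_image, Finset.mem_univ, true_and, IsLit]
  constructor
  · rintro (⟨b, rfl⟩ | ⟨e, rfl⟩ | ⟨e, rfl⟩)
    · exact Or.inl ⟨b, fun x => rfl⟩
    · exact Or.inr (Or.inl ⟨e, fun x => rfl⟩)
    · exact Or.inr (Or.inr ⟨e, fun x => rfl⟩)
  · rintro (⟨b, h⟩ | ⟨e, h⟩ | ⟨e, h⟩)
    · exact Or.inl ⟨b, (funext h).symm⟩
    · exact Or.inr (Or.inl ⟨e, (funext h).symm⟩)
    · exact Or.inr (Or.inr ⟨e, (funext h).symm⟩)

theorem Conv_card : (Conv_lits U).card ≤ 2 * Fintype.card U + 2 := by
  refine (Finset.card_union_le _ _).trans ?_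
  have h1 : (univ.image fun (b : Bool) (_ : U → Bool) => b).card ≤ 2 := by
    refine Finset.card_image_le.trans ?_
    simp
  have h2 : ((univ.image fun (e : U) (x : U → Bool) => x e) ∪
      univ.image fun (e : U) (x : U → Bool) => !(x e)).card ≤
      Fintype.card U + Fintype.card U := by
    refine (Finset.card_union_le _ _).trans (Nat.add_le_add ?_ ?_)
    · exact Finset.card_image_le.trans (by rw [Finset.card_univ])
    · exact Finset.card_image_le.trans (by rw [Finset.card_univ])
  omega

theorem Conv_neg_lit {f : Fn U} (h : IsLit f) : IsLit (fun x => !f x) := by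
  rcases h with ⟨b, h⟩ | ⟨e, h⟩ | ⟨e, h⟩
  · exact Or.inl ⟨!b, fun x => congrArg not (h x)⟩
  · exact Or.inr (Or.inr ⟨e, fun x => congrArg not (h x)⟩)
  · exact Or.inr (Or.inl ⟨e, fun x => (congrArg not (h x)).trans (Bool.not_not _)⟩)

theorem Circuit.computes {S d : ℕ} {f : Fn U} (h : Circuit S d f) :
    Computes (2 * S + (2 * Fintype.card U + 2)) d f := by
  obtain ⟨G, lev, hGS, hf, hG⟩ := h
  obtain ⟨L, hL⟩ : ∃ L : ℕ → Finset (Fn U), L = fun i => Conv_lits U ∪
    ((G.filter fun g => lev g < i) ∪
      (G.filter fun g => lev g < i).image fun g x => !g x) := ⟨_, rfl⟩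
  have hmem : ∀ i f, f ∈ L i ↔ IsLit f ∨ ∃ g ∈ G, lev g < i ∧ (f = g ∨ f = fun x => !g x) := by
    intro i f
    rw [hL]
    simp only [Finset.mem_union, Conv_mem, Finset.mem_image, Finset.mem_filter]
    constructor
    · rintro (h | h | ⟨g, h, rfl⟩)
      · exact Or.inl h
      · exact Or.inr ⟨f, h.1, h.2, Or.inl rfl⟩
      · exact Or.inr ⟨g, h.1, h.2, Or.inr rfl⟩
    · rintro (h | ⟨g, h1, h2, rfl | rfl⟩)
      · exact Or.inl h
      · exact Or.inr (Or.inl ⟨h1, h2⟩)
      · exact Or.inr (Or.inr ⟨g, ⟨h1, h2⟩, rfl⟩)
  have hcard : ∀ i, (L i).card ≤ 2 * S + (2 * Fintype.card U + 2) := by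
    intro i
    rw [hL]
    dsimp only
    have h1 : (G.filter fun g => lev g < i).card ≤ S := (Finset.card_filter_le _ _).trans hGS
    have h2 : ((G.filter fun g => lev g < i).image fun g x => !g x).card ≤ S :=
      Finset.card_image_le.trans h1
    have h3 := Conv_card (U := U)
    have h4 := Finset.card_union_le (Conv_lits U) ((G.filter fun g => lev g < i) ∪
      (G.filter fun g => lev g < i).image fun g x => !g x)
    have h5 := Finset.card_union_le (G.filter fun g => lev g < i)
      ((G.filter fun g => lev g < i).image fun g x => !g x)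
    omega
  have hneg : ∀ i f, f ∈ L i → (fun x => !f x) ∈ L i := by
    intro i f hf
    rw [hmem] at hf ⊢
    rcases hf with h | ⟨g, h1, h2, rfl | rfl⟩
    · exact Or.inl (Conv_neg_lit h)
    · exact Or.inr ⟨f, h1, h2, Or.inr rfl⟩
    · refine Or.inr ⟨g, h1, h2, Or.inl ?_⟩
      funext x
      simp
  have hlev : ∀ i, Levels (2 * S + (2 * Fintype.card U + 2)) i (L i) := by
    intro i
    induction i with
    | zero =>
      refine Levels.zero _ ?_ (hcard 0)
      intro f hf
      rw [hmem] at hf
      rcases hf with h | ⟨g, -, h, -⟩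
      · exact h
      · omega
    | succ i ih =>
      refine Levels.succ _ _ _ ih ?_ (hcard (i + 1))
      intro f hf
      by_cases hfi : f ∈ L i
      · refine ⟨{f}, Finset.singleton_subset_iff.2 hfi, Or.inl fun x => ?_⟩
        simp
      · rw [hmem] at hf hfi
        push Not at hfi
        rcases hf with h | ⟨g, h1, h2, h3⟩
        · exact absurd h hfi.1
        · have hlg : lev g = i := by
            rcases Nat.lt_or_ge (lev g) i with h4 | h4
            · have := hfi.2 g h1 h4
              rcases h3 with h3 | h3
              · exact absurd h3 this.1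
              · exact absurd h3 this.2
            · omega
          obtain ⟨-, H, hH, hg⟩ := hG g h1
          have hHL : H ⊆ L i := by
            intro h hh
            rw [hmem]
            rcases hH h hh with h4 | ⟨g', h4, h5, h6⟩
            · exact Or.inl h4
            · exact Or.inr ⟨g', h4, by omega, h6⟩
          rcases h3 with rfl | rfl
          · exact ⟨H, hHL, hg⟩
          · refine ⟨H.image fun h x => !h x, ?_, ?_⟩
            · intro h hh
              rw [Finset.mem_image] at hh
              obtain ⟨h', hh', rfl⟩ := hh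
              exact hneg i h' (hHL hh')
            · rcases hg with hg | hg
              · right
                intro x
                simp only [Finset.mem_image, forall_exists_index, and_imp,
                  forall_apply_eq_imp_iff₂, Bool.not_eq_true']
                rw [← Bool.not_eq_true, hg x]
                push Not
                simp
              · left
                intro x
                simp only [Finset.mem_image, exists_exists_and_eq_and, Bool.not_eq_true']
                rw [← Bool.not_eq_true, hg x]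
                push Not
                simp
  have hd := hG f hf
  exact ⟨L d, hlev d, (hmem d f).2 (Or.inr ⟨f, hf, hd.1, Or.inl rfl⟩)⟩

theorem Circuit.pos {S d : ℕ} {f : Fn U} (h : Circuit S d f) : 1 ≤ S := by
  obtain ⟨G, lev, hGS, hf, -⟩ := h
  exact (Finset.card_pos.2 ⟨f, hf⟩).trans_le hGS

theorem Guess.guessComputes {S d g : ℕ} {f : Fn U} (h : Guess S d g f) :
    GuessComputes (2 * S + (2 * (Fintype.card U + g) + 2)) d g f := by
  obtain ⟨c, hc, hf⟩ := h
  have h1 := hc.computes
  rw [Fintype.card_sum, Fintype.card_fin] at h1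
  exact ⟨c, h1, hf⟩

theorem Guess.pos {S d g : ℕ} {f : Fn U} (h : Guess S d g f) : 1 ≤ S := by
  obtain ⟨c, hc, -⟩ := h
  exact hc.pos

end Pool.Agent.ACG
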