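import Pool.Agent.ACG.Defs

/-! Project ACG: expectations of product laws. -/

set_option autoImplicit false

namespace Pool.Agent.ACG

open Finset Classical

variable {U : Type} [Fintype U] [DecidableEq U]

section Ex
variable {Ω Ω' : Type} [Fintype Ω] [Fintype Ω']

theorem Ex_mono (w : Ω → ℝ) (hw : ∀ o, 0 ≤ w o) (F G : (U → Ω) → ℝ) (h : ∀ s, F s ≤ G s) :
    Ex w F ≤ Ex w G := by
  unfold Ex
  exact Finset.sum_le_sum fun s _ =>
    mul_le_mul_of_nonneg_left (h s) (Finset.prod_nonneg fun e _ => hw _)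

theorem Ex_add (w : Ω → ℝ) (F G : (U → Ω) → ℝ) :
    Ex w (fun s => F s + G s) = Ex w F + Ex w G := by
  unfold Ex
  rw [← Finset.sum_add_distrib]
  exact Finset.sum_congr rfl fun s _ => mul_add _ _ _

theorem Ex_mul (w : Ω → ℝ) (c : ℝ) (F : (U → Ω) → ℝ) :
    Ex w (fun s => c * F s) = c * Ex w F := by
  unfold Ex
  rw [Finset.mul_sum]
  exact Finset.sum_congr rfl fun s _ => by ring

theorem Ex_sum {ι : Type} (w : Ω → ℝ) (t : Finset ι) (F : ι → (U → Ω) → ℝ) :
    Ex w (fun s => ∑ i ∈ t, F i s) = ∑ i ∈ t, Ex w (F i) := by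
  unfold Ex
  rw [Finset.sum_comm]
  exact Finset.sum_congr rfl fun s _ => by rw [Finset.mul_sum]

theorem Exp_prodsum (f : U → Ω → ℝ) : ∏ e, ∑ o, f e o = ∑ s : U → Ω, ∏ e, f e (s e) := by
  rw [Finset.prod_univ_sum, Fintype.piFinset_univ]

theorem Ex_prod (w : Ω → ℝ) (f : U → Ω → ℝ) :
    Ex w (fun s => ∏ e, f e (s e)) = ∏ e, ∑ o, w o * f e o := by
  unfold Ex
  rw [Exp_prodsum]
  exact Finset.sum_congr rfl fun s _ => by rw [Finset.prod_mul_distrib]

theorem Ex_const (w : Ω → ℝ) (hw : ∑ o, w o = 1) (c : ℝ) :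
    Ex (U := U) w (fun _ => c) = c := by
  have h1 := Ex_prod (U := U) w (fun _ _ => 1)
  simp only [Finset.prod_const_one, mul_one, hw] at h1
  have h2 := Ex_mul (U := U) w c (fun _ => 1)
  rw [h1] at h2
  simpa using h2

theorem Ex_push (w : Ω → ℝ) (φ : Ω → Ω') (F : (U → Ω') → ℝ) :
    Ex (fun o' => ∑ o, if φ o = o' then w o else 0) F = Ex w (fun s => F (fun e => φ (s e))) := by
  unfold Ex
  have h1 : ∀ s' : U → Ω', (∏ e, ∑ o, if φ o = s' e then w o else 0) =
      ∑ s : U → Ω, if (fun e => φ (s e)) = s' then ∏ e, w (s e) else 0 := by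
    intro s'
    rw [Exp_prodsum]
    apply Finset.sum_congr rfl
    intro s _
    by_cases h : (fun e => φ (s e)) = s'
    · rw [if_pos h]
      apply Finset.prod_congr rfl
      intro e _
      rw [if_pos (congrFun h e)]
    · rw [if_neg h]
      obtain ⟨e, he⟩ := Function.ne_iff.1 h
      apply Finset.prod_eq_zero (Finset.mem_univ e)
      rw [if_neg he]
  calc ∑ s' : U → Ω', (∏ e, ∑ o, if φ o = s' e then w o else 0) * F s' =
        ∑ s' : U → Ω', ∑ s : U → Ω,
          if (fun e => φ (s e)) = s' then (∏ e, w (s e)) * F s' else 0 := by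
        apply Finset.sum_congr rfl
        intro s' _
        rw [h1, Finset.sum_mul]
        exact Finset.sum_congr rfl fun s _ => by rw [ite_mul, zero_mul]
    _ = ∑ s : U → Ω, ∑ s' : U → Ω',
          if (fun e => φ (s e)) = s' then (∏ e, w (s e)) * F s' else 0 := Finset.sum_comm
    _ = ∑ s : U → Ω, (∏ e, w (s e)) * F (fun e => φ (s e)) := by
        apply Finset.sum_congr rfl
        intro s _
        rw [Finset.sum_ite_eq]
        simp

theorem Ex_pair (w : Ω → ℝ) (w' : Ω' → ℝ) (F : (U → Ω × Ω') → ℝ) :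
    Ex (fun o : Ω × Ω' => w o.1 * w' o.2) F =
      Ex w (fun s => Ex w' (fun s' => F (fun e => (s e, s' e)))) := by
  unfold Ex
  rw [Fintype.sum_equiv (Equiv.arrowProdEquivProdArrow U (fun _ => Ω) (fun _ => Ω')) _
    (fun p : (U → Ω) × (U → Ω') =>
      (∏ e, w (p.1 e)) * ((∏ e, w' (p.2 e)) * F (fun e => (p.1 e, p.2 e))))]
  · rw [Fintype.sum_prod_type]
    apply Finset.sum_congr rfl
    intro s _
    rw [Finset.mul_sum]
  · intro s
    simp only [Equiv.arrowProdEquivProdArrow]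
    rw [Finset.prod_mul_distrib, mul_assoc]
    rfl

theorem law_nonneg {Q a : ℝ} (hQ : 0 ≤ Q) (ha : 0 ≤ a) (h : Q + a ≤ 1) (o : Bool × Bool) :
    0 ≤ law Q a o := by
  rcases o with ⟨_ | _, _ | _⟩ <;> simp only [law] <;> linarith

theorem law_sum (Q a : ℝ) : ∑ o, law Q a o = 1 := by
  rw [Fintype.sum_prod_type]
  simp only [Fintype.sum_bool, law]
  ring

theorem ind_le_one (p : Prop) : ind p ≤ 1 := by
  unfold ind
  split_ifs <;> norm_num

theorem ind_nonneg (p : Prop) : 0 ≤ ind p := by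
  unfold ind
  split_ifs <;> norm_num

end Ex

end Pool.Agent.ACG
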