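import Pool.Agent.ACG.Defs2
import Pool.Agent.ACG.Exp

/-! Project ACG: the planted constraint satisfaction problem. -/

set_option autoImplicit false

namespace Pool.Agent.ACG

open Finset Classical

theorem Csp_agree {t q : ℕ} (y₀ : Fin t → Fin q) (A : Finset (Fin t)) :
    (univ.filter fun y : Fin t → Fin q => ∀ v ∈ A, y v = y₀ v).card * q ^ A.card ≤ q ^ t := by
  have h1 : (univ.filter fun y : Fin t → Fin q => ∀ v ∈ A, y v = y₀ v) ⊆
      Fintype.piFinset fun v => if v ∈ A then {y₀ v} else univ := by
    intro y hy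
    rw [Finset.mem_filter] at hy
    rw [Fintype.mem_piFinset]
    intro v
    split_ifs with hv
    · rw [Finset.mem_singleton]
      exact hy.2 v hv
    · exact Finset.mem_univ _
  have h2 := Finset.card_le_card h1
  rw [Fintype.card_piFinset] at h2
  have h3 : ∀ v, (if v ∈ A then ({y₀ v} : Finset (Fin q)) else univ).card =
      if v ∈ A then 1 else q := by
    intro v
    split_ifs <;> simp
  simp only [h3] at h2
  have h4 : q ^ A.card = ∏ v : Fin t, if v ∈ A then q else 1 := by
    rw [Finset.prod_ite_mem, Finset.univ_inter, Finset.prod_const]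
  refine (Nat.mul_le_mul_right _ h2).trans ?_
  rw [h4, ← Finset.prod_mul_distrib]
  apply le_of_eq
  calc ∏ v : Fin t, ((if v ∈ A then 1 else q) * if v ∈ A then q else 1) = ∏ v : Fin t, q := by
        apply Finset.prod_congr rfl
        intro v _
        split_ifs <;> simp
    _ = q ^ t := by rw [Finset.prod_const, Finset.card_univ, Fintype.card_fin]

theorem csp_spread {t q : ℕ} (N : Fin (3 * t) → Fin 3 → Fin t) (hN : Expands N)
    (V : Finset (Vr t q)) (hV : 60 * V.card ≤ t) :
    (univ.filter fun y : Fin t → Fin q => V ⊆ cspY N y).card * q ^ V.card ≤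
      Fintype.card (Fin t → Fin q) := by
  have hc : Fintype.card (Fin t → Fin q) = q ^ t := by
    rw [Fintype.card_fun, Fintype.card_fin, Fintype.card_fin]
  by_cases hex : ∃ y₀ : Fin t → Fin q, V ⊆ cspY N y₀
  · obtain ⟨y₀, hy₀⟩ := hex
    have hmem : ∀ (y : Fin t → Fin q) (e : Vr t q), e ∈ cspY N y →
        e.2 = fun i => y (N e.1 i) := by
      intro y e he
      rw [cspY, Finset.mem_image] at he
      obtain ⟨j, -, rfl⟩ := he
      rfl
    have hinj : Set.InjOn Prod.fst (V : Set (Vr t q)) := by
      intro e he e' he' h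
      have h1 := hmem y₀ e (hy₀ he)
      have h2 := hmem y₀ e' (hy₀ he')
      apply Prod.ext h
      rw [h1, h2, h]
    obtain ⟨J, hJ⟩ : ∃ J, J = V.image Prod.fst := ⟨_, rfl⟩
    have hJc : J.card = V.card := by rw [hJ]; exact Finset.card_image_of_injOn hinj
    obtain ⟨A, hA⟩ : ∃ A, A = J.biUnion fun j => univ.image (N j) := ⟨_, rfl⟩
    have hVA : V.card ≤ A.card := by
      rw [← hJc, hA]
      exact hN J (by omega)
    have hsub : (univ.filter fun y : Fin t → Fin q => V ⊆ cspY N y) ⊆
        univ.filter fun y : Fin t → Fin q => ∀ v ∈ A, y v = y₀ v := by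
      intro y hy
      rw [Finset.mem_filter] at hy ⊢
      refine ⟨Finset.mem_univ _, fun v hv => ?_⟩
      rw [hA, Finset.mem_biUnion] at hv
      obtain ⟨j, hj, hv⟩ := hv
      rw [Finset.mem_image] at hv
      obtain ⟨i, -, rfl⟩ := hv
      rw [hJ, Finset.mem_image] at hj
      obtain ⟨e, he, rfl⟩ := hj
      have h1 := hmem y₀ e (hy₀ he)
      have h2 := hmem y e (hy.2 he)
      rw [h1] at h2
      exact (congrFun h2 i).symm
    rw [hc]
    rcases Nat.eq_zero_or_pos q with hq | hq
    · subst hq
      have ht : t = 0 := by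
        by_contra ht
        exact (y₀ ⟨0, Nat.pos_of_ne_zero ht⟩).elim0
      subst ht
      have hV0 : V.card = 0 := by omega
      rw [hV0, pow_zero, mul_one]
      refine (Finset.card_le_univ _).trans ?_
      rw [Fintype.card_fun, Fintype.card_fin, pow_zero]
    · calc (univ.filter fun y : Fin t → Fin q => V ⊆ cspY N y).card * q ^ V.card ≤
            (univ.filter fun y : Fin t → Fin q => ∀ v ∈ A, y v = y₀ v).card * q ^ A.card :=
            Nat.mul_le_mul (Finset.card_le_card hsub) (Nat.pow_le_pow_right hq hVA)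
        _ ≤ q ^ t := Csp_agree y₀ A
  · have h0 : (univ.filter fun y : Fin t → Fin q => V ⊆ cspY N y).card = 0 := by
      rw [Finset.card_eq_zero, Finset.filter_eq_empty_iff]
      intro y _ hy
      exact hex ⟨y, hy⟩
    rw [h0, zero_mul]
    exact Nat.zero_le _

theorem csp_swOn {t q : ℕ} (N : Fin (3 * t) → Fin 3 → Fin t) (x : Vr t q → Bool)
    (y : Fin t → Fin q) : csp N (swOn x (cspY N y)) = true := by
  rw [csp, decide_eq_true_eq]
  refine ⟨y, fun j => ?_⟩
  have : (j, fun i => y (N j i)) ∈ cspY N y := Finset.mem_image_of_mem _ (Finset.mem_univ j)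
  simp [swOn, this]

theorem Csp_cardY {t q : ℕ} (N : Fin (3 * t) → Fin 3 → Fin t) (y : Fin t → Fin q) :
    (cspY N y).card = 3 * t := by
  rw [cspY, Finset.card_image_of_injective, Finset.card_univ, Fintype.card_fin]
  intro j j' h
  exact (Prod.ext_iff.1 h).1

theorem csp_sparse {t q : ℕ} (N : Fin (3 * t) → Fin 3 → Fin t) (Q a : ℝ) (hQ : 0 ≤ Q)
    (ha : 0 ≤ a) (h : Q + a ≤ 1) :
    Ex (law Q a) (fun σ : Vr t q → Bool × Bool => ind (csp N (vals σ) = true)) ≤
      (q : ℝ) ^ t * (a + Q / 2) ^ (3 * t) := by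
  have hl0 := law_nonneg hQ ha h
  have hpt : ∀ σ : Vr t q → Bool × Bool, ind (csp N (vals σ) = true) ≤
      ∑ y : Fin t → Fin q, ∏ e, if e ∈ cspY N y then ind ((σ e).2 = true) else 1 := by
    intro σ
    have hnn : ∀ y ∈ (univ : Finset (Fin t → Fin q)),
        0 ≤ ∏ e, if e ∈ cspY N y then ind ((σ e).2 = true) else 1 := by
      intro y _
      apply Finset.prod_nonneg
      intro e _
      split_ifs
      · exact ind_nonneg _
      · norm_num
    by_cases hc : csp N (vals σ) = true
    · have hc' := hc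
      rw [csp, decide_eq_true_eq] at hc'
      obtain ⟨y, hy⟩ := hc'
      refine (ind_le_one _).trans ?_
      refine le_trans (le_of_eq ?_) (Finset.single_le_sum hnn (Finset.mem_univ y))
      symm
      apply Finset.prod_eq_one
      intro e _
      split_ifs with he
      · rw [ind, if_pos]
        rw [cspY, Finset.mem_image] at he
        obtain ⟨j, -, rfl⟩ := he
        exact hy j
      · rfl
    · rw [ind, if_neg hc]
      exact Finset.sum_nonneg hnn
  refine (Ex_mono _ hl0 _ _ hpt).trans ?_
  rw [Ex_sum]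
  apply le_of_eq
  have h1 : ∀ y : Fin t → Fin q, Ex (law Q a) (fun σ : Vr t q → Bool × Bool =>
      ∏ e, if e ∈ cspY N y then ind ((σ e).2 = true) else 1) = (a + Q / 2) ^ (3 * t) := by
    intro y
    rw [Ex_prod (law Q a) (fun e o => if e ∈ cspY N y then ind (o.2 = true) else 1)]
    have hp : (a + Q / 2) ^ (3 * t) = ∏ e, if e ∈ cspY N y then a + Q / 2 else 1 := by
      rw [Finset.prod_ite_mem, Finset.univ_inter, Finset.prod_const, Csp_cardY N y]
    rw [hp]
    apply Finset.prod_congr rfl
    intro e _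
    split_ifs with he
    · rw [Fintype.sum_prod_type]
      simp only [Fintype.sum_bool, law, ind]
      simp
      ring
    · simp only [mul_one]
      exact law_sum Q a
  rw [Finset.sum_congr rfl fun y _ => h1 y, Finset.sum_const, Finset.card_univ, nsmul_eq_mul]
  congr 1
  rw [Fintype.card_fun, Fintype.card_fin, Fintype.card_fin]
  push_cast
  rfl

end Pool.Agent.ACG
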