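import Pool.Agent.ACG.Model

/-! # Constraint satisfaction with three variables per constraint -/

set_option autoImplicit false

namespace Pool.Agent.ACG

/-- The input bits of an instance with `t` variables, which take values in `Fin (2 ^ l)`, and
`3 * t` constraints: the bit `(j, i, v)` says that `v` is the `i`-th variable of the `j`-th
constraint, the bit `(j, z)` that the `j`-th constraint allows the values `z 0`, `z 1`, `z 2`. -/
abbrev Ins (t l : ℕ) := (Fin (3 * t) × Fin 3 × Fin t) ⊕ (Fin (3 * t) × (Fin 3 → Fin (2 ^ l)))

open Classical in
/-- Satisfiability: some assignment `y` meets all constraints. -/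
noncomputable def Csp (t l : ℕ) : Fn (Ins t l) := fun x =>
  decide (∃ y : Fin t → Fin (2 ^ l), ∀ j z,
    (∀ i v, x (Sum.inl (j, i, v)) = true → y v = z i) → x (Sum.inr (j, z)) = true)

end Pool.Agent.ACG
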