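import Pool.Agent.ACG.ChnC

/-! Project ACG: the number of decodable sets. -/

set_option autoImplicit false

namespace Pool.Agent.ACG

open Finset Classical

variable {U : Type} [Fintype U] [DecidableEq U]

/-- Counting sets built from a first part and a rest. -/
theorem DCard_union {α ι : Type} [DecidableEq α] (F : Finset (Finset α)) (P : ℕ → Finset ι)
    (g : ι → Finset α) (Q : ℕ → ι → Finset (Finset α)) (m k : ℕ)
    (hF : ∀ V ∈ F, ∃ a ∈ Icc 1 k, ∃ i ∈ P a, ∃ V' ∈ Q a i, V = g i ∪ V')
    (hP : ∀ a ∈ Icc 1 k, (P a).card ≤ m ^ a)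
    (hQ : ∀ a ∈ Icc 1 k, ∀ i ∈ P a, (Q a i).card ≤ (2 * m) ^ (k - a)) :
    F.card ≤ (2 * m) ^ k := by
  have h1 : F ⊆ (Icc 1 k).biUnion fun a => (P a).biUnion fun i =>
      (Q a i).image fun V' => g i ∪ V' := by
    intro V hV
    obtain ⟨a, ha, W, hW, V', hV', rfl⟩ := hF V hV
    rw [Finset.mem_biUnion]
    refine ⟨a, ha, ?_⟩
    rw [Finset.mem_biUnion]
    exact ⟨W, hW, Finset.mem_image_of_mem _ hV'⟩
  refine (Finset.card_le_card h1).trans (Finset.card_biUnion_le.trans ?_)
  have h2 : ∀ a ∈ Icc 1 k, ((P a).biUnion fun i => (Q a i).image fun V' => g i ∪ V').card ≤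
      m ^ a * (2 * m) ^ (k - a) := by
    intro a ha
    refine Finset.card_biUnion_le.trans ?_
    refine (Finset.sum_le_card_nsmul _ _ ((2 * m) ^ (k - a)) fun W hW =>
      Finset.card_image_le.trans (hQ a ha W hW)).trans ?_
    rw [smul_eq_mul]
    exact Nat.mul_le_mul_right _ (hP a ha)
  refine (Finset.sum_le_sum h2).trans ?_
  have := ChnC_geom m k
  omega

theorem dec_card (Ts : List (Term U)) (w : ℕ) (hT : ∀ T ∈ Ts, T.1.card ≤ w) (k : ℕ)
    (z : U → Bool) :
    (univ.filter fun W : Finset U => W.card = k ∧ Dec Ts z W).card ≤ (4 * w) ^ k := by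
  induction k using Nat.strong_induction_on generalizing z with
  | _ k ih =>
    rcases Nat.eq_zero_or_pos k with hk | hk
    · subst hk
      rw [pow_zero]
      refine (Finset.card_le_card (t := {∅}) ?_).trans (by simp)
      intro V hV
      rw [Finset.mem_filter, Finset.card_eq_zero] at hV
      rw [Finset.mem_singleton]
      exact hV.2.1
    obtain ⟨T₀, hT₀⟩ : ∃ T₀ : Option (Term U), T₀ = fsat Ts z := ⟨_, rfl⟩
    cases T₀ with
    | none =>
      refine le_trans (le_of_eq ?_) (Nat.zero_le _)
      rw [Finset.card_eq_zero, Finset.filter_eq_empty_iff]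
      rintro V - ⟨h2, h3⟩
      cases h3 with
      | nil => rw [Finset.card_empty] at h2; omega
      | cons _ T A B W hg => rw [← hT₀] at hg; exact absurd hg (by simp)
    | some T₀ =>
      have hmem : T₀ ∈ Ts := List.mem_of_find?_eq_some hT₀.symm
      have e4 : 4 * w = 2 * (2 * w) := by ring
      rw [e4]
      apply DCard_union (ι := (_ : Finset U) × Finset U) _
        (fun a => (T₀.1.powersetCard a).sigma fun A => A.powerset)
        (fun p => p.1) (fun a p => univ.filter fun V : Finset U => V.card = k - a ∧
          Dec Ts (ovr p.1 (fun e => decide (e ∈ p.2)) z) V)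
      · intro V hV
        rw [Finset.mem_filter] at hV
        obtain ⟨-, h2, h3⟩ := hV
        cases h3 with
        | nil => rw [Finset.card_empty] at h2; omega
        | cons _ T A B W hg hA hne hB hdis hc =>
          rw [← hT₀, Option.some_inj] at hg
          subst hg
          have hcard := Finset.card_union_of_disjoint hdis
          have hpos : 1 ≤ A.card := hne.card_pos
          refine ⟨A.card, Finset.mem_Icc.2 ⟨hpos, by omega⟩, ⟨A, B⟩, ?_, W, ?_, rfl⟩
          · rw [Finset.mem_sigma, Finset.mem_powersetCard, Finset.mem_powerset]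
            exact ⟨⟨hA, rfl⟩, hB⟩
          · rw [Finset.mem_filter]
            exact ⟨Finset.mem_univ _, by omega, hc⟩
      · intro a ha
        rw [Finset.card_sigma]
        calc ∑ A ∈ T₀.1.powersetCard a, A.powerset.card =
              ∑ A ∈ T₀.1.powersetCard a, 2 ^ a := by
              apply Finset.sum_congr rfl
              intro A hA
              rw [Finset.card_powerset, (Finset.mem_powersetCard.1 hA).2]
          _ = T₀.1.card.choose a * 2 ^ a := by
              rw [Finset.sum_const, Finset.card_powersetCard, smul_eq_mul]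
          _ ≤ w ^ a * 2 ^ a := by
              apply Nat.mul_le_mul_right
              exact (Nat.choose_le_pow _ _).trans (Nat.pow_le_pow_left (hT T₀ hmem) a)
          _ = (2 * w) ^ a := by rw [mul_pow, mul_comm]
      · intro a ha p hp
        rw [Finset.mem_Icc] at ha
        rw [← e4]
        exact ih (k - a) (by omega) _

end Pool.Agent.ACG
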