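import Pool.Agent.ACG.Defs

/-! Project ACG: decision trees on subcubes. -/

set_option autoImplicit false

namespace Pool.Agent.ACG

open Finset Classical

variable {U : Type} [Fintype U] [DecidableEq U]

theorem ovr_self (R : Finset U) (x : U → Bool) : ovr R x x = x := by
  funext e; simp [ovr]

theorem ovr_mem {R : Finset U} {y x : U → Bool} {e : U} (h : e ∈ R) : ovr R y x e = y e := by
  simp [ovr, h]

theorem ovr_not_mem {R : Finset U} {y x : U → Bool} {e : U} (h : e ∉ R) : ovr R y x e = x e := by
  simp [ovr, h]

theorem ovr_congr {R : Finset U} {y y' x x' : U → Bool} (h1 : ∀ e ∈ R, y e = y' e)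
    (h2 : ∀ e, e ∉ R → x e = x' e) : ovr R y x = ovr R y' x' := by
  funext e
  by_cases he : e ∈ R
  · rw [ovr_mem he, ovr_mem he, h1 e he]
  · rw [ovr_not_mem he, ovr_not_mem he, h2 e he]

theorem Cst.congr {R : Finset U} {x x' : U → Bool} {f : Fn U}
    (h : ∀ e, e ∉ R → x e = x' e) (hd : Cst R x f) : Cst R x' f := by
  intro y
  have h1 : ovr R y x' = ovr R y x := ovr_congr (fun _ _ => rfl) fun e he => (h e he).symm
  have h2 : x' = ovr R x' x := by
    funext e
    by_cases he : e ∈ R
    · rw [ovr_mem he]
    · rw [ovr_not_mem he, h e he]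
  have h3 : f x' = f x := by
    conv_lhs => rw [h2]
    exact hd x'
  rw [h1, hd y, h3]

theorem DT.congr {k : ℕ} {R : Finset U} {x x' : U → Bool} {f : Fn U}
    (h : ∀ e, e ∉ R → x e = x' e) (hd : DT k R x f) : DT k R x' f := by
  induction k generalizing R x x' with
  | zero => exact Cst.congr h hd
  | succ k ih =>
    rcases hd with hd | ⟨e, he, hd⟩
    · exact Or.inl (Cst.congr h hd)
    · refine Or.inr ⟨e, he, fun b => ih ?_ (hd b)⟩
      intro e' he'
      by_cases hee : e' = e
      · subst hee; simp
      · rw [Function.update_of_ne hee, Function.update_of_ne hee]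
        exact h e' fun hmem => he' (Finset.mem_erase.mpr ⟨hee, hmem⟩)

theorem DT.of_cst {k : ℕ} {R : Finset U} {x : U → Bool} {f : Fn U} (h : Cst R x f) :
    DT k R x f := by
  cases k with
  | zero => exact h
  | succ k => exact Or.inl h

theorem DT.mono {k k' : ℕ} {R : Finset U} {x : U → Bool} {f : Fn U} (h : k ≤ k')
    (hd : DT k R x f) : DT k' R x f := by
  induction k generalizing k' R x with
  | zero => exact DT.of_cst hd
  | succ k ih =>
    obtain ⟨m, rfl⟩ : ∃ m, k' = m + 1 := ⟨k' - 1, by omega⟩
    rcases hd with hd | ⟨e, he, hd⟩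
    · exact Or.inl hd
    · exact Or.inr ⟨e, he, fun b => ih (by omega) (hd b)⟩

theorem Cst.restrict {R : Finset U} {x : U → Bool} {f : Fn U} (hd : Cst R x f)
    (A : Finset U) (hA : A ⊆ R) (y : U → Bool) : Cst (R \ A) (ovr A y x) f := by
  intro z
  have h1 : ovr (R \ A) z (ovr A y x) = ovr R (ovr A y z) x := by
    funext e
    by_cases hA' : e ∈ A
    · rw [ovr_not_mem (by simp [hA']), ovr_mem hA', ovr_mem (hA hA'), ovr_mem hA']
    · by_cases hR : e ∈ R
      · rw [ovr_mem (by simp [hA', hR]), ovr_mem hR, ovr_not_mem hA']
      · rw [ovr_not_mem (by simp [hR]), ovr_not_mem hA', ovr_not_mem hR]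
  have h2 : ovr A y x = ovr R (ovr A y x) x := by
    funext e
    by_cases hR : e ∈ R
    · rw [ovr_mem hR]
    · rw [ovr_not_mem hR, ovr_not_mem fun h => hR (hA h)]
  rw [h1, hd, h2, hd]

theorem DT.restrict {k : ℕ} {R : Finset U} {x : U → Bool} {f : Fn U} (hd : DT k R x f)
    (A : Finset U) (hA : A ⊆ R) (y : U → Bool) : DT k (R \ A) (ovr A y x) f := by
  induction k generalizing R x A y with
  | zero => exact Cst.restrict hd A hA y
  | succ k ih =>
    rcases hd with hd | ⟨e, he, hd⟩
    · exact Or.inl (Cst.restrict hd A hA y)
    · by_cases heA : e ∈ A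
      · -- the variable is fixed
        have h1 := ih (hd (y e)) (A.erase e) (Finset.erase_subset_erase e hA) y
        have h2 : R.erase e \ A.erase e = R \ A := by
          ext e'
          by_cases hee : e' = e
          · subst hee; simp [heA]
          · simp [hee]
        rw [h2] at h1
        refine DT.mono (Nat.le_succ k) (DT.congr ?_ h1)
        intro e' _
        by_cases hee : e' = e
        · subst hee
          rw [ovr_not_mem (by simp), ovr_mem heA]; simp
        · by_cases hA' : e' ∈ A
          · rw [ovr_mem (by simp [hee, hA']), ovr_mem hA']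
          · rw [ovr_not_mem (by simp [hA']), ovr_not_mem hA', Function.update_of_ne hee]
      · refine Or.inr ⟨e, by simp [he, heA], fun b => ?_⟩
        have h1 := ih (hd b) A (fun a ha => Finset.mem_erase.mpr
          ⟨fun h => heA (h ▸ ha), hA ha⟩) y
        have h2 : R.erase e \ A = (R \ A).erase e := by
          ext e'; simp; tauto
        rw [h2] at h1
        refine DT.congr ?_ h1
        intro e' _
        by_cases hee : e' = e
        · subst hee
          rw [ovr_not_mem heA]; simp
        · rw [Function.update_of_ne hee]
          by_cases hA' : e' ∈ A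
          · rw [ovr_mem hA', ovr_mem hA']
          · rw [ovr_not_mem hA', ovr_not_mem hA', Function.update_of_ne hee]

theorem DT.subset {k : ℕ} {R R' : Finset U} {x : U → Bool} {f : Fn U} (hd : DT k R x f)
    (h : R' ⊆ R) : DT k R' x f := by
  have h1 := hd.restrict (R \ R') Finset.sdiff_subset x
  rw [ovr_self, Finset.sdiff_sdiff_eq_self h] at h1
  exact h1

theorem swOn_eq_ovr (W : Finset U) (x : U → Bool) : swOn x W = ovr W (fun _ => true) x := by
  funext e
  by_cases he : e ∈ W
  · simp [swOn, ovr, he]
  · simp [swOn, ovr, he]

theorem DT.swOn {k : ℕ} {R : Finset U} {x : U → Bool} {f : Fn U} (hd : DT k R x f)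
    (W : Finset U) (hW : W ⊆ R) : DT k (R \ W) (swOn x W) f := by
  rw [swOn_eq_ovr]; exact hd.restrict W hW _

theorem DT.not {k : ℕ} {R : Finset U} {x : U → Bool} {f : Fn U} (hd : DT k R x f) :
    DT k R x (fun z => !f z) := by
  induction k generalizing R x with
  | zero => intro y; simp [hd y]
  | succ k ih =>
    rcases hd with hd | ⟨e, he, hd⟩
    · exact Or.inl fun y => by simp [hd y]
    · exact Or.inr ⟨e, he, fun b => ih (hd b)⟩

theorem DT.lit {R : Finset U} {x : U → Bool} {f : Fn U} (hf : IsLit f) : DT 1 R x f := by
  rcases hf with ⟨b, hb⟩ | ⟨e, hb⟩ | ⟨e, hb⟩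
  · exact Or.inl fun y => by rw [hb, hb]
  · by_cases he : e ∈ R
    · refine Or.inr ⟨e, he, fun b y => ?_⟩
      rw [hb, hb, ovr_not_mem (by simp)]
    · exact Or.inl fun y => by rw [hb, hb, ovr_not_mem he]
  · by_cases he : e ∈ R
    · refine Or.inr ⟨e, he, fun b y => ?_⟩
      rw [hb, hb, ovr_not_mem (by simp)]
    · exact Or.inl fun y => by rw [hb, hb, ovr_not_mem he]

theorem DT.read {k : ℕ} {R : Finset U} {x : U → Bool} {f : Fn U} (A : Finset U) (hA : A ⊆ R)
    (h : ∀ B, B ⊆ A → DT k (R \ A) (ovr A (fun e => decide (e ∈ B)) x) f) :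
    DT (k + A.card) R x f := by
  induction A using Finset.induction_on generalizing R x with
  | empty =>
    have := h ∅ (Finset.Subset.refl _)
    simp only [Finset.sdiff_empty] at this
    have h2 : ovr ∅ (fun e => decide (e ∈ (∅ : Finset U))) x = x := by
      funext e; simp [ovr]
    rw [h2] at this
    simpa using this
  | insert a A haA ih =>
    rw [Finset.card_insert_of_notMem haA]
    refine Or.inr ⟨a, hA (Finset.mem_insert_self a A), fun b => ?_⟩
    apply ih
    · intro e he
      exact Finset.mem_erase.mpr ⟨fun h => haA (h ▸ he), hA (Finset.mem_insert_of_mem he)⟩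
    · intro B hB
      set B' : Finset U := if b = true then insert a B else B with hB'
      have hB'' : B' ⊆ insert a A := by
        rw [hB']; split_ifs
        · exact Finset.insert_subset_insert a hB
        · exact hB.trans (Finset.subset_insert a A)
      have h1 := h B' hB''
      have h2 : R \ insert a A = R.erase a \ A := by
        ext e; simp; tauto
      rw [h2] at h1
      refine DT.congr ?_ h1
      intro e _
      have haB : a ∉ B := fun h => haA (hB h)
      by_cases hea : e = a
      · subst hea
        rw [ovr_mem (Finset.mem_insert_self _ _), ovr_not_mem haA]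
        cases b <;> simp [hB', haB]
      · by_cases heA : e ∈ A
        · rw [ovr_mem (Finset.mem_insert_of_mem heA), ovr_mem heA]
          cases b <;> simp [hB', hea]
        · rw [ovr_not_mem (by simp [hea, heA]), ovr_not_mem heA, Function.update_of_ne hea]

theorem DT.lift {k : ℕ} {R R' : Finset U} {x u : U → Bool} {f : Fn U} (h : R' ⊆ R)
    (hd : DT k R' u (fun y => f (ovr R y x))) : DT k R' (ovr R u x) f := by
  have key : ∀ (R' : Finset U) (u : U → Bool), R' ⊆ R → Cst R' u (fun y => f (ovr R y x)) →
      Cst R' (ovr R u x) f := by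
    intro R' u h hd y
    have h1 := hd y
    simp only at h1
    rw [← h1]
    congr 1
    funext e
    by_cases he : e ∈ R'
    · rw [ovr_mem he, ovr_mem (h he), ovr_mem he]
    · rw [ovr_not_mem he]
      by_cases heR : e ∈ R
      · rw [ovr_mem heR, ovr_mem heR, ovr_not_mem he]
      · rw [ovr_not_mem heR, ovr_not_mem heR]
  induction k generalizing R' u with
  | zero => exact key R' u h hd
  | succ k ih =>
    rcases hd with hd | ⟨e, he, hd⟩
    · exact Or.inl (key R' u h hd)
    · refine Or.inr ⟨e, he, fun b => ?_⟩
      have h1 := ih ((Finset.erase_subset e R').trans h) (hd b)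
      refine DT.congr ?_ h1
      intro e' _
      by_cases hee : e' = e
      · subst hee
        rw [ovr_mem (h he)]; simp
      · rw [Function.update_of_ne hee]
        by_cases heR : e' ∈ R
        · rw [ovr_mem heR, ovr_mem heR, Function.update_of_ne hee]
        · rw [ovr_not_mem heR, ovr_not_mem heR]

theorem DT.dnf {k : ℕ} {R : Finset U} {x : U → Bool} {f : Fn U} (hd : DT k R x f) :
    ∃ Ts : List (Term U), (∀ T ∈ Ts, T.1 ⊆ R ∧ T.1.card ≤ k) ∧
      ∀ y, f (ovr R y x) = true ↔ ∃ T ∈ Ts, Term.Sat T y := by
  have key : ∀ (k : ℕ) (R : Finset U) (x : U → Bool), Cst R x f →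
      ∃ Ts : List (Term U), (∀ T ∈ Ts, T.1 ⊆ R ∧ T.1.card ≤ k) ∧
      ∀ y, f (ovr R y x) = true ↔ ∃ T ∈ Ts, Term.Sat T y := by
    intro k R x hc
    by_cases hx : f x = true
    · refine ⟨[(∅, fun _ => true)], ?_, ?_⟩
      · intro T hT
        simp only [List.mem_singleton] at hT
        subst hT; simp
      · intro y
        rw [hc y]
        simp [hx, Term.Sat]
    · refine ⟨[], by simp, ?_⟩
      intro y
      rw [hc y]
      simp [hx]
  induction k generalizing R x with
  | zero => exact key 0 R x hd
  | succ k ih =>
    rcases hd with hd | ⟨e, he, hd⟩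
    · exact key _ R x hd
    · obtain ⟨T0, h0, h0'⟩ := ih (hd false)
      obtain ⟨T1, h1, h1'⟩ := ih (hd true)
      refine ⟨(T0.map fun T => (insert e T.1, Function.update T.2 e false)) ++
        (T1.map fun T => (insert e T.1, Function.update T.2 e true)), ?_, ?_⟩
      · intro T hT
        simp only [List.mem_append, List.mem_map] at hT
        rcases hT with ⟨T', hT', rfl⟩ | ⟨T', hT', rfl⟩
        · obtain ⟨ha, hb⟩ := h0 T' hT'
          refine ⟨Finset.insert_subset he (ha.trans (Finset.erase_subset _ _)), ?_⟩
          exact (Finset.card_insert_le _ _).trans (by omega)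
        · obtain ⟨ha, hb⟩ := h1 T' hT'
          refine ⟨Finset.insert_subset he (ha.trans (Finset.erase_subset _ _)), ?_⟩
          exact (Finset.card_insert_le _ _).trans (by omega)
      · intro y
        have hsat : ∀ (b : Bool) (T : Term U), T.1 ⊆ R.erase e →
            (Term.Sat (insert e T.1, Function.update T.2 e b) y ↔ y e = b ∧ Term.Sat T y) := by
          intro b T hT
          have heT : e ∉ T.1 := fun h => by simpa using hT h
          constructor
          · intro h
            refine ⟨?_, fun e' he' => ?_⟩
            · have := h e (Finset.mem_insert_self _ _)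
              simpa using this
            · have := h e' (Finset.mem_insert_of_mem he')
              have hne : e' ≠ e := fun h => heT (h ▸ he')
              simpa [Function.update_of_ne hne] using this
          · rintro ⟨h, h'⟩ e' he'
            simp only [Finset.mem_insert] at he'
            by_cases hee : e' = e
            · subst hee; simp [h]
            · simp only [Function.update_of_ne hee]
              exact h' e' (he'.resolve_left hee)
        have hov : ovr R y x = ovr (R.erase e) y (Function.update x e (y e)) := by
          funext e'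
          by_cases hee : e' = e
          · subst hee
            rw [ovr_mem he, ovr_not_mem (by simp)]; simp
          · by_cases heR : e' ∈ R
            · rw [ovr_mem heR, ovr_mem (by simp [hee, heR])]
            · rw [ovr_not_mem heR, ovr_not_mem (by simp [heR]), Function.update_of_ne hee]
        rw [hov]
        cases hye : y e
        · rw [h0']
          constructor
          · rintro ⟨T, hT, hs⟩
            exact ⟨_, List.mem_append_left _ (List.mem_map_of_mem hT),
              (hsat false T (h0 T hT).1).mpr ⟨hye, hs⟩⟩
          · rintro ⟨T, hT, hs⟩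
            simp only [List.mem_append, List.mem_map] at hT
            rcases hT with ⟨T', hT', rfl⟩ | ⟨T', hT', rfl⟩
            · exact ⟨T', hT', ((hsat false T' (h0 T' hT').1).mp hs).2⟩
            · have := ((hsat true T' (h1 T' hT').1).mp hs).1
              rw [hye] at this; simp at this
        · rw [h1']
          constructor
          · rintro ⟨T, hT, hs⟩
            exact ⟨_, List.mem_append_right _ (List.mem_map_of_mem hT),
              (hsat true T (h1 T hT).1).mpr ⟨hye, hs⟩⟩
          · rintro ⟨T, hT, hs⟩
            simp only [List.mem_append, List.mem_map] at hT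
            rcases hT with ⟨T', hT', rfl⟩ | ⟨T', hT', rfl⟩
            · have := ((hsat false T' (h0 T' hT').1).mp hs).1
              rw [hye] at this; simp at this
            · exact ⟨T', hT', ((hsat true T' (h1 T' hT').1).mp hs).2⟩

end Pool.Agent.ACG
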