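import Pool.Agent.ACG.Model

/-! # Project ACG (MP_cd574d_lc): the guess hierarchy for constant depth circuits.
Definitions. -/

set_option autoImplicit false

namespace Pool.Agent.ACG

open Finset Classical

variable {U : Type} [Fintype U] [DecidableEq U]

/-! ## Circuits in levelled form -/

/-- Every gate of `G` is an OR or an AND of gates of `F` (unbounded fan-in). -/
def NextLevel (F G : Finset (Fn U)) : Prop :=
  ∀ g ∈ G, ∃ H ⊆ F, (∀ x, g x = true ↔ ∃ h ∈ H, h x = true) ∨
    (∀ x, g x = true ↔ ∀ h ∈ H, h x = true)

/-- `F` is the top level of a circuit of depth `d` with at most `S` gates on each level. -/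
inductive Levels (S : ℕ) : ℕ → Finset (Fn U) → Prop
  | zero (F : Finset (Fn U)) : (∀ f ∈ F, IsLit f) → F.card ≤ S → Levels S 0 F
  | succ (d : ℕ) (F G : Finset (Fn U)) : Levels S d F → NextLevel F G → G.card ≤ S →
      Levels S (d + 1) G

/-- `f` is computed by a circuit of depth `d` with at most `S` gates on each level. -/
def Computes (S d : ℕ) (f : Fn U) : Prop := ∃ F : Finset (Fn U), Levels S d F ∧ f ∈ F

/-- `f` is computed with `g` guessed bits by such a circuit. -/
def GuessComputes (S d g : ℕ) (f : Fn U) : Prop :=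
  ∃ c : Fn (U ⊕ Fin g), Computes S d c ∧
    ∀ x, f x = true ↔ ∃ y : Fin g → Bool, c (Sum.elim x y) = true

/-! ## Decision trees on subcubes -/

/-- `y` on `R`, `x` elsewhere. -/
def ovr (R : Finset U) (y x : U → Bool) : U → Bool := fun e => if e ∈ R then y e else x e

/-- Switch on the variables of `V`. -/
def swOn (x : U → Bool) (V : Finset U) : U → Bool := fun e => x e || decide (e ∈ V)

/-- `f` is constant on the subcube with free variables `R` through `x`. -/
def Cst (R : Finset U) (x : U → Bool) (f : Fn U) : Prop := ∀ y, f (ovr R y x) = f x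

/-- `f` has decision tree depth at most `k` on the subcube with free variables `R` through `x`. -/
def DT : ℕ → Finset U → (U → Bool) → Fn U → Prop
  | 0, R, x, f => Cst R x f
  | k + 1, R, x, f => Cst R x f ∨ ∃ e ∈ R, ∀ b, DT k (R.erase e) (Function.update x e b) f

/-- Partial assignments (terms): the set of variables and their values. -/
abbrev Term (U : Type) := Finset U × (U → Bool)

/-- The term is satisfied. -/
def Term.Sat (T : Term U) (x : U → Bool) : Prop := ∀ e ∈ T.1, x e = T.2 e

/-- First term of the list satisfied by `z`. -/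
noncomputable def fsat (Ts : List (Term U)) (z : U → Bool) : Option (Term U) :=
  Ts.find? (fun T => decide (Term.Sat T z))

/-- Sets which can be decoded from the full assignment `z`. -/
inductive Dec (Ts : List (Term U)) : (U → Bool) → Finset U → Prop
  | nil (z : U → Bool) : Dec Ts z ∅
  | cons (z : U → Bool) (T : Term U) (A B W : Finset U) : fsat Ts z = some T → A ⊆ T.1 →
      A.Nonempty → B ⊆ A → Disjoint A W → Dec Ts (ovr A (fun e => decide (e ∈ B)) z) W →
      Dec Ts z (A ∪ W)

/-! ## Pivotal sets and chains -/

/-- `W` is a minimal set of zeros of `x` such that switching it on turns `h` from 0 to 1. -/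
def Piv (h : Fn U) (x : U → Bool) (W : Finset U) : Prop :=
  W.Nonempty ∧ (∀ e ∈ W, x e = false) ∧ h x = false ∧ h (swOn x W) = true ∧
    ∀ V, V ⊂ W → h (swOn x V) = false

/-- First function of the list with value 0. -/
def ff (hs : List (Fn U)) (x : U → Bool) : Option (Fn U) := hs.find? (fun h => !h x)

/-- Chains of pivotal sets for an AND gate with list of inputs `hs`. -/
inductive Chn (hs : List (Fn U)) : (U → Bool) → Finset U → Prop
  | nil (x : U → Bool) : Chn hs x ∅
  | cons (x : U → Bool) (h : Fn U) (W V : Finset U) : ff hs x = some h → Piv h x W →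
      Disjoint W V → Chn hs (swOn x W) V → Chn hs x (W ∪ V)

/-- A circuit with all choices made. -/
structure Circ (U : Type) [Fintype U] [DecidableEq U] (S d : ℕ) where
  L : ℕ → Finset (Fn U)
  kids : ℕ → Fn U → List (Fn U)
  isAnd : ℕ → Fn U → Bool
  card_le : ∀ i, (L i).card ≤ S
  base : ∀ f ∈ L 0, IsLit f
  kids_mem : ∀ i g, ∀ h ∈ kids i g, h ∈ L i
  kids_len : ∀ i g, (kids i g).length ≤ S
  eval : ∀ i, i < d → ∀ g ∈ L (i + 1), ∀ x,
    g x = if isAnd i g = true then (kids i g).all (fun h => h x) else (kids i g).any (fun h => h x)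

/-- Long chains below a gate of level `i`. -/
def LC {S d : ℕ} (C : Circ U S d) : ℕ → Fn U → (U → Bool) → Finset U → Prop
  | 0, _, _, _ => False
  | i + 1, g, x, V =>
      (C.isAnd i g = true ∧ (Chn (C.kids i g) x V ∨ ∃ (V₁ V₂ : Finset U) (h : Fn U),
        V = V₁ ∪ V₂ ∧ Disjoint V₁ V₂ ∧ Chn (C.kids i g) x V₁ ∧
        ff (C.kids i g) (swOn x V₁) = some h ∧ LC C i h (swOn x V₁) V₂)) ∨
      (C.isAnd i g = false ∧ ∃ h ∈ C.kids i g, LC C i h x V)

/-! ## Product laws. A state of a variable is (star ?, value). -/

/-- Expectation of `F` when the states of the variables are independent with law `w`. -/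
noncomputable def Ex {Ω : Type} [Fintype Ω] (w : Ω → ℝ) (F : (U → Ω) → ℝ) : ℝ :=
  ∑ s : U → Ω, (∏ e, w (s e)) * F s

/-- The set of stars. -/
def stars (s : U → Bool × Bool) : Finset U := univ.filter fun e => (s e).1 = true

/-- The values. -/
def vals (s : U → Bool × Bool) : U → Bool := fun e => (s e).2

/-- Law with star probability `Q` (star values uniform) and probability `a` of a non-star one. -/
noncomputable def law (Q a : ℝ) : Bool × Bool → ℝ
  | (true, _) => Q / 2
  | (false, true) => a
  | (false, false) => 1 - Q - a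

/-- Indicator. -/
noncomputable def ind (p : Prop) : ℝ := if p then 1 else 0

/-- Some gate of level at most `i` is not a decision tree of depth `D`. -/
def Bad {S d : ℕ} (C : Circ U S d) (D i : ℕ) (R : Finset U) (x : U → Bool) : Prop :=
  ∃ j ≤ i, ∃ g ∈ C.L j, ¬ DT D R x g

end Pool.Agent.ACG
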