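import Pool.Agent.ACG.Defs

/-! Project ACG: the planted constraint satisfaction problem. -/

set_option autoImplicit false

namespace Pool.Agent.ACG

open Finset Classical

/-- Input variables of the planted problem: a constraint and the values of its three variables. -/
abbrev Vr (t q : ℕ) := Fin (3 * t) × (Fin 3 → Fin q)

/-- The bits read by the candidate solution `y`. -/
def cspY {t q : ℕ} (N : Fin (3 * t) → Fin 3 → Fin t) (y : Fin t → Fin q) : Finset (Vr t q) :=
  univ.image fun j => (j, fun i => y (N j i))

/-- Some `y` satisfies all constraints. -/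
noncomputable def csp {t q : ℕ} (N : Fin (3 * t) → Fin 3 → Fin t) : Fn (Vr t q) :=
  fun x => decide (∃ y : Fin t → Fin q, ∀ j, x (j, fun i => y (N j i)) = true)

/-- Small sets of constraints contain many variables. -/
def Expands {t : ℕ} (N : Fin (3 * t) → Fin 3 → Fin t) : Prop :=
  ∀ J : Finset (Fin (3 * t)), 60 * J.card ≤ t → J.card ≤ (J.biUnion fun j => univ.image (N j)).card

end Pool.Agent.ACG
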