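import Pool.Agent.ACG.Defs2

/-! # Project ACG: expanders by counting -/

set_option autoImplicit false

namespace Pool.Agent.ACG

open Finset Classical

/-- `n` choose `k` is at most `(3 n / k) ^ k`. -/
theorem Expander_choose (n k : ℕ) (hk : 1 ≤ k) :
    (n.choose k : ℝ) ≤ (3 * n / k) ^ k := by
  have hk0 : (0 : ℝ) < k := by exact_mod_cast hk
  have h1 : (n.choose k : ℝ) ≤ (n : ℝ) ^ k / (k.factorial : ℝ) := Nat.choose_le_pow_div k n
  have h2 : (k : ℝ) ^ k / (k.factorial : ℝ) ≤ 3 ^ k := by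
    have h3 := Real.pow_div_factorial_le_exp (k : ℝ) hk0.le k
    have h4 : Real.exp (k : ℝ) ≤ 3 ^ k := by
      have h5 : Real.exp (k : ℝ) = Real.exp 1 ^ k := by
        rw [← Real.exp_nat_mul, mul_one]
      rw [h5]
      have h6 : Real.exp 1 ≤ 3 := by
        have := Real.exp_one_lt_d9
        linarith
      exact pow_le_pow_left₀ (Real.exp_pos 1).le h6 k
    exact h3.trans h4
  have hf : (0 : ℝ) < (k.factorial : ℝ) := by exact_mod_cast k.factorial_pos
  have hkk : (0 : ℝ) < (k : ℝ) ^ k := pow_pos hk0 k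
  refine h1.trans ?_
  rw [div_pow, mul_pow, div_le_div_iff₀ hf hkk]
  rw [div_le_iff₀ hf] at h2
  calc (n : ℝ) ^ k * (k : ℝ) ^ k ≤ (n : ℝ) ^ k * (3 ^ k * (k.factorial : ℝ)) :=
        mul_le_mul_of_nonneg_left h2 (by positivity)
    _ = 3 ^ k * (n : ℝ) ^ k * (k.factorial : ℝ) := by ring

/-- One term of the counting. -/
theorem Expander_term (t r : ℕ) (hr : 2 ≤ r) (hrt : 60 * r ≤ t) :
    (((3 * t).choose r : ℕ) : ℝ) * ((t.choose (r - 1) : ℕ) : ℝ) *
      ((((r - 1 : ℕ) : ℝ) ^ 3) ^ r * ((t : ℝ) ^ 3) ^ (3 * t - r)) ≤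
      (1 / 2) ^ r * ((t : ℝ) ^ 3) ^ (3 * t) := by
  obtain ⟨z, rfl⟩ : ∃ z, r = z + 1 := ⟨r - 1, by omega⟩
  have hz : 1 ≤ z := by omega
  simp only [Nat.add_sub_cancel]
  have hz0 : (0 : ℝ) < z := by exact_mod_cast hz
  have ht0 : (0 : ℝ) < t := by
    have : 0 < t := by omega
    exact_mod_cast this
  have hrt' : 60 * ((z : ℝ) + 1) ≤ t := by exact_mod_cast hrt
  set u : ℝ := (z : ℝ) / t with hu
  have hu0 : 0 < u := div_pos hz0 ht0
  have hu60 : 54 * u ≤ 1 := by
    rw [hu, ← mul_div_assoc, div_le_one ht0]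
    linarith
  have h1 : (((3 * t).choose (z + 1) : ℕ) : ℝ) ≤ (9 / u) ^ (z + 1) := by
    refine (Expander_choose (3 * t) (z + 1) (by omega)).trans ?_
    refine pow_le_pow_left₀ (by positivity) ?_ _
    have h : (9 : ℝ) / u = 9 * t / z := by
      rw [hu]
      field_simp
    rw [h]
    push_cast
    rw [div_le_div_iff₀ (by linarith) hz0]
    nlinarith
  have h2 : ((t.choose z : ℕ) : ℝ) ≤ (3 / u) ^ (z + 1) := by
    refine (Expander_choose t z hz).trans ?_
    have h : (3 : ℝ) * t / z = 3 / u := by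
      rw [hu]
      field_simp
    rw [h]
    refine pow_le_pow_right₀ ?_ (by omega)
    rw [le_div_iff₀ hu0]
    linarith
  have h3 : (((3 * t).choose (z + 1) : ℕ) : ℝ) * ((t.choose z : ℕ) : ℝ) ≤
      (1 / (2 * u ^ 3)) ^ (z + 1) := by
    calc (((3 * t).choose (z + 1) : ℕ) : ℝ) * ((t.choose z : ℕ) : ℝ)
        ≤ (9 / u) ^ (z + 1) * (3 / u) ^ (z + 1) :=
          mul_le_mul h1 h2 (by positivity) (by positivity)
      _ = (27 / u ^ 2) ^ (z + 1) := by
          rw [← mul_pow]
          congr 1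
          field_simp
          norm_num
      _ ≤ (1 / (2 * u ^ 3)) ^ (z + 1) := by
          refine pow_le_pow_left₀ (by positivity) ?_ _
          rw [div_le_div_iff₀ (by positivity) (by positivity)]
          have : 0 < u ^ 2 := by positivity
          nlinarith
  have hexp : 3 * t = (z + 1) + (3 * t - (z + 1)) := by omega
  have h4 : ((t : ℝ) ^ 3) ^ (3 * t) = ((t : ℝ) ^ 3) ^ (z + 1) * ((t : ℝ) ^ 3) ^ (3 * t - (z + 1)) := by
    rw [← pow_add, ← hexp]
  rw [h4]
  have h5 : (1 / (2 * u ^ 3)) ^ (z + 1) * ((z : ℝ) ^ 3) ^ (z + 1) =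
      (1 / 2) ^ (z + 1) * ((t : ℝ) ^ 3) ^ (z + 1) := by
    rw [← mul_pow, ← mul_pow]
    congr 1
    rw [hu]
    field_simp
  calc (((3 * t).choose (z + 1) : ℕ) : ℝ) * ((t.choose z : ℕ) : ℝ) *
        (((z : ℝ) ^ 3) ^ (z + 1) * ((t : ℝ) ^ 3) ^ (3 * t - (z + 1)))
      ≤ (1 / (2 * u ^ 3)) ^ (z + 1) *
        (((z : ℝ) ^ 3) ^ (z + 1) * ((t : ℝ) ^ 3) ^ (3 * t - (z + 1))) :=
        mul_le_mul_of_nonneg_right h3 (by positivity)
    _ = ((1 / (2 * u ^ 3)) ^ (z + 1) * ((z : ℝ) ^ 3) ^ (z + 1)) *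
        ((t : ℝ) ^ 3) ^ (3 * t - (z + 1)) := by ring
    _ = _ := by rw [h5]; ring

/-- The functions which map `J` into `Z`. -/
noncomputable def Expander_B {t : ℕ} (J : Finset (Fin (3 * t))) (Z : Finset (Fin t)) :
    Finset (Fin (3 * t) → Fin 3 → Fin t) :=
  Fintype.piFinset fun j => if j ∈ J then Fintype.piFinset (fun _ => Z) else univ

theorem Expander_B_card {t : ℕ} (J : Finset (Fin (3 * t))) (Z : Finset (Fin t)) :
    (Expander_B J Z).card = (Z.card ^ 3) ^ J.card * (t ^ 3) ^ (3 * t - J.card) := by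
  unfold Expander_B
  rw [Fintype.card_piFinset]
  have h : ∀ j : Fin (3 * t), (if j ∈ J then Fintype.piFinset (fun _ : Fin 3 => Z)
      else (univ : Finset (Fin 3 → Fin t))).card = if j ∈ J then Z.card ^ 3 else t ^ 3 := by
    intro j
    split_ifs
    · rw [Fintype.card_piFinset]
      simp
    · simp
  rw [Finset.prod_congr rfl fun j _ => h j, Finset.prod_ite]
  rw [Finset.prod_const, Finset.prod_const]
  congr 2
  · congr 1
    ext j
    simp
  · have h1 : (univ.filter fun j : Fin (3 * t) => j ∉ J) = univ \ J := by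
      ext j
      simp
    rw [h1, Finset.card_sdiff_of_subset (Finset.subset_univ J)]
    simp

theorem expander (t : ℕ) : ∃ N : Fin (3 * t) → Fin 3 → Fin t, Expands N := by
  rcases Nat.eq_zero_or_pos t with rfl | ht
  · refine ⟨fun j => Fin.elim0 (Fin.cast (Nat.mul_zero 3) j), ?_⟩
    intro J hJ
    have : J.card = 0 := by omega
    omega
  by_contra hcon
  have hcon' : ∀ N : Fin (3 * t) → Fin 3 → Fin t, ¬ Expands N := fun N hN => hcon ⟨N, hN⟩
  have hcover : (univ : Finset (Fin (3 * t) → Fin 3 → Fin t)) ⊆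
      (Icc 2 (t / 60)).biUnion fun r =>
        (powersetCard r univ ×ˢ powersetCard (r - 1) univ).biUnion fun p =>
          Expander_B p.1 p.2 := by
    intro N _
    have h := hcon' N
    unfold Expands at h
    push Not at h
    obtain ⟨J, hJt, hJ⟩ := h
    set I := J.biUnion fun j => univ.image (N j) with hI
    have hJpos : 0 < J.card := by omega
    have hIpos : 0 < I.card := by
      obtain ⟨j, hj⟩ := Finset.card_pos.mp hJpos
      refine Finset.card_pos.mpr ⟨N j 0, ?_⟩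
      rw [hI, Finset.mem_biUnion]
      exact ⟨j, hj, Finset.mem_image_of_mem _ (Finset.mem_univ 0)⟩
    obtain ⟨Z, hIZ, hZ⟩ : ∃ Z : Finset (Fin t), I ⊆ Z ∧ Z.card = J.card - 1 := by
      refine (Finset.exists_subsuperset_card_eq (Finset.subset_univ I) (by omega) ?_).imp
        fun Z hZ => ⟨hZ.1, hZ.2.2⟩
      rw [Finset.card_univ, Fintype.card_fin]
      omega
    rw [Finset.mem_biUnion]
    refine ⟨J.card, ?_, ?_⟩
    · rw [Finset.mem_Icc]
      constructor
      · omega
      · omega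
    · rw [Finset.mem_biUnion]
      refine ⟨(J, Z), ?_, ?_⟩
      · rw [Finset.mem_product, Finset.mem_powersetCard, Finset.mem_powersetCard]
        exact ⟨⟨Finset.subset_univ _, rfl⟩, ⟨Finset.subset_univ _, hZ⟩⟩
      · unfold Expander_B
        rw [Fintype.mem_piFinset]
        intro j
        split_ifs with hj
        · rw [Fintype.mem_piFinset]
          intro i
          apply hIZ
          rw [hI, Finset.mem_biUnion]
          exact ⟨j, hj, Finset.mem_image_of_mem _ (Finset.mem_univ i)⟩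
        · exact Finset.mem_univ _
  have hcard : ((t ^ 3) ^ (3 * t) : ℕ) ≤
      ∑ r ∈ Icc 2 (t / 60), (3 * t).choose r * t.choose (r - 1) *
        (((r - 1) ^ 3) ^ r * (t ^ 3) ^ (3 * t - r)) := by
    have h1 : (univ : Finset (Fin (3 * t) → Fin 3 → Fin t)).card = (t ^ 3) ^ (3 * t) := by
      simp
    rw [← h1]
    refine (Finset.card_le_card hcover).trans (Finset.card_biUnion_le.trans ?_)
    refine Finset.sum_le_sum fun r _ => ?_
    refine Finset.card_biUnion_le.trans ?_
    have h2 : ∀ p ∈ powersetCard r (univ : Finset (Fin (3 * t))) ×ˢ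
        powersetCard (r - 1) (univ : Finset (Fin t)), (Expander_B p.1 p.2).card =
          ((r - 1) ^ 3) ^ r * (t ^ 3) ^ (3 * t - r) := by
      intro p hp
      rw [Finset.mem_product, Finset.mem_powersetCard, Finset.mem_powersetCard] at hp
      rw [Expander_B_card, hp.1.2, hp.2.2]
    rw [Finset.sum_congr rfl h2, Finset.sum_const, smul_eq_mul, Finset.card_product,
      Finset.card_powersetCard, Finset.card_powersetCard]
    simp
  have ht0 : (0 : ℝ) < t := by exact_mod_cast ht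
  have hT : (0 : ℝ) < ((t : ℝ) ^ 3) ^ (3 * t) := by positivity
  have hreal : ((t : ℝ) ^ 3) ^ (3 * t) ≤
      ∑ r ∈ Icc 2 (t / 60), (1 / 2 : ℝ) ^ r * ((t : ℝ) ^ 3) ^ (3 * t) := by
    have h1 : ((t : ℝ) ^ 3) ^ (3 * t) ≤ ∑ r ∈ Icc 2 (t / 60),
        (((3 * t).choose r : ℕ) : ℝ) * ((t.choose (r - 1) : ℕ) : ℝ) *
          ((((r - 1 : ℕ) : ℝ) ^ 3) ^ r * ((t : ℝ) ^ 3) ^ (3 * t - r)) := by
      exact_mod_cast hcard
    refine h1.trans (Finset.sum_le_sum fun r hr => ?_)
    rw [Finset.mem_Icc] at hr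
    exact Expander_term t r hr.1 (by omega)
  have hgeom : ∀ m : ℕ, ∑ r ∈ Icc 2 m, (1 / 2 : ℝ) ^ r ≤ 1 / 2 - (1 / 2) ^ m ∨ m < 2 := by
    intro m
    induction m with
    | zero => exact Or.inr (by norm_num)
    | succ m ih =>
      rcases Nat.lt_or_ge (m + 1) 2 with h | h
      · exact Or.inr h
      · left
        rw [Finset.sum_Icc_succ_top h]
        rcases ih with ih | ih
        · have : (1 / 2 : ℝ) ^ (m + 1) = (1 / 2) ^ m * (1 / 2) := pow_succ _ _
          linarith
        · have hm : m = 1 := by omega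
          subst hm
          norm_num
  rw [← Finset.sum_mul] at hreal
  have hlt : ∑ r ∈ Icc 2 (t / 60), (1 / 2 : ℝ) ^ r < 1 := by
    rcases hgeom (t / 60) with h | h
    · have : (0 : ℝ) < (1 / 2) ^ (t / 60) := by positivity
      linarith
    · rw [Finset.Icc_eq_empty (by omega)]
      simp
  nlinarith

end Pool.Agent.ACG
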