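import Pool.Agent.ACG.Result
import Pool.Agent.ACG.CspModel

/-! Project ACG: the explicit problem. -/

set_option autoImplicit false

namespace Pool.Agent.ACG

open Finset Classical

theorem Explicit_card (t l : ℕ) : Fintype.card (Ins t l) = 9 * t ^ 2 + 3 * t * (2 ^ l) ^ 3 := by
  simp only [Ins, Fintype.card_sum, Fintype.card_prod, Fintype.card_fin, Fintype.card_fun]
  ring

/-- With fixed constraint variables. -/
theorem Explicit_subst (t l : ℕ) (N : Fin (3 * t) → Fin 3 → Fin t) :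
    (fun x : Vr t (2 ^ l) → Bool => Csp t l (fun e => Sum.elim x id
      (match e with
        | Sum.inl p => Sum.inr (decide (N p.1 p.2.1 = p.2.2))
        | Sum.inr p => Sum.inl p : Vr t (2 ^ l) ⊕ Bool))) = csp N := by
  funext x
  rw [Bool.eq_iff_iff, Csp, csp, decide_eq_true_eq, decide_eq_true_eq]
  constructor
  · rintro ⟨y, hy⟩
    refine ⟨y, fun j => ?_⟩
    have h1 := hy j (fun i => y (N j i))
    simp only [Sum.elim_inr, Sum.elim_inl, id, decide_eq_true_eq] at h1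
    exact h1 fun i v h => by rw [h]
  · rintro ⟨y, hy⟩
    refine ⟨y, fun j z hz => ?_⟩
    simp only [Sum.elim_inr, Sum.elim_inl, id, decide_eq_true_eq] at hz ⊢
    have h1 : z = fun i => y (N j i) := by
      funext i
      exact (hz i _ rfl).symm
    rw [h1]
    exact hy j

theorem Explicit_guess (t l S d g : ℕ) (N : Fin (3 * t) → Fin 3 → Fin t)
    (h : GuessComputes S d g (Csp t l)) : GuessComputes S d g (csp (q := 2 ^ l) N) := by
  have h1 := h.subst (U := Vr t (2 ^ l)) (fun e =>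
    (match e with
      | Sum.inl p => Sum.inr (decide (N p.1 p.2.1 = p.2.2))
      | Sum.inr p => Sum.inl p : Vr t (2 ^ l) ⊕ Bool))
  rw [Explicit_subst] at h1
  exact h1

theorem Explicit_num1 (d t l r : ℕ) (hd : 1 ≤ d) (hr : r = t / (60 * (d + 2)))
    (hr1 : 1 ≤ r) : t * l ≤ l * r * (120 * (d + 2)) := by
  have hrt' : t < 60 * (d + 2) * (r + 1) := by
    rw [hr]; exact Nat.lt_mul_div_succ _ (by omega)
  have h3 : t ≤ 120 * (d + 2) * r := by nlinarith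
  calc t * l ≤ 120 * (d + 2) * r * l := Nat.mul_le_mul_right _ h3
    _ = l * r * (120 * (d + 2)) := by ring

theorem Explicit_level (d t l : ℕ) (hd : 1 ≤ d) (h1 : 12000 * d ^ 2 ≤ t)
    (h2 : (12000 * d * t) ^ (12000 * d) ≤ 2 ^ l) (S g : ℕ)
    (h : GuessComputes S d g (Csp t l)) : 2 ^ (t * l) ≤ (2 ^ g * S) ^ (12000 * d ^ 2) := by
  obtain ⟨N, hN⟩ := expander t
  have hpos : 1 ≤ 2 ^ g * S := h.computes.pos
  have hcsp := (Explicit_guess t l S d g N h).computes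
  have ht : 60 * (d + 2) ≤ t := by nlinarith
  have ht1 : 1 ≤ t := by omega
  obtain ⟨r, hrd⟩ : ∃ r, r = t / (60 * (d + 2)) := ⟨_, rfl⟩
  have hr1 : 1 ≤ r := by
    rw [hrd, Nat.le_div_iff_mul_le (by omega)]
    omega
  have hrt : r * (60 * (d + 2)) ≤ t := by rw [hrd]; exact Nat.div_mul_le_self _ _
  have hdt : 1 ≤ d * t := Nat.mul_pos hd ht1
  have hq : (800 * (d + 1) * t) ^ (16 * (d + 1)) ≤ 2 ^ l := by
    refine le_trans ?_ h2
    calc (800 * (d + 1) * t) ^ (16 * (d + 1)) ≤ (12000 * d * t) ^ (16 * (d + 1)) := by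
          apply Nat.pow_le_pow_left
          apply Nat.mul_le_mul_right
          omega
      _ ≤ (12000 * d * t) ^ (12000 * d) := by
          apply Nat.pow_le_pow_right _ (by omega)
          nlinarith
  have hlow := csp_lower (d + 1) t (2 ^ l) r (by omega) ht1 hr1 (by
    calc 60 * ((d + 1 + 1) * r) = r * (60 * (d + 2)) := by ring
      _ ≤ t := hrt) hq N hN (2 ^ g * S) hcsp
  calc 2 ^ (t * l) ≤ 2 ^ (l * r * (120 * (d + 2))) :=
        Nat.pow_le_pow_right (by norm_num) (Explicit_num1 d t l r hd hrd hr1)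
    _ = ((2 ^ l) ^ r) ^ (120 * (d + 2)) := by rw [← pow_mul, ← pow_mul]; congr 1; ring
    _ ≤ ((2 ^ g * S) ^ (16 * (d + 1))) ^ (120 * (d + 2)) := Nat.pow_le_pow_left hlow.le _
    _ = (2 ^ g * S) ^ (16 * (d + 1) * (120 * (d + 2))) := by rw [← pow_mul]
    _ ≤ (2 ^ g * S) ^ (12000 * d ^ 2) := by
        apply Nat.pow_le_pow_right hpos
        nlinarith

theorem Explicit_num2 (d t l S g : ℕ) (hS : 1 ≤ S) (ht : 1 ≤ t) (htl : t * t ≤ 2 ^ l)
    (hl : 4 ≤ l) (h1 : 240000 * d ^ 2 ≤ t)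
    (h : 2 ^ (t * l) ≤ (2 ^ g * (2 * S + (2 * ((9 * t ^ 2 + 3 * t * (2 ^ l) ^ 3) + g) + 2))) ^
      (12000 * d ^ 2)) :
    2 ^ (t * l) ≤ (2 ^ g * S) ^ (240000 * d ^ 2) := by
  have hg : g + 1 ≤ 2 ^ g := Nat.lt_two_pow_self
  obtain ⟨q, hq⟩ : ∃ q, q = 2 ^ l := ⟨_, rfl⟩
  have hq16 : 16 ≤ q := by
    rw [hq]
    calc 16 = 2 ^ 4 := by norm_num
      _ ≤ 2 ^ l := Nat.pow_le_pow_right (by norm_num) hl
  obtain ⟨n, hn⟩ : ∃ n, n = 9 * t ^ 2 + 3 * t * (2 ^ l) ^ 3 := ⟨_, rfl⟩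
  rw [← hn] at h
  have htq : t ≤ q := by
    rw [hq]
    exact le_trans (Nat.le_mul_of_pos_left _ ht) htl
  have hn2 : 2 * (n + 2) ≤ 2 ^ (6 * l) := by
    have e : 2 ^ (6 * l) = q ^ 6 := by rw [hq, ← pow_mul]; congr 1; ring
    rw [e, hn, ← hq]
    have h2 : 9 * t ^ 2 ≤ 9 * q := by rw [pow_two, hq]; exact Nat.mul_le_mul_left _ htl
    have h3 : 3 * t * q ^ 3 ≤ 3 * q * q ^ 3 := Nat.mul_le_mul_right _ (Nat.mul_le_mul_left _ htq)
    have h4 : q ≤ q ^ 4 := by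
      calc q = q ^ 1 := (pow_one q).symm
        _ ≤ q ^ 4 := Nat.pow_le_pow_right (by omega) (by norm_num)
    have h5 : 3 * q * q ^ 3 = 3 * q ^ 4 := by ring
    have h6 : 26 ≤ q * q := by nlinarith
    calc 2 * (9 * t ^ 2 + 3 * t * q ^ 3 + 2) ≤ 26 * q ^ 4 := by omega
      _ ≤ q * q * q ^ 4 := Nat.mul_le_mul_right _ h6
      _ = q ^ 6 := by ring
  have h3 : 2 * S + (2 * (n + g) + 2) ≤ S * 2 ^ g * 2 ^ (6 * l) := by
    calc 2 * S + (2 * (n + g) + 2) ≤ S * (g + 1) * (2 * (n + 2)) := by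
          have e1 : n + g + 2 ≤ (g + 1) * (n + 2) := by nlinarith
          have e2 : (g + 1) * (n + 2) ≤ S * ((g + 1) * (n + 2)) := Nat.le_mul_of_pos_left _ hS
          have e3 : S ≤ S * ((g + 1) * (n + 2)) := Nat.le_mul_of_pos_right _ (by positivity)
          have e4 : S * (n + g + 2) ≤ S * ((g + 1) * (n + 2)) := Nat.mul_le_mul_left _ e1
          have e5 : 2 * S + (2 * (n + g) + 2) ≤ 2 * (S * (n + g + 2)) := by nlinarith
          calc 2 * S + (2 * (n + g) + 2) ≤ 2 * (S * (n + g + 2)) := e5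
            _ ≤ 2 * (S * ((g + 1) * (n + 2))) := Nat.mul_le_mul_left _ e4
            _ = S * (g + 1) * (2 * (n + 2)) := by ring
      _ ≤ S * 2 ^ g * 2 ^ (6 * l) := Nat.mul_le_mul (Nat.mul_le_mul_left _ hg) hn2
  obtain ⟨m, hm⟩ : ∃ m, m = 12000 * d ^ 2 := ⟨_, rfl⟩
  have h4m : 240000 * d ^ 2 = 20 * m := by rw [hm]; ring
  rw [h4m] at h1 ⊢
  rw [← hm] at h
  have hpos : 1 ≤ 2 ^ g * S := Nat.mul_pos (Nat.pow_pos (by norm_num)) hS
  have h4 : 2 ^ g * (2 * S + (2 * (n + g) + 2)) ≤ (2 ^ g * S) ^ 2 * 2 ^ (6 * l) := by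
    calc 2 ^ g * (2 * S + (2 * (n + g) + 2)) ≤ 2 ^ g * (S * 2 ^ g * 2 ^ (6 * l)) :=
          Nat.mul_le_mul_left _ h3
      _ = 2 ^ g * 2 ^ g * S * 2 ^ (6 * l) := by ring
      _ ≤ 2 ^ g * 2 ^ g * (S * S) * 2 ^ (6 * l) := by
          apply Nat.mul_le_mul_right
          apply Nat.mul_le_mul_left
          exact Nat.le_mul_of_pos_left _ hS
      _ = (2 ^ g * S) ^ 2 * 2 ^ (6 * l) := by ring
  have h5 : 2 ^ (t * l) ≤ (2 ^ g * S) ^ (2 * m) * 2 ^ (6 * l * m) := by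
    calc 2 ^ (t * l) ≤ (2 ^ g * (2 * S + (2 * (n + g) + 2))) ^ m := h
      _ ≤ ((2 ^ g * S) ^ 2 * 2 ^ (6 * l)) ^ m := Nat.pow_le_pow_left h4 m
      _ = (2 ^ g * S) ^ (2 * m) * 2 ^ (6 * l * m) := by rw [mul_pow, ← pow_mul, ← pow_mul]
  have h6 : (2 ^ (6 * l * m)) ^ 2 ≤ 2 ^ (t * l) := by
    rw [← pow_mul]
    apply Nat.pow_le_pow_right (by norm_num)
    calc 6 * l * m * 2 = 12 * m * l := by ring
      _ ≤ t * l := Nat.mul_le_mul_right _ (by omega)
  have h7 : 2 ^ (t * l) * 2 ^ (t * l) ≤ 2 ^ (t * l) * (2 ^ g * S) ^ (4 * m) := by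
    calc 2 ^ (t * l) * 2 ^ (t * l) = (2 ^ (t * l)) ^ 2 := by ring
      _ ≤ ((2 ^ g * S) ^ (2 * m) * 2 ^ (6 * l * m)) ^ 2 := Nat.pow_le_pow_left h5 2
      _ = (2 ^ (6 * l * m)) ^ 2 * (2 ^ g * S) ^ (4 * m) := by ring
      _ ≤ 2 ^ (t * l) * (2 ^ g * S) ^ (4 * m) := Nat.mul_le_mul_right _ h6
  exact (Nat.le_of_mul_le_mul_left h7 (Nat.pow_pos (by norm_num))).trans
    (Nat.pow_le_pow_right hpos (by omega))

theorem Explicit_lower (d t l : ℕ) (h1 : 240000 * d ^ 2 ≤ t)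
    (h2 : (240000 * d * t) ^ (240000 * d) ≤ 2 ^ l) (S g : ℕ)
    (h : Guess S d g (Csp t l)) : 2 ^ (t * l) ≤ (2 ^ g * S) ^ (240000 * d ^ 2) := by
  rcases Nat.eq_zero_or_pos d with hd | hd
  · subst hd
    exact (Result_zero h).elim
  have hS : 1 ≤ S := h.pos
  have ht : 1 ≤ t := by nlinarith
  have hdt : 1 ≤ d * t := Nat.mul_pos hd ht
  have h1' : 12000 * d ^ 2 ≤ t := le_trans (Nat.mul_le_mul_right _ (by norm_num)) h1
  have h2' : (12000 * d * t) ^ (12000 * d) ≤ 2 ^ l := by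
    refine le_trans ?_ h2
    calc (12000 * d * t) ^ (12000 * d) ≤ (240000 * d * t) ^ (12000 * d) := by
          apply Nat.pow_le_pow_left
          rw [mul_assoc, mul_assoc]
          exact Nat.mul_le_mul_right _ (by norm_num)
      _ ≤ (240000 * d * t) ^ (240000 * d) := by
          apply Nat.pow_le_pow_right
          · rw [mul_assoc]
            exact Nat.mul_pos (by norm_num) hdt
          · exact Nat.mul_le_mul_right _ (by norm_num)
  have htl : t * t ≤ 2 ^ l := by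
    refine le_trans ?_ h2'
    calc t * t = t ^ 2 := (pow_two t).symm
      _ ≤ (12000 * d * t) ^ 2 := by
          apply Nat.pow_le_pow_left
          exact Nat.le_mul_of_pos_left _ (by positivity)
      _ ≤ (12000 * d * t) ^ (12000 * d) := by
          apply Nat.pow_le_pow_right _ (by nlinarith)
          rw [mul_assoc]
          exact Nat.mul_pos (by norm_num) hdt
  have hl : 4 ≤ l := by
    by_contra hc
    have h3 : 2 ^ l ≤ 2 ^ 3 := Nat.pow_le_pow_right (by norm_num) (by omega)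
    have h4 : t ≤ t * t := Nat.le_mul_of_pos_left _ ht
    have h5 : 1 ≤ d ^ 2 := Nat.one_le_pow _ _ hd
    omega
  have h3 := Explicit_level d t l hd h1' h2' _ g h.guessComputes
  rw [Explicit_card] at h3
  exact Explicit_num2 d t l S g hS ht htl hl h1 h3

end Pool.Agent.ACG
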