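import Pool.Agent.ACG.Explicit

/-! Project ACG: the explicit problem is easy with enough guesses. -/

set_option autoImplicit false

namespace Pool.Agent.ACG

open Finset Classical

/-- Circuits of depth three: AND of ORs of literals and ANDs of literals. -/
theorem ExplicitUp_three {U K I : Type} [Fintype K] [Fintype I] (A : I → Finset (Fn U))
    (hA : ∀ i, ∀ h ∈ A i, IsLit h) (L : K → Finset (Fn U)) (hL : ∀ k, ∀ h ∈ L k, IsLit h)
    (J : K → Finset I) (f : Fn U) (S : ℕ)
    (hS : Fintype.card I + Fintype.card K + 1 ≤ S)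
    (hf : ∀ x, f x = true ↔ ∀ k, (∃ h ∈ L k, h x = true) ∨
      ∃ i ∈ J k, ∀ h ∈ A i, h x = true) : Circuit S 3 f := by
  obtain ⟨a, ha⟩ : ∃ a : I → Fn U, a = fun i x => decide (∀ h ∈ A i, h x = true) := ⟨_, rfl⟩
  obtain ⟨c, hc⟩ : ∃ c : K → Fn U, c = fun k x => decide ((∃ h ∈ L k, h x = true) ∨
    ∃ i ∈ J k, ∀ h ∈ A i, h x = true) := ⟨_, rfl⟩
  have hax : ∀ i x, a i x = true ↔ ∀ h ∈ A i, h x = true := by
    intro i x
    rw [ha]
    simp
  have hcx : ∀ k x, c k x = true ↔ ((∃ h ∈ L k, h x = true) ∨
      ∃ i ∈ J k, ∀ h ∈ A i, h x = true) := by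
    intro k x
    rw [hc]
    simp
  obtain ⟨lev, hlev⟩ : ∃ lev : Fn U → ℕ, lev = fun g =>
    if g ∈ univ.image a then 0 else if g ∈ univ.image c then 1 else 2 := ⟨_, rfl⟩
  refine ⟨insert f (univ.image a ∪ univ.image c), lev, ?_, Finset.mem_insert_self _ _, ?_⟩
  · refine (Finset.card_insert_le _ _).trans ?_
    have h1 : (univ.image a).card ≤ Fintype.card I :=
      Finset.card_image_le.trans (by rw [Finset.card_univ])
    have h2 : (univ.image c).card ≤ Fintype.card K :=
      Finset.card_image_le.trans (by rw [Finset.card_univ])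
    have h3 := Finset.card_union_le (univ.image a) (univ.image c)
    omega
  · intro g hg
    refine ⟨by rw [hlev]; dsimp only; split_ifs <;> omega, ?_⟩
    by_cases hga : g ∈ univ.image a
    · have hga' := hga
      rw [Finset.mem_image] at hga'
      obtain ⟨i, -, rfl⟩ := hga'
      exact ⟨A i, fun h hh => Or.inl (hA i h hh), Or.inr (hax i)⟩
    · by_cases hgc : g ∈ univ.image c
      · have hgc' := hgc
        rw [Finset.mem_image] at hgc'
        obtain ⟨k, -, rfl⟩ := hgc'
        refine ⟨L k ∪ (J k).image a, ?_, Or.inl ?_⟩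
        · intro h hh
          rw [Finset.mem_union] at hh
          rcases hh with hh | hh
          · exact Or.inl (hL k h hh)
          · right
            have hha : h ∈ univ.image a :=
              Finset.image_subset_image (Finset.subset_univ _) hh
            refine ⟨h, Finset.mem_insert_of_mem (Finset.mem_union_left _ hha), ?_, Or.inl rfl⟩
            rw [hlev]
            show (if h ∈ univ.image a then 0 else if h ∈ univ.image c then 1 else 2) <
              if c k ∈ univ.image a then 0 else if c k ∈ univ.image c then 1 else 2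
            rw [if_pos hha, if_neg hga, if_pos hgc]
            norm_num
        · intro x
          rw [hcx]
          constructor
          · rintro (⟨h, hh, hx⟩ | ⟨i, hi, hx⟩)
            · exact ⟨h, Finset.mem_union_left _ hh, hx⟩
            · exact ⟨a i, Finset.mem_union_right _ (Finset.mem_image_of_mem _ hi), (hax i x).2 hx⟩
          · rintro ⟨h, hh, hx⟩
            rw [Finset.mem_union, Finset.mem_image] at hh
            rcases hh with hh | ⟨i, hi, rfl⟩
            · exact Or.inl ⟨h, hh, hx⟩
            · exact Or.inr ⟨i, hi, (hax i x).1 hx⟩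
      · have hgf : g = f := by
          rw [Finset.mem_insert, Finset.mem_union] at hg
          rcases hg with h | h | h
          · exact h
          · exact absurd h hga
          · exact absurd h hgc
        subst hgf
        refine ⟨univ.image c, ?_, Or.inr ?_⟩
        · intro h hh
          right
          refine ⟨h, Finset.mem_insert_of_mem (Finset.mem_union_right _ hh), ?_, Or.inl rfl⟩
          rw [hlev]
          show (if h ∈ univ.image a then 0 else if h ∈ univ.image c then 1 else 2) <
            if g ∈ univ.image a then 0 else if g ∈ univ.image c then 1 else 2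
          rw [if_neg hga, if_neg hgc, if_pos hh]
          split_ifs <;> norm_num
        · intro x
          rw [hf]
          constructor
          · intro h1 h hh
            rw [Finset.mem_image] at hh
            obtain ⟨k, -, rfl⟩ := hh
            exact (hcx k x).2 (h1 k)
          · intro h1 k
            exact (hcx k x).1 (h1 _ (Finset.mem_image_of_mem _ (Finset.mem_univ k)))

theorem Explicit_upper (t l : ℕ) :
    Guess (21 * t ^ 2 * 8 ^ l + 1) 3 (t * l) (Csp t l) := by
  have E : (Fin l → Bool) ≃ Fin (2 ^ l) := Fintype.equivFinOfCardEq (by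
    rw [Fintype.card_fun, Fintype.card_bool, Fintype.card_fin])
  obtain ⟨A, hAd⟩ : ∃ A : (Fin (3 * t) × Fin 3 × Fin t) × Fin l × Bool →
      Finset (Fn (Ins t l ⊕ Fin (t * l))), A = fun p =>
        {fun w => w (Sum.inl (Sum.inl p.1)),
          fun w => w (Sum.inr (finProdFinEquiv (p.1.2.2, p.2.1))) == p.2.2} := ⟨_, rfl⟩
  obtain ⟨L, hLd⟩ : ∃ L : Fin (3 * t) × (Fin 3 → Fin (2 ^ l)) →
      Finset (Fn (Ins t l ⊕ Fin (t * l))), L = fun p =>
        {fun w => w (Sum.inl (Sum.inr p))} := ⟨_, rfl⟩
  obtain ⟨J, hJd⟩ : ∃ J : Fin (3 * t) × (Fin 3 → Fin (2 ^ l)) →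
      Finset ((Fin (3 * t) × Fin 3 × Fin t) × Fin l × Bool), J = fun p =>
        univ.image fun s : Fin 3 × Fin t × Fin l =>
          ((p.1, s.1, s.2.1), s.2.2, !(E.symm (p.2 s.1) s.2.2)) := ⟨_, rfl⟩
  obtain ⟨c, hc⟩ : ∃ c : Fn (Ins t l ⊕ Fin (t * l)), c = fun w => decide (∀ k,
    (∃ h ∈ L k, h w = true) ∨ ∃ i ∈ J k, ∀ h ∈ A i, h w = true) := ⟨_, rfl⟩
  refine ⟨c, ?_, ?_⟩
  · apply ExplicitUp_three A ?_ L ?_ J
    · simp only [Fintype.card_prod, Fintype.card_fin, Fintype.card_bool, Fintype.card_fun]
      have h1 : l ≤ 8 ^ l := (Nat.lt_pow_self (by norm_num)).le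
      have h2 : (2 ^ l) ^ 3 = 8 ^ l := by
        rw [← pow_mul, mul_comm, pow_mul]
        norm_num
      have h3 : t ≤ t ^ 2 := by
        rcases Nat.eq_zero_or_pos t with h | h
        · subst h; norm_num
        · nlinarith
      rw [h2]
      have h4 : 3 * t * (3 * t) * (l * 2) ≤ 18 * t ^ 2 * 8 ^ l := by
        calc 3 * t * (3 * t) * (l * 2) = 18 * t ^ 2 * l := by ring
          _ ≤ 18 * t ^ 2 * 8 ^ l := Nat.mul_le_mul_left _ h1
      have h5 : 3 * t * 8 ^ l ≤ 3 * t ^ 2 * 8 ^ l :=
        Nat.mul_le_mul_right _ (Nat.mul_le_mul_left _ h3)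
      have h6 : 21 * t ^ 2 * 8 ^ l = 18 * t ^ 2 * 8 ^ l + 3 * t ^ 2 * 8 ^ l := by ring
      omega
    · intro x
      rw [hc]
      simp
    · intro p h hh
      rw [hAd, Finset.mem_insert, Finset.mem_singleton] at hh
      rcases hh with rfl | rfl
      · exact Or.inr (Or.inl ⟨_, fun x => rfl⟩)
      · obtain ⟨p1, p2, b⟩ := p
        cases b
        · exact Or.inr (Or.inr ⟨Sum.inr (finProdFinEquiv (p1.2.2, p2)), fun x => by simp⟩)
        · exact Or.inr (Or.inl ⟨Sum.inr (finProdFinEquiv (p1.2.2, p2)), fun x => by simp⟩)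
    · intro p h hh
      rw [hLd, Finset.mem_singleton] at hh
      subst hh
      exact Or.inr (Or.inl ⟨_, fun x => rfl⟩)
  · intro x
    have key : ∀ y : Fin (t * l) → Bool, c (Sum.elim x y) = true ↔ ∀ j z,
        (∀ i v, x (Sum.inl (j, i, v)) = true → (E fun b => y (finProdFinEquiv (v, b))) = z i) →
          x (Sum.inr (j, z)) = true := by
      intro y
      rw [hc, decide_eq_true_eq]
      constructor
      · intro h j z hz
        rcases h (j, z) with ⟨h', hh', hx⟩ | ⟨p, hp, hx⟩
        · rw [hLd, Finset.mem_singleton] at hh'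
          subst hh'
          exact hx
        · exfalso
          rw [hJd, Finset.mem_image] at hp
          obtain ⟨⟨i, v, b⟩, -, rfl⟩ := hp
          have h1 := hx (fun w => w (Sum.inl (Sum.inl (j, i, v)))) (by
            rw [hAd]
            exact Finset.mem_insert_self _ _)
          have h2 := hx (fun w => w (Sum.inr (finProdFinEquiv (v, b))) ==
            !(E.symm (z i) b)) (by
            rw [hAd]
            exact Finset.mem_insert_of_mem (Finset.mem_singleton_self _))
          have h3 := hz i v h1
          rw [← h3, Equiv.symm_apply_apply] at h2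
          simp only [Sum.elim_inr] at h2
          revert h2
          cases y (finProdFinEquiv (v, b)) <;> simp
      · rintro h ⟨j, z⟩
        by_cases hz : ∀ i v, x (Sum.inl (j, i, v)) = true →
            (E fun b => y (finProdFinEquiv (v, b))) = z i
        · left
          refine ⟨_, by rw [hLd]; exact Finset.mem_singleton_self _, ?_⟩
          exact h j z hz
        · right
          push Not at hz
          obtain ⟨i, v, hx, hne⟩ := hz
          have h1 : (fun b => y (finProdFinEquiv (v, b))) ≠ E.symm (z i) := by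
            intro hcn
            apply hne
            rw [hcn, Equiv.apply_symm_apply]
          obtain ⟨b, hb⟩ := Function.ne_iff.1 h1
          refine ⟨((j, i, v), b, !(E.symm (z i) b)), ?_, ?_⟩
          · rw [hJd]
            exact Finset.mem_image_of_mem (fun s : Fin 3 × Fin t × Fin l =>
              ((j, s.1, s.2.1), s.2.2, !(E.symm (z s.1) s.2.2))) (Finset.mem_univ (i, v, b))
          · intro h' hh'
            rw [hAd, Finset.mem_insert, Finset.mem_singleton] at hh'
            rcases hh' with rfl | rfl
            · exact hx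
            · show (y (finProdFinEquiv (v, b)) == !(E.symm (z i) b)) = true
              revert hb
              cases y (finProdFinEquiv (v, b)) <;> cases E.symm (z i) b <;> simp
    rw [Csp, decide_eq_true_eq]
    simp only [key]
    constructor
    · rintro ⟨Y, hY⟩
      refine ⟨fun i => E.symm (Y (finProdFinEquiv.symm i).1) (finProdFinEquiv.symm i).2, ?_⟩
      intro j z
      simp only [Equiv.symm_apply_apply, Equiv.apply_symm_apply]
      exact hY j z
    · rintro ⟨y, hy⟩
      exact ⟨fun v => E fun b => y (finProdFinEquiv (v, b)), hy⟩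

end Pool.Agent.ACG
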