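import Pool.Agent.ACG.Main
import Pool.Agent.ACG.Conv

/-! Project ACG: the final theorems for general circuits. -/

set_option autoImplicit false

namespace Pool.Agent.ACG

open Finset Classical

/-- A CNF with `m` clauses is a circuit with `m + 1` gates and depth two. -/
theorem Final_cnf {U K : Type} [Fintype K] (L : K → Finset (Fn U))
    (hL : ∀ k, ∀ h ∈ L k, IsLit h) (f : Fn U) (m : ℕ) (hm : Fintype.card K ≤ m)
    (hf : ∀ x, f x = true ↔ ∀ k, ∃ h ∈ L k, h x = true) : Circuit (m + 1) 2 f := by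
  obtain ⟨cl, hcl⟩ : ∃ cl : K → Fn U, cl = fun k x => decide (∃ h ∈ L k, h x = true) := ⟨_, rfl⟩
  have hclx : ∀ k x, cl k x = true ↔ ∃ h ∈ L k, h x = true := by
    intro k x
    rw [hcl]
    simp
  refine ⟨insert f (univ.image cl), fun g => if g = f then 1 else 0, ?_,
    Finset.mem_insert_self _ _, ?_⟩
  · refine (Finset.card_insert_le _ _).trans ?_
    have : (univ.image cl).card ≤ m := by
      refine Finset.card_image_le.trans ?_
      rw [Finset.card_univ]
      exact hm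
    omega
  · intro g hg
    refine ⟨by dsimp only; split_ifs <;> omega, ?_⟩
    by_cases hgc : g ∈ univ.image cl
    · rw [Finset.mem_image] at hgc
      obtain ⟨k, -, rfl⟩ := hgc
      exact ⟨L k, fun h hh => Or.inl (hL k h hh), Or.inl (hclx k)⟩
    · have hgf : g = f := by
        rw [Finset.mem_insert] at hg
        rcases hg with h | h
        · exact h
        · exact absurd h hgc
      subst hgf
      refine ⟨univ.image cl, ?_, Or.inr ?_⟩
      · intro h hh
        right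
        refine ⟨h, Finset.mem_insert_of_mem hh, ?_, Or.inl rfl⟩
        have hne : h ≠ g := by
          rintro rfl
          exact hgc hh
        show (if h = g then 1 else 0) < if g = g then 1 else 0
        rw [if_neg hne, if_pos rfl]
        norm_num
      · intro x
        rw [hf]
        constructor
        · intro h1 h hh
          rw [Finset.mem_image] at hh
          obtain ⟨k, -, rfl⟩ := hh
          exact (hclx k x).2 (h1 k)
        · intro h1 k
          exact (hclx k x).1 (h1 _ (Finset.mem_image_of_mem _ (Finset.mem_univ k)))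

theorem Final_const (n g : ℕ) : Guess (n + 1) 2 g (fun _ : Fin n → Bool => false) := by
  refine ⟨fun _ => false, ⟨{fun _ => false}, fun _ => 0, by simp, by simp, ?_⟩,
    fun x => by simp⟩
  intro g' hg'
  rw [Finset.mem_singleton] at hg'
  subst hg'
  exact ⟨by norm_num, ∅, by simp, Or.inl (by simp)⟩

theorem Final_upper (n G l t : ℕ) (N : Fin (3 * t) → Fin 3 → Fin t) (emb : Vr t (2 ^ l) ↪ Fin n)
    (hG : t * l ≤ G) : Guess (n + 1) 2 G (fun x : Fin n → Bool => csp N fun e => x (emb e)) := by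
  have E : (Fin l → Bool) ≃ Fin (2 ^ l) := Fintype.equivFinOfCardEq (by
    rw [Fintype.card_fun, Fintype.card_bool, Fintype.card_fin])
  obtain ⟨L, hL⟩ : ∃ L : Vr t (2 ^ l) → Finset (Fn (Fin n ⊕ Fin G)),
      L = fun e => {fun w => w (Sum.inl (emb e))} ∪ univ.image fun (p : Fin 3 × Fin l)
        (w : Fin n ⊕ Fin G → Bool) =>
          w (Sum.inr (Fin.castLE hG (finProdFinEquiv (N e.1 p.1, p.2)))) ==
            !(E.symm (e.2 p.1) p.2) := ⟨_, rfl⟩
  have hLx : ∀ e (x : Fin n → Bool) (y : Fin G → Bool),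
      (∃ h ∈ L e, h (Sum.elim x y) = true) ↔
        Up_clause N E e (Sum.elim (fun e => x (emb e)) fun i => y (Fin.castLE hG i)) = true := by
    intro e x y
    simp only [Up_clause, Up_lit, Bool.or_eq_true, decide_eq_true_eq, Sum.elim_inl, Sum.elim_inr]
    rw [hL]
    constructor
    · rintro ⟨h, hh, hx⟩
      rw [Finset.mem_union, Finset.mem_singleton, Finset.mem_image] at hh
      rcases hh with rfl | ⟨p, -, rfl⟩
      · exact Or.inl hx
      · exact Or.inr ⟨p, hx⟩
    · rintro (h | ⟨p, h⟩)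
      · exact ⟨_, Finset.mem_union_left _ (Finset.mem_singleton_self _), h⟩
      · exact ⟨_, Finset.mem_union_right _ (Finset.mem_image_of_mem _ (Finset.mem_univ p)), h⟩
  refine ⟨fun w => decide (∀ e, ∃ h ∈ L e, h w = true), ?_, ?_⟩
  · apply Final_cnf L _ _ n
    · rw [← Fintype.card_fin n]
      exact Fintype.card_le_of_injective _ emb.injective
    · intro x
      simp
    · intro e h hh
      rw [hL, Finset.mem_union, Finset.mem_singleton, Finset.mem_image] at hh
      rcases hh with rfl | ⟨p, -, rfl⟩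
      · exact Or.inr (Or.inl ⟨_, fun x => rfl⟩)
      · cases hb : !(E.symm (e.2 p.1) p.2)
        · exact Or.inr (Or.inr ⟨Sum.inr (Fin.castLE hG (finProdFinEquiv (N e.1 p.1, p.2))),
            fun x => by simp⟩)
        · exact Or.inr (Or.inl ⟨Sum.inr (Fin.castLE hG (finProdFinEquiv (N e.1 p.1, p.2))),
            fun x => by simp⟩)
  · intro x
    show csp N (fun e => x (emb e)) = true ↔ _
    rw [csp, decide_eq_true_eq]
    simp only [decide_eq_true_eq, hLx, Up_clause_iff]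
    constructor
    · rintro ⟨Y, hY⟩
      refine ⟨fun i => if hi : (i : ℕ) < t * l then
        E.symm (Y (finProdFinEquiv.symm (⟨i, hi⟩ : Fin (t * l))).1)
          (finProdFinEquiv.symm (⟨i, hi⟩ : Fin (t * l))).2 else false, ?_⟩
      intro j
      have h1 : ∀ i b, (fun i : Fin G => if hi : (i : ℕ) < t * l then
        E.symm (Y (finProdFinEquiv.symm (⟨i, hi⟩ : Fin (t * l))).1)
          (finProdFinEquiv.symm (⟨i, hi⟩ : Fin (t * l))).2 else false)
          (Fin.castLE hG (finProdFinEquiv (N j i, b))) = E.symm (Y (N j i)) b := by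
        intro i b
        have h2 : ((Fin.castLE hG (finProdFinEquiv (N j i, b)) : Fin G) : ℕ) < t * l :=
          (finProdFinEquiv (N j i, b)).2
        dsimp only
        rw [dif_pos h2]
        have h3 : (⟨((Fin.castLE hG (finProdFinEquiv (N j i, b)) : Fin G) : ℕ), h2⟩ :
            Fin (t * l)) = finProdFinEquiv (N j i, b) := Fin.ext rfl
        rw [h3, Equiv.symm_apply_apply]
      simp only [h1, Equiv.apply_symm_apply]
      exact hY j
    · rintro ⟨y, hy⟩
      exact ⟨fun v => E fun b => y (Fin.castLE hG (finProdFinEquiv (v, b))), hy⟩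

theorem Final_exists (n G : ℕ) : ∃ f : Fn (Fin n), Guess (n + 1) 2 G f ∧
    (3 * (G / (Nat.log 2 n / 4)) * (2 ^ (Nat.log 2 n / 4)) ^ 3 ≤ n →
      ∃ N : Fin (3 * (G / (Nat.log 2 n / 4))) → Fin 3 → Fin (G / (Nat.log 2 n / 4)), Expands N ∧
        ∀ S d g, GuessComputes S d g f →
          GuessComputes S d g (csp (q := 2 ^ (Nat.log 2 n / 4)) N)) := by
  generalize Nat.log 2 n / 4 = l
  by_cases hfit : 3 * (G / l) * (2 ^ l) ^ 3 ≤ n
  · obtain ⟨N, hN⟩ := expander (G / l)
    have hc : Fintype.card (Vr (G / l) (2 ^ l)) ≤ Fintype.card (Fin n) := by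
      have : Fintype.card (Vr (G / l) (2 ^ l)) = 3 * (G / l) * (2 ^ l) ^ 3 := by
        simp [Vr, Fintype.card_prod, Fintype.card_fin]
      rw [this, Fintype.card_fin]
      exact hfit
    obtain ⟨emb⟩ := Function.Embedding.nonempty_of_card_le hc
    refine ⟨fun x => csp N (fun e => x (emb e)), ?_, fun _ => ⟨N, hN, ?_⟩⟩
    · exact Final_upper n G l (G / l) N emb (Nat.div_mul_le_self _ _)
    · intro S d g h
      have h1 := h.subst (U := Vr (G / l) (2 ^ l)) (fun i =>
        if h : ∃ e, emb e = i then Sum.inl h.choose else Sum.inr false)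
      have e : (fun x : Vr (G / l) (2 ^ l) → Bool => csp N (fun e => Sum.elim x id
          ((fun i => if h : ∃ e, emb e = i then Sum.inl h.choose else Sum.inr false)
            (emb e)))) = csp N := by
        funext x
        congr 1
        funext e
        have hex : ∃ e', emb e' = emb e := ⟨e, rfl⟩
        have : hex.choose = e := emb.injective hex.choose_spec
        simp only [dif_pos hex, Sum.elim_inl, this]
      rw [← e]
      exact h1
  · exact ⟨fun _ => false, Final_const n G, fun h => absurd h hfit⟩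

/-- The lower bound for levelled circuits. -/
theorem Final_lower (n G : ℕ) (f : Fn (Fin n))
    (hf : 3 * (G / (Nat.log 2 n / 4)) * (2 ^ (Nat.log 2 n / 4)) ^ 3 ≤ n →
      ∃ N : Fin (3 * (G / (Nat.log 2 n / 4))) → Fin 3 → Fin (G / (Nat.log 2 n / 4)), Expands N ∧
        ∀ S d g, GuessComputes S d g f →
          GuessComputes S d g (csp (q := 2 ^ (Nat.log 2 n / 4)) N))
    (d : ℕ) (hd : 1 ≤ d) (hG : 1 ≤ G)
    (h1 : 12000 * d ^ 2 * Nat.log 2 n ≤ G) (h2 : (12000 * d * G) ^ (12000 * d) ≤ n)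
    (S g : ℕ) (hcomp : GuessComputes S d g f) : 2 ^ G ≤ (2 ^ g * S) ^ (12000 * d ^ 2) := by
  have hpos : 1 ≤ 2 ^ g * S := hcomp.computes.pos
  obtain ⟨hl, hfit, hkey, ht⟩ := Main_num n d G hd hG h1 h2
  obtain ⟨N, hN, hred⟩ := hf hfit
  have hcsp := (hred S d g hcomp).computes
  obtain ⟨l, hld⟩ : ∃ l, l = Nat.log 2 n / 4 := ⟨_, rfl⟩
  clear hf
  revert N
  rw [← hld] at hl hkey ht ⊢
  intro N hN _ hcsp
  obtain ⟨t, htd⟩ : ∃ t, t = G / l := ⟨_, rfl⟩
  rw [← htd] at ht
  have htG : t ≤ G := by rw [htd]; exact Nat.div_le_self _ _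
  have ht1 : 1 ≤ t := by omega
  obtain ⟨r, hrd⟩ : ∃ r, r = t / (60 * (d + 2)) := ⟨_, rfl⟩
  have hr1 : 1 ≤ r := by
    rw [hrd, Nat.le_div_iff_mul_le (by omega)]
    omega
  have hrt : r * (60 * (d + 2)) ≤ t := by rw [hrd]; exact Nat.div_mul_le_self _ _
  have hrt' : t < 60 * (d + 2) * (r + 1) := by
    rw [hrd]; exact Nat.lt_mul_div_succ _ (by omega)
  have hGt : G < l * (t + 1) := by
    rw [htd]; exact Nat.lt_mul_div_succ _ hl
  have hq : (800 * (d + 1) * t) ^ (16 * (d + 1)) ≤ 2 ^ l := by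
    refine le_trans ?_ hkey
    calc (800 * (d + 1) * t) ^ (16 * (d + 1)) ≤ (1600 * d * G) ^ (16 * (d + 1)) := by
          apply Nat.pow_le_pow_left
          apply Nat.mul_le_mul _ htG
          omega
      _ ≤ (1600 * d * G) ^ (32 * d) := by
          apply Nat.pow_le_pow_right _ (by omega)
          have : 1 ≤ d * G := Nat.mul_pos hd hG
          nlinarith
  subst htd
  have hlow := csp_lower (d + 1) (G / l) (2 ^ l) r (by omega) ht1 hr1 (by
    calc 60 * ((d + 1 + 1) * r) = r * (60 * (d + 2)) := by ring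
      _ ≤ G / l := hrt) hq N hN (2 ^ g * S) hcsp
  have hM : G ≤ l * r * (120 * (d + 2)) := by
    have h3 : G / l + 1 ≤ 120 * (d + 2) * r := by nlinarith
    calc G ≤ l * (G / l + 1) := hGt.le
      _ ≤ l * (120 * (d + 2) * r) := Nat.mul_le_mul_left _ h3
      _ = l * r * (120 * (d + 2)) := by ring
  calc 2 ^ G ≤ 2 ^ (l * r * (120 * (d + 2))) := Nat.pow_le_pow_right (by norm_num) hM
    _ = ((2 ^ l) ^ r) ^ (120 * (d + 2)) := by rw [← pow_mul, ← pow_mul]; congr 1; ring
    _ ≤ ((2 ^ g * S) ^ (16 * (d + 1))) ^ (120 * (d + 2)) := Nat.pow_le_pow_left hlow.le _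
    _ = (2 ^ g * S) ^ (16 * (d + 1) * (120 * (d + 2))) := by rw [← pow_mul]
    _ ≤ (2 ^ g * S) ^ (12000 * d ^ 2) := by
        apply Nat.pow_le_pow_right hpos
        nlinarith

/-- Arithmetic: from levelled circuits to general circuits. -/
theorem Final_num (n d G S g : ℕ) (hS : 1 ≤ S) (hL : 3 ≤ Nat.log 2 n)
    (h1 : 48000 * d ^ 2 * Nat.log 2 n ≤ G)
    (h : 2 ^ G ≤ (2 ^ g * (2 * S + (2 * (n + g) + 2))) ^ (12000 * d ^ 2)) :
    2 ^ G ≤ (2 ^ g * S) ^ (48000 * d ^ 2) := by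
  obtain ⟨L, hLd⟩ : ∃ L, L = Nat.log 2 n := ⟨_, rfl⟩
  have hlt : n < 2 ^ (L + 1) := by rw [hLd]; exact Nat.lt_pow_succ_log_self (by norm_num) n
  rw [← hLd] at h1 hL
  have hg : g + 1 ≤ 2 ^ g := Nat.lt_two_pow_self
  have hn2 : 2 * (n + 2) ≤ 2 ^ (2 * L) := by
    calc 2 * (n + 2) ≤ 2 * (2 ^ (L + 1) + 2 ^ (L + 1)) := by
          have : 2 ^ 1 ≤ 2 ^ (L + 1) := Nat.pow_le_pow_right (by norm_num) (by omega)
          omega
      _ = 2 ^ (L + 3) := by ring
      _ ≤ 2 ^ (2 * L) := Nat.pow_le_pow_right (by norm_num) (by omega)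
  have h3 : 2 * S + (2 * (n + g) + 2) ≤ S * 2 ^ g * 2 ^ (2 * L) := by
    calc 2 * S + (2 * (n + g) + 2) ≤ S * (g + 1) * (2 * (n + 2)) := by
          have e1 : n + g + 2 ≤ (g + 1) * (n + 2) := by nlinarith
          have e2 : (g + 1) * (n + 2) ≤ S * ((g + 1) * (n + 2)) := Nat.le_mul_of_pos_left _ hS
          nlinarith
      _ ≤ S * 2 ^ g * 2 ^ (2 * L) := Nat.mul_le_mul (Nat.mul_le_mul_left _ hg) hn2
  obtain ⟨m, hm⟩ : ∃ m, m = 12000 * d ^ 2 := ⟨_, rfl⟩
  have h4m : 48000 * d ^ 2 = 4 * m := by rw [hm]; ring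
  rw [h4m] at h1 ⊢
  rw [← hm] at h
  have hpos : 1 ≤ 2 ^ g * S := Nat.mul_pos (Nat.pow_pos (by norm_num)) hS
  have h4 : 2 ^ g * (2 * S + (2 * (n + g) + 2)) ≤ (2 ^ g * S) ^ 2 * 2 ^ (2 * L) := by
    calc 2 ^ g * (2 * S + (2 * (n + g) + 2)) ≤ 2 ^ g * (S * 2 ^ g * 2 ^ (2 * L)) :=
          Nat.mul_le_mul_left _ h3
      _ = 2 ^ g * 2 ^ g * S * 2 ^ (2 * L) := by ring
      _ ≤ 2 ^ g * 2 ^ g * (S * S) * 2 ^ (2 * L) := by
          apply Nat.mul_le_mul_right
          apply Nat.mul_le_mul_left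
          exact Nat.le_mul_of_pos_left _ hS
      _ = (2 ^ g * S) ^ 2 * 2 ^ (2 * L) := by ring
  have h5 : 2 ^ G ≤ (2 ^ g * S) ^ (2 * m) * 2 ^ (2 * L * m) := by
    calc 2 ^ G ≤ (2 ^ g * (2 * S + (2 * (n + g) + 2))) ^ m := h
      _ ≤ ((2 ^ g * S) ^ 2 * 2 ^ (2 * L)) ^ m := Nat.pow_le_pow_left h4 m
      _ = (2 ^ g * S) ^ (2 * m) * 2 ^ (2 * L * m) := by rw [mul_pow, ← pow_mul, ← pow_mul]
  have h6 : (2 ^ (2 * L * m)) ^ 2 ≤ 2 ^ G := by
    rw [← pow_mul]
    apply Nat.pow_le_pow_right (by norm_num)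
    calc 2 * L * m * 2 = 4 * m * L := by ring
      _ ≤ G := h1
  have h7 : 2 ^ G * 2 ^ G ≤ 2 ^ G * (2 ^ g * S) ^ (4 * m) := by
    calc 2 ^ G * 2 ^ G = (2 ^ G) ^ 2 := by ring
      _ ≤ ((2 ^ g * S) ^ (2 * m) * 2 ^ (2 * L * m)) ^ 2 := Nat.pow_le_pow_left h5 2
      _ = (2 ^ (2 * L * m)) ^ 2 * (2 ^ g * S) ^ (4 * m) := by ring
      _ ≤ 2 ^ G * (2 ^ g * S) ^ (4 * m) := Nat.mul_le_mul_right _ h6
  exact Nat.le_of_mul_le_mul_left h7 (Nat.pow_pos (by norm_num))

end Pool.Agent.ACG
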