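import Pool.Agent.ACG.ExplicitUp

/-! Project ACG: the hierarchy theorem for the explicit problem. -/

set_option autoImplicit false

namespace Pool.Agent.ACG

open Finset Filter

/-- Renaming of variables. -/
theorem Hierarchy_rename {U V : Type} (ι : U → V) (hι : Function.Injective ι) {S d : ℕ} {f : Fn U}
    (h : Circuit S d f) : Circuit S d (fun w : V → Bool => f (fun e => w (ι e))) := by
  classical
  obtain ⟨G, lev, hS, hf, hG⟩ := h
  obtain ⟨Φ, hΦ⟩ : ∃ Φ : Fn U → Fn V, Φ = fun c w => c (fun e => w (ι e)) := ⟨_, rfl⟩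
  have hΦx : ∀ c w, Φ c w = c (fun e => w (ι e)) := by
    intro c w
    rw [hΦ]
  have hsurj : ∀ x : U → Bool, ∃ w : V → Bool, (fun e => w (ι e)) = x := by
    intro x
    refine ⟨Function.extend ι x (fun _ => false), ?_⟩
    funext e
    exact hι.extend_apply x _ e
  have hinj : Function.Injective Φ := by
    intro c c' hcc
    funext x
    obtain ⟨w, rfl⟩ := hsurj x
    have h1 := congrFun hcc w
    rw [hΦx, hΦx] at h1
    exact h1
  have hlev : ∀ c, lev (Function.invFun Φ (Φ c)) = lev c := by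
    intro c
    rw [Function.leftInverse_invFun hinj c]
  have hfe : (fun w : V → Bool => f (fun e => w (ι e))) = Φ f := by rw [hΦ]
  rw [hfe]
  refine ⟨G.image Φ, fun g => lev (Function.invFun Φ g), Finset.card_image_le.trans hS,
    Finset.mem_image_of_mem _ hf, ?_⟩
  intro g hg
  rw [Finset.mem_image] at hg
  obtain ⟨c, hc, rfl⟩ := hg
  obtain ⟨h1, H, hH, hc'⟩ := hG c hc
  refine ⟨by show lev (Function.invFun Φ (Φ c)) < d; rw [hlev]; exact h1, H.image Φ, ?_, ?_⟩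
  · intro h hh
    rw [Finset.mem_image] at hh
    obtain ⟨h', hh', rfl⟩ := hh
    rcases hH h' hh' with h2 | ⟨g', hg', h3, h4⟩
    · left
      rcases h2 with ⟨b, hb⟩ | ⟨e, he⟩ | ⟨e, he⟩
      · exact Or.inl ⟨b, fun x => by rw [hΦx, hb]⟩
      · exact Or.inr (Or.inl ⟨ι e, fun x => by rw [hΦx, he]⟩)
      · exact Or.inr (Or.inr ⟨ι e, fun x => by rw [hΦx, he]⟩)
    · right
      refine ⟨Φ g', Finset.mem_image_of_mem _ hg', ?_, ?_⟩
      · show lev (Function.invFun Φ (Φ g')) < lev (Function.invFun Φ (Φ c))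
        rw [hlev, hlev]
        exact h3
      rcases h4 with h4 | h4
      · left; rw [h4]
      · right
        funext w
        rw [hΦx, hΦx, h4]
  · rcases hc' with hc' | hc'
    · left
      intro w
      rw [hΦx, hc']
      constructor
      · rintro ⟨h, hh, hx⟩
        exact ⟨Φ h, Finset.mem_image_of_mem _ hh, by rw [hΦx]; exact hx⟩
      · rintro ⟨h, hh, hx⟩
        rw [Finset.mem_image] at hh
        obtain ⟨h', hh', rfl⟩ := hh
        exact ⟨h', hh', by rw [hΦx] at hx; exact hx⟩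
    · right
      intro w
      rw [hΦx, hc']
      constructor
      · intro h1 h hh
        rw [Finset.mem_image] at hh
        obtain ⟨h', hh', rfl⟩ := hh
        rw [hΦx]
        exact h1 h' hh'
      · intro h1 h hh
        have h2 := h1 (Φ h) (Finset.mem_image_of_mem _ hh)
        rw [hΦx] at h2
        exact h2

theorem Circuit.mono {U : Type} {S S' d : ℕ} {f : Fn U} (h : Circuit S d f) (hS : S ≤ S') :
    Circuit S' d f := by
  obtain ⟨G, lev, hS', hf, hG⟩ := h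
  exact ⟨G, lev, hS'.trans hS, hf, hG⟩

theorem Guess.mono {U : Type} {S S' d g g' : ℕ} {f : Fn U} (h : Guess S d g f) (hS : S ≤ S')
    (hg : g ≤ g') : Guess S' d g' f := by
  obtain ⟨c, hc, hf⟩ := h
  have hι : Function.Injective (Sum.map id (Fin.castLE hg) : U ⊕ Fin g → U ⊕ Fin g') :=
    Function.Injective.sumMap Function.injective_id (Fin.castLE_injective hg)
  refine ⟨_, (Hierarchy_rename _ hι hc).mono hS, fun x => ?_⟩
  rw [hf]
  have h2 : ∀ y : Fin g' → Bool, (fun e : U ⊕ Fin g => Sum.elim x y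
      (Sum.map id (Fin.castLE hg) e)) = Sum.elim x (fun i => y (Fin.castLE hg i)) := by
    intro y
    funext e
    rcases e with e | i <;> simp
  simp only [h2]
  constructor
  · rintro ⟨y, hy⟩
    refine ⟨fun j => if hj : (j : ℕ) < g then y ⟨j, hj⟩ else false, ?_⟩
    have h3 : (fun i : Fin g => (fun j : Fin g' => if hj : (j : ℕ) < g then y ⟨j, hj⟩ else false)
        (Fin.castLE hg i)) = y := by
      funext i
      simp
    rw [h3]
    exact hy
  · rintro ⟨y, hy⟩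
    exact ⟨_, hy⟩

theorem Hierarchy_lower (C : ℕ) (hC : 1 ≤ C) (hlow : ∀ d t l S g : ℕ, C * d ^ 2 ≤ t →
      (C * d * t) ^ (C * d) ≤ 2 ^ l → Guess S d g (Csp t l) →
        2 ^ (t * l) ≤ (2 ^ g * S) ^ (C * d ^ 2))
    (g G : ℕ → ℕ) (hg : ∀ m : ℕ, ∀ᶠ n in atTop, m * (g n + Nat.log 2 n) ≤ G n)
    (hG : ∀ m : ℕ, ∀ᶠ n in atTop, G n ^ m ≤ n) (d m : ℕ) :
    ∀ᶠ n in atTop, ¬ Guess ((n * 2 ^ g n) ^ m) d (g n)
      (Csp (G n / (Nat.log 2 n / 4)) (Nat.log 2 n / 4)) := by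
  filter_upwards [hg (C * d ^ 2), hg (C * d), hg (2 * (m + 1) * (C * d ^ 2) + 2),
    hG (16 * (C * d)), eventually_ge_atTop (2 ^ 8)] with n h1 h2 h3 h4 hn hcomp
  obtain ⟨L, hLd⟩ : ∃ L, L = Nat.log 2 n := ⟨_, rfl⟩
  rw [← hLd] at h1 h2 h3 hcomp
  have hL8 : 8 ≤ L := by
    rw [hLd]
    exact Nat.le_log_of_pow_le (by norm_num) hn
  have hlt : n < 2 ^ (L + 1) := by rw [hLd]; exact Nat.lt_pow_succ_log_self (by norm_num) n
  obtain ⟨l, hl⟩ : ∃ l, l = L / 4 := ⟨_, rfl⟩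
  rw [← hl] at hcomp
  have hl1 : 1 ≤ l := by omega
  have hLl : L + 1 ≤ 8 * l := by omega
  obtain ⟨t, ht⟩ : ∃ t, t = G n / l := ⟨_, rfl⟩
  rw [← ht] at hcomp
  have h5 : C * d ≤ G n := le_trans (Nat.le_mul_of_pos_right _ (by omega)) h2
  have htG : t ≤ G n := by rw [ht]; exact Nat.div_le_self _ _
  have hc1 : C * d ^ 2 ≤ t := by
    rw [ht, Nat.le_div_iff_mul_le hl1]
    exact le_trans (Nat.mul_le_mul_left _ (by omega)) h1
  have hc2 : (C * d * t) ^ (C * d) ≤ 2 ^ l := by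
    have h6 : ((C * d * t) ^ (C * d)) ^ 8 < (2 ^ l) ^ 8 := by
      calc ((C * d * t) ^ (C * d)) ^ 8 ≤ ((G n * G n) ^ (C * d)) ^ 8 := by
            apply Nat.pow_le_pow_left
            apply Nat.pow_le_pow_left
            exact Nat.mul_le_mul h5 htG
        _ = G n ^ (16 * (C * d)) := by rw [← pow_two, ← pow_mul, ← pow_mul]; congr 1; ring
        _ ≤ n := h4
        _ < 2 ^ (L + 1) := hlt
        _ ≤ 2 ^ (8 * l) := Nat.pow_le_pow_right (by norm_num) hLl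
        _ = (2 ^ l) ^ 8 := by rw [← pow_mul]; congr 1; ring
    exact (lt_of_pow_lt_pow_left₀ 8 (Nat.zero_le _) h6).le
  have h7 := hlow d t l _ _ hc1 hc2 hcomp
  have h8 : 2 ^ g n * (n * 2 ^ g n) ^ m ≤ 2 ^ (2 * (m + 1) * (g n + L)) := by
    calc 2 ^ g n * (n * 2 ^ g n) ^ m ≤ 2 ^ g n * (2 ^ (L + 1) * 2 ^ g n) ^ m := by
          apply Nat.mul_le_mul_left
          apply Nat.pow_le_pow_left
          exact Nat.mul_le_mul_right _ hlt.le
      _ = 2 ^ (g n + (L + 1 + g n) * m) := by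
          rw [← pow_add, ← pow_mul, ← pow_add]
      _ ≤ 2 ^ (2 * (m + 1) * (g n + L)) := by
          apply Nat.pow_le_pow_right (by norm_num)
          nlinarith
  have h9 : 2 ^ (t * l) ≤ 2 ^ (2 * (m + 1) * (g n + L) * (C * d ^ 2)) := by
    rw [pow_mul 2 (2 * (m + 1) * (g n + L))]
    exact h7.trans (Nat.pow_le_pow_left h8 _)
  have h10 := (Nat.pow_le_pow_iff_right (by norm_num)).1 h9
  have hGt : G n < l * (t + 1) := by
    rw [ht]; exact Nat.lt_mul_div_succ _ hl1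
  have h11 : (2 * (m + 1) * (C * d ^ 2) + 2) * (g n + L) =
    2 * (m + 1) * (g n + L) * (C * d ^ 2) + 2 * (g n + L) := by ring
  have h12 : l * (t + 1) = t * l + l := by ring
  rw [h11] at h3
  rw [h12] at hGt
  omega

theorem Hierarchy_upper (g G : ℕ → ℕ)
    (hg : ∀ m : ℕ, ∀ᶠ n in atTop, m * (g n + Nat.log 2 n) ≤ G n)
    (hG : ∀ m : ℕ, ∀ᶠ n in atTop, G n ^ m ≤ n) :
    ∀ᶠ n in atTop, Fintype.card (Ins (G n / (Nat.log 2 n / 4)) (Nat.log 2 n / 4)) ≤ n ∧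
      Guess n 3 (G n) (Csp (G n / (Nat.log 2 n / 4)) (Nat.log 2 n / 4)) := by
  filter_upwards [hg 22, hG 24, eventually_ge_atTop (2 ^ 8)] with n h1 h4 hn
  obtain ⟨L, hLd⟩ : ∃ L, L = Nat.log 2 n := ⟨_, rfl⟩
  rw [← hLd] at h1 ⊢
  have hL8 : 8 ≤ L := by
    rw [hLd]
    exact Nat.le_log_of_pow_le (by norm_num) hn
  have hlt : n < 2 ^ (L + 1) := by rw [hLd]; exact Nat.lt_pow_succ_log_self (by norm_num) n
  have hle : 2 ^ L ≤ n := by rw [hLd]; exact Nat.pow_log_le_self 2 (by omega)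
  obtain ⟨l, hl⟩ : ∃ l, l = L / 4 := ⟨_, rfl⟩
  rw [← hl]
  have hl1 : 1 ≤ l := by omega
  obtain ⟨t, ht⟩ : ∃ t, t = G n / l := ⟨_, rfl⟩
  rw [← ht]
  have htG : t ≤ G n := by rw [ht]; exact Nat.div_le_self _ _
  have hG22 : 22 ≤ G n := by omega
  have hG3 : G n ^ 3 ≤ 2 ^ l := by
    have h6 : (G n ^ 3) ^ 8 < (2 ^ l) ^ 8 := by
      calc (G n ^ 3) ^ 8 = G n ^ 24 := by rw [← pow_mul]
        _ ≤ n := h4
        _ < 2 ^ (L + 1) := hlt
        _ ≤ 2 ^ (8 * l) := Nat.pow_le_pow_right (by norm_num) (by omega)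
        _ = (2 ^ l) ^ 8 := by rw [← pow_mul]; congr 1; ring
    exact (lt_of_pow_lt_pow_left₀ 8 (Nat.zero_le _) h6).le
  have h22 : 22 * t ^ 2 ≤ 2 ^ l := by
    calc 22 * t ^ 2 ≤ G n * G n ^ 2 := Nat.mul_le_mul hG22 (Nat.pow_le_pow_left htG 2)
      _ = G n ^ 3 := by ring
      _ ≤ 2 ^ l := hG3
  have h8l : (2 ^ l) ^ 3 = 8 ^ l := by
    rw [← pow_mul, mul_comm, pow_mul]
    norm_num
  have hmain : 22 * t ^ 2 * 8 ^ l ≤ n := by
    calc 22 * t ^ 2 * 8 ^ l ≤ 2 ^ l * 8 ^ l := Nat.mul_le_mul_right _ h22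
      _ = 2 ^ l * (2 ^ l) ^ 3 := by rw [h8l]
      _ = 2 ^ (4 * l) := by rw [← pow_succ', ← pow_mul]; congr 1; ring
      _ ≤ 2 ^ L := Nat.pow_le_pow_right (by norm_num) (by omega)
      _ ≤ n := hle
  have h8pos : 1 ≤ 8 ^ l := Nat.one_le_pow _ _ (by norm_num)
  constructor
  · rw [Explicit_card, h8l]
    have h9 : t ≤ t ^ 2 := by
      rcases Nat.eq_zero_or_pos t with h | h
      · rw [h]; norm_num
      · nlinarith
    calc 9 * t ^ 2 + 3 * t * 8 ^ l ≤ 9 * t ^ 2 * 8 ^ l + 3 * t ^ 2 * 8 ^ l := by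
          apply Nat.add_le_add
          · exact Nat.le_mul_of_pos_right _ h8pos
          · exact Nat.mul_le_mul_right _ (Nat.mul_le_mul_left _ h9)
      _ = 12 * t ^ 2 * 8 ^ l := by ring
      _ ≤ 22 * t ^ 2 * 8 ^ l := by
          apply Nat.mul_le_mul_right
          exact Nat.mul_le_mul_right _ (by norm_num)
      _ ≤ n := hmain
  · apply (Explicit_upper t l).mono
    · rcases Nat.eq_zero_or_pos t with h | h
      · rw [h]
        have : 1 ≤ n := by omega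
        simpa using this
      · have h10 : 1 ≤ t ^ 2 * 8 ^ l := Nat.mul_pos (Nat.pow_pos h) h8pos
        calc 21 * t ^ 2 * 8 ^ l + 1 ≤ 21 * (t ^ 2 * 8 ^ l) + t ^ 2 * 8 ^ l := by
              rw [mul_assoc]; omega
          _ = 22 * t ^ 2 * 8 ^ l := by ring
          _ ≤ n := hmain
    · rw [ht]
      exact Nat.div_mul_le_self _ _

/-- **The hierarchy of guessed bits is strict for constant depth circuits**, and this is shown by
the constraint satisfaction problem. -/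
theorem csp_result :
    (∀ t l : ℕ, Guess (21 * t ^ 2 * 8 ^ l + 1) 3 (t * l) (Csp t l)) ∧
    (∃ C : ℕ, ∀ d t l S g : ℕ, C * d ^ 2 ≤ t → (C * d * t) ^ (C * d) ≤ 2 ^ l →
      Guess S d g (Csp t l) → 2 ^ (t * l) ≤ (2 ^ g * S) ^ (C * d ^ 2)) ∧
    (∀ g G : ℕ → ℕ, (∀ m : ℕ, ∀ᶠ n in atTop, m * (g n + Nat.log 2 n) ≤ G n) →
      (∀ m : ℕ, ∀ᶠ n in atTop, G n ^ m ≤ n) → ∃ t l : ℕ → ℕ,
        (∀ᶠ n in atTop, Fintype.card (Ins (t n) (l n)) ≤ n ∧
          Guess n 3 (G n) (Csp (t n) (l n))) ∧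
        ∀ d m : ℕ, ∀ᶠ n in atTop, ¬ Guess ((n * 2 ^ g n) ^ m) d (g n) (Csp (t n) (l n))) := by
  have hlow : ∀ d t l S g : ℕ, 240000 * d ^ 2 ≤ t → (240000 * d * t) ^ (240000 * d) ≤ 2 ^ l →
      Guess S d g (Csp t l) → 2 ^ (t * l) ≤ (2 ^ g * S) ^ (240000 * d ^ 2) :=
    fun d t l S g h1 h2 h => Explicit_lower d t l h1 h2 S g h
  exact ⟨Explicit_upper, ⟨240000, hlow⟩, fun g G hg hG => ⟨_, _, Hierarchy_upper g G hg hG,
    fun d m => Hierarchy_lower 240000 (by norm_num) hlow g G hg hG d m⟩⟩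

end Pool.Agent.ACG
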