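import Pool.Agent.ACG.ChnC

/-! Project ACG: counting long chains. -/

set_option autoImplicit false

namespace Pool.Agent.ACG

open Finset Classical

variable {U : Type} [Fintype U] [DecidableEq U]

theorem LcC_bad {S d : ℕ} (C : Circ U S d) (D i : ℕ) (R : Finset U) (x : U → Bool)
    (hb : ¬ Bad C D i R x) (V : Finset U) (hV : V ⊆ R) : ¬ Bad C D i (R \ V) (swOn x V) := by
  rintro ⟨j, hj, g, hg, hn⟩
  apply hn
  apply DT.swOn _ V hV
  by_contra hc
  exact hb ⟨j, hj, g, hg, hc⟩

theorem lc_card {S d : ℕ} (C : Circ U S d) (D : ℕ) (hD : 1 ≤ D) (R : Finset U) (x : U → Bool)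
    (i : ℕ) (hb : ¬ Bad C D i R x) (g : Fn U) (hg : g ∈ C.L i) (k : ℕ) :
    (univ.filter fun V : Finset U => V ⊆ R ∧ V.card = k ∧ LC C i g x V).card ≤
      (S + k + 2) ^ i * (2 * D) ^ k := by
  induction i generalizing R x g k with
  | zero =>
    refine le_trans (le_of_eq ?_) (Nat.zero_le _)
    rw [Finset.card_eq_zero, Finset.filter_eq_empty_iff]
    rintro V - ⟨-, -, h3⟩
    exact h3
  | succ i ih =>
    have hkids : ∀ h ∈ C.kids i g, DT D R x h := by
      intro h hh
      by_contra hc
      exact hb ⟨i, Nat.le_succ i, h, C.kids_mem i g h hh, hc⟩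
    have hbi : ¬ Bad C D i R x := by
      rintro ⟨j, hj, g', hg', hn⟩
      exact hb ⟨j, by omega, g', hg', hn⟩
    cases hA : C.isAnd i g with
    | false =>
      have h1 : (univ.filter fun V : Finset U => V ⊆ R ∧ V.card = k ∧ LC C (i + 1) g x V) ⊆
          (C.kids i g).toFinset.biUnion fun h =>
            univ.filter fun V : Finset U => V ⊆ R ∧ V.card = k ∧ LC C i h x V := by
        intro V hV
        rw [Finset.mem_filter] at hV
        obtain ⟨-, h1, h2, h3⟩ := hV
        simp only [LC, hA] at h3
        rcases h3 with h3 | ⟨-, h, hh, h3⟩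
        · exact absurd h3.1 (by simp)
        · rw [Finset.mem_biUnion]
          refine ⟨h, List.mem_toFinset.2 hh, ?_⟩
          rw [Finset.mem_filter]
          exact ⟨Finset.mem_univ _, h1, h2, h3⟩
      refine (Finset.card_le_card h1).trans (Finset.card_biUnion_le.trans ?_)
      refine (Finset.sum_le_card_nsmul _ _ ((S + k + 2) ^ i * (2 * D) ^ k) fun h hh => ?_).trans ?_
      · exact ih R x hbi h (C.kids_mem i g h (List.mem_toFinset.1 hh)) k
      · rw [smul_eq_mul]
        have h2 : (C.kids i g).toFinset.card ≤ S :=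
          (List.toFinset_card_le _).trans (C.kids_len i g)
        calc (C.kids i g).toFinset.card * ((S + k + 2) ^ i * (2 * D) ^ k) ≤
              (S + k + 2) * ((S + k + 2) ^ i * (2 * D) ^ k) :=
              Nat.mul_le_mul_right _ (by omega)
          _ = (S + k + 2) ^ (i + 1) * (2 * D) ^ k := by ring
    | true =>
      have h1 : (univ.filter fun V : Finset U => V ⊆ R ∧ V.card = k ∧ LC C (i + 1) g x V) ⊆
          (univ.filter fun V : Finset U => V ⊆ R ∧ V.card = k ∧ Chn (C.kids i g) x V) ∪
          (range (k + 1)).biUnion fun k₁ =>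
            (univ.filter fun V : Finset U => V ⊆ R ∧ V.card = k₁ ∧
              Chn (C.kids i g) x V).biUnion fun V₁ =>
              (univ.filter fun V : Finset U => V ⊆ R \ V₁ ∧ V.card = k - k₁ ∧
                ∃ h, ff (C.kids i g) (swOn x V₁) = some h ∧ LC C i h (swOn x V₁) V).image
                  fun V₂ => V₁ ∪ V₂ := by
        intro V hV
        rw [Finset.mem_filter] at hV
        obtain ⟨-, h1, h2, h3⟩ := hV
        simp only [LC, hA] at h3
        rcases h3 with ⟨-, h3 | ⟨V₁, V₂, h, hVV, hdis, hc, hff, hlc⟩⟩ | h3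
        · apply Finset.mem_union_left
          rw [Finset.mem_filter]
          exact ⟨Finset.mem_univ _, h1, h2, h3⟩
        · apply Finset.mem_union_right
          subst hVV
          have hcard := Finset.card_union_of_disjoint hdis
          rw [Finset.mem_biUnion]
          refine ⟨V₁.card, Finset.mem_range.2 (by omega), ?_⟩
          rw [Finset.mem_biUnion]
          refine ⟨V₁, ?_, ?_⟩
          · rw [Finset.mem_filter]
            exact ⟨Finset.mem_univ _, Finset.union_subset_left h1, rfl, hc⟩
          · apply Finset.mem_image_of_mem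
            rw [Finset.mem_filter]
            refine ⟨Finset.mem_univ _, ?_, by omega, h, hff, hlc⟩
            rw [Finset.subset_sdiff]
            exact ⟨Finset.union_subset_right h1, hdis.symm⟩
        · exact absurd h3.1 (by simp)
      refine (Finset.card_le_card h1).trans ((Finset.card_union_le _ _).trans ?_)
      have h2 := chn_card (C.kids i g) D R x hkids k
      have h3 : ((range (k + 1)).biUnion fun k₁ =>
            (univ.filter fun V : Finset U => V ⊆ R ∧ V.card = k₁ ∧
              Chn (C.kids i g) x V).biUnion fun V₁ =>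
              (univ.filter fun V : Finset U => V ⊆ R \ V₁ ∧ V.card = k - k₁ ∧
                ∃ h, ff (C.kids i g) (swOn x V₁) = some h ∧ LC C i h (swOn x V₁) V).image
                  fun V₂ => V₁ ∪ V₂).card ≤ (k + 1) * ((S + k + 2) ^ i * (2 * D) ^ k) := by
        refine Finset.card_biUnion_le.trans ?_
        have h4 : ∀ k₁ ∈ range (k + 1), ((univ.filter fun V : Finset U => V ⊆ R ∧ V.card = k₁ ∧
              Chn (C.kids i g) x V).biUnion fun V₁ =>
              (univ.filter fun V : Finset U => V ⊆ R \ V₁ ∧ V.card = k - k₁ ∧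
                ∃ h, ff (C.kids i g) (swOn x V₁) = some h ∧ LC C i h (swOn x V₁) V).image
                  fun V₂ => V₁ ∪ V₂).card ≤ (S + k + 2) ^ i * (2 * D) ^ k := by
          intro k₁ hk₁
          rw [Finset.mem_range] at hk₁
          refine Finset.card_biUnion_le.trans ?_
          refine (Finset.sum_le_card_nsmul _ _ ((S + k + 2) ^ i * (2 * D) ^ (k - k₁))
            fun V₁ hV₁ => ?_).trans ?_
          · refine Finset.card_image_le.trans ?_
            rw [Finset.mem_filter] at hV₁
            obtain ⟨-, hV1, hV2, hV3⟩ := hV₁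
            obtain ⟨h₀, hh₀⟩ : ∃ h₀ : Option (Fn U), h₀ = ff (C.kids i g) (swOn x V₁) := ⟨_, rfl⟩
            cases h₀ with
            | none =>
              refine le_trans (le_of_eq ?_) (Nat.zero_le _)
              rw [Finset.card_eq_zero, Finset.filter_eq_empty_iff]
              rintro V - ⟨-, -, h, hf, -⟩
              rw [← hh₀] at hf
              exact absurd hf (by simp)
            | some h₀ =>
              have hmem : h₀ ∈ C.kids i g := List.mem_of_find?_eq_some hh₀.symm
              refine le_trans ?_ ((ih (R \ V₁) (swOn x V₁) (LcC_bad C D i R x hbi V₁ hV1) h₀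
                (C.kids_mem i g h₀ hmem) (k - k₁)).trans ?_)
              · apply Finset.card_le_card
                intro V hV
                rw [Finset.mem_filter] at hV ⊢
                obtain ⟨-, a1, a2, h, hf, a3⟩ := hV
                rw [← hh₀, Option.some_inj] at hf
                subst hf
                exact ⟨Finset.mem_univ _, a1, a2, a3⟩
              · apply Nat.mul_le_mul_right
                apply Nat.pow_le_pow_left
                omega
          · rw [smul_eq_mul]
            have h5 := chn_card (C.kids i g) D R x hkids k₁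
            calc (univ.filter fun V : Finset U => V ⊆ R ∧ V.card = k₁ ∧
                    Chn (C.kids i g) x V).card * ((S + k + 2) ^ i * (2 * D) ^ (k - k₁)) ≤
                  (2 * D) ^ k₁ * ((S + k + 2) ^ i * (2 * D) ^ (k - k₁)) :=
                  Nat.mul_le_mul_right _ h5
              _ = (S + k + 2) ^ i * (2 * D) ^ (k₁ + (k - k₁)) := by rw [pow_add]; ring
              _ = (S + k + 2) ^ i * (2 * D) ^ k := by
                  rw [Nat.add_sub_cancel' (by omega)]
        refine (Finset.sum_le_card_nsmul _ _ _ h4).trans ?_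
        rw [Finset.card_range, smul_eq_mul]
      have h4 : (2 * D) ^ k ≤ (S + k + 2) ^ i * (2 * D) ^ k :=
        Nat.le_mul_of_pos_left _ (Nat.pow_pos (by omega))
      calc _ ≤ (2 * D) ^ k + (k + 1) * ((S + k + 2) ^ i * (2 * D) ^ k) := Nat.add_le_add h2 h3
        _ ≤ (S + k + 2) ^ i * (2 * D) ^ k + (k + 1) * ((S + k + 2) ^ i * (2 * D) ^ k) :=
            Nat.add_le_add_right h4 _
        _ = (k + 2) * ((S + k + 2) ^ i * (2 * D) ^ k) := by ring
        _ ≤ (S + k + 2) * ((S + k + 2) ^ i * (2 * D) ^ k) := Nat.mul_le_mul_right _ (by omega)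
        _ = (S + k + 2) ^ (i + 1) * (2 * D) ^ k := by ring

end Pool.Agent.ACG
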