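import Pool.Agent.ACG.PivC

/-! Project ACG: existence of long chains. -/

set_option autoImplicit false

namespace Pool.Agent.ACG

open Finset Classical

variable {U : Type} [Fintype U] [DecidableEq U]

theorem LcE_sw_zero {x : U → Bool} {V : Finset U} {e : U} (h : swOn x V e = false) :
    x e = false := by
  simp only [swOn, Bool.or_eq_false_iff] at h
  exact h.1

theorem LcE_chn_zero (hs : List (Fn U)) (x : U → Bool) (V : Finset U) (h : Chn hs x V) :
    ∀ e ∈ V, x e = false := by
  induction h with
  | nil => simp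
  | cons x h W V _ hp _ _ ih =>
    intro e he
    rw [Finset.mem_union] at he
    rcases he with he | he
    · exact hp.2.1 e he
    · exact LcE_sw_zero (ih e he)

theorem lc_zeros {S d : ℕ} (C : Circ U S d) (i : ℕ) (g : Fn U) (x : U → Bool) (V : Finset U)
    (h : LC C i g x V) : ∀ e ∈ V, x e = false := by
  induction i generalizing g x V with
  | zero => exact absurd h (by simp [LC])
  | succ i ih =>
    simp only [LC] at h
    rcases h with ⟨-, h | ⟨V₁, V₂, h', hVV, -, hc, -, hlc⟩⟩ | ⟨-, h', -, hlc⟩
    · exact LcE_chn_zero _ _ _ h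
    · intro e he
      rw [hVV, Finset.mem_union] at he
      rcases he with he | he
      · exact LcE_chn_zero _ _ _ hc e he
      · exact LcE_sw_zero (ih _ _ _ hlc e he)
    · exact ih _ _ _ hlc

theorem LcE_lit {g : Fn U} (hg : IsLit g) {x : U → Bool} {W : Finset U} (h : Piv g x W) :
    W.card ≤ 1 := by
  obtain ⟨h1, h2, h3, h4, h5⟩ := h
  rcases hg with ⟨b, hb⟩ | ⟨e, he⟩ | ⟨e, he⟩
  · rw [hb] at h3 h4
    rw [h3] at h4
    exact absurd h4 (by simp)
  · rw [he] at h3 h4
    have heW : e ∈ W := by
      by_contra hc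
      simp [swOn, h3, hc] at h4
    by_contra hc
    have h6 := h5 {e} (by
      rw [Finset.ssubset_iff_subset_ne]
      refine ⟨Finset.singleton_subset_iff.2 heW, ?_⟩
      intro h'
      rw [← h', Finset.card_singleton] at hc
      exact hc (le_refl _))
    rw [he] at h6
    simp [swOn] at h6
  · rw [he] at h3 h4
    have : x e = true := by simpa using h3
    simp [swOn, this] at h4

theorem LcE_and (hs : List (Fn U)) (r : ℕ) (g : Fn U) (hg : ∀ x, g x = hs.all (fun h => h x))
    (b : ℕ) (x : U → Bool) (W : Finset U) (hW : Piv g x W) (hb : b < W.card) :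
    (∃ V, V ⊆ W ∧ Chn hs x V ∧ b ≤ V.card ∧ V.card ≤ b + r) ∨
    (∃ V₁, V₁ ⊆ W ∧ V₁.card ≤ b ∧ Chn hs x V₁ ∧ ∃ h W₁, ff hs (swOn x V₁) = some h ∧
      W₁ ⊆ W \ V₁ ∧ Piv h (swOn x V₁) W₁ ∧ r < W₁.card) := by
  induction b using Nat.strong_induction_on generalizing x W with
  | _ b ih =>
    obtain ⟨h₀, hh₀⟩ : ∃ h₀ : Option (Fn U), h₀ = ff hs x := ⟨_, rfl⟩
    cases h₀ with
    | none =>
      exfalso
      have hall := List.find?_eq_none.1 hh₀.symm
      have h3 := hW.2.2.1
      rw [hg, List.all_eq_false] at h3
      obtain ⟨h', hh', hx⟩ := h3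
      exact hall h' hh' (by simpa using hx)
    | some h₀ =>
      have hmem : h₀ ∈ hs := List.mem_of_find?_eq_some hh₀.symm
      have hx : h₀ x = false := by
        have := List.find?_some hh₀.symm
        simpa using this
      have hxW : h₀ (swOn x W) = true := by
        have h4 := hW.2.2.2.1
        rw [hg, List.all_eq_true] at h4
        exact h4 h₀ hmem
      obtain ⟨W₁, hW₁, hp⟩ := exists_piv h₀ x W hx hxW
      have hpos : 1 ≤ W₁.card := hp.1.card_pos
      by_cases hr : r < W₁.card
      · right
        refine ⟨∅, Finset.empty_subset _, by simp, Chn.nil x, h₀, W₁, ?_, ?_, ?_, hr⟩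
        · rw [PivC_sw_empty]; exact hh₀.symm
        · rw [Finset.sdiff_empty]; exact hW₁
        · rw [PivC_sw_empty]; exact hp
      · rw [not_lt] at hr
        by_cases hbW : b ≤ W₁.card
        · left
          refine ⟨W₁ ∪ ∅, by simpa using hW₁, ?_, by simpa using hbW, by simp; omega⟩
          exact Chn.cons x h₀ W₁ ∅ hh₀.symm hp (Finset.disjoint_empty_right _) (Chn.nil _)
        · rw [not_le] at hbW
          have hss : W₁ ⊂ W := by
            rw [Finset.ssubset_iff_subset_ne]
            refine ⟨hW₁, ?_⟩
            intro h'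
            rw [h'] at hbW
            omega
          have hcard := Finset.card_sdiff_add_card_eq_card hW₁
          rcases ih (b - W₁.card) (by omega) (swOn x W₁) (W \ W₁) (hW.sdiff hss) (by omega) with
            ⟨V, hV, hc, h1, h2⟩ | ⟨V₁, hV₁, h1, hc, h, W', hff, hW', hp', hr'⟩
          · left
            have hdis : Disjoint W₁ V := by
              rw [Finset.subset_sdiff] at hV
              exact hV.2.symm
            have hcu := Finset.card_union_of_disjoint hdis
            refine ⟨W₁ ∪ V, Finset.union_subset hW₁ (hV.trans Finset.sdiff_subset),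
              Chn.cons x h₀ W₁ V hh₀.symm hp hdis hc, by omega, by omega⟩
          · right
            have hdis : Disjoint W₁ V₁ := by
              rw [Finset.subset_sdiff] at hV₁
              exact hV₁.2.symm
            have hcu := Finset.card_union_of_disjoint hdis
            refine ⟨W₁ ∪ V₁, Finset.union_subset hW₁ (hV₁.trans Finset.sdiff_subset), by omega,
              Chn.cons x h₀ W₁ V₁ hh₀.symm hp hdis hc, h, W', ?_, ?_, ?_, hr'⟩
            · rw [← PivC_sw_sw]; exact hff
            · intro e he
              have := hW' he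
              simp only [Finset.mem_sdiff, Finset.mem_union, not_or] at this ⊢
              exact ⟨this.1.1, this.1.2, this.2⟩
            · rw [← PivC_sw_sw]; exact hp'

theorem lc_exists {S d : ℕ} (C : Circ U S d) (r : ℕ) (hr : 1 ≤ r) (i : ℕ) (hi : i ≤ d)
    (g : Fn U) (hg : g ∈ C.L i) (x : U → Bool) (W : Finset U) (hW : Piv g x W)
    (hc : r < W.card) :
    ∃ V, V ⊆ W ∧ LC C i g x V ∧ r ≤ V.card ∧ V.card ≤ (i + 1) * r := by
  induction i generalizing g x W with
  | zero =>
    exfalso
    have := LcE_lit (C.base g hg) hW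
    omega
  | succ i ih =>
    have hev := C.eval i hi g hg
    cases hA : C.isAnd i g with
    | false =>
      have hev' : ∀ x, g x = (C.kids i g).any (fun h => h x) := by
        intro x
        rw [hev x, hA]
        simp
      obtain ⟨h1, h2, h3, h4, h5⟩ := hW
      have h4' := h4
      rw [hev', List.any_eq_true] at h4'
      obtain ⟨h, hh, hx⟩ := h4'
      have hfalse : ∀ y, g y = false → h y = false := by
        intro y hy
        rw [hev', List.any_eq_false] at hy
        have := hy h hh
        simpa using this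
      obtain ⟨V, hV, hlc, hV1, hV2⟩ := ih (by omega) h (C.kids_mem i g h hh) x W
        ⟨h1, h2, hfalse x h3, hx, fun V hV => hfalse _ (h5 V hV)⟩ hc
      refine ⟨V, hV, ?_, hV1, hV2.trans (Nat.mul_le_mul_right _ (by omega))⟩
      simp only [LC]
      exact Or.inr ⟨hA, h, hh, hlc⟩
    | true =>
      have hev' : ∀ x, g x = (C.kids i g).all (fun h => h x) := by
        intro x
        rw [hev x, hA]
        simp
      rcases LcE_and (C.kids i g) r g hev' r x W hW hc with
        ⟨V, hV, hch, h1, h2⟩ | ⟨V₁, hV₁, h1, hch, h, W₁, hff, hW₁, hp, hr'⟩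
      · refine ⟨V, hV, ?_, h1, ?_⟩
        · simp only [LC]
          exact Or.inl ⟨hA, Or.inl hch⟩
        · calc V.card ≤ 2 * r := by omega
            _ ≤ (i + 1 + 1) * r := Nat.mul_le_mul_right _ (by omega)
      · have hmem : h ∈ C.kids i g := List.mem_of_find?_eq_some hff
        obtain ⟨V₂, hV₂, hlc, hV1, hV2⟩ := ih (by omega) h (C.kids_mem i g h hmem) _ W₁ hp hr'
        have hsub := hV₂.trans hW₁
        have hdis : Disjoint V₁ V₂ := by
          rw [Finset.subset_sdiff] at hsub
          exact hsub.2.symm
        have hcu := Finset.card_union_of_disjoint hdis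
        refine ⟨V₁ ∪ V₂, Finset.union_subset hV₁ (hsub.trans Finset.sdiff_subset), ?_,
          by omega, ?_⟩
        · simp only [LC]
          exact Or.inl ⟨hA, Or.inr ⟨V₁, V₂, h, rfl, hdis, hch, hff, hlc⟩⟩
        · rw [hcu]
          calc V₁.card + V₂.card ≤ r + (i + 1) * r := Nat.add_le_add h1 hV2
            _ = (i + 1 + 1) * r := by ring

end Pool.Agent.ACG
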