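import Pool.Agent.ACG.PerK
import Pool.Agent.ACG.LcC
import Pool.Agent.ACG.LcE

/-! Project ACG: the planted distribution. -/

set_option autoImplicit false

namespace Pool.Agent.ACG

open Finset Classical

variable {U : Type} [Fintype U] [DecidableEq U]

theorem Plant_and (p r : Prop) : ind (p ∧ r) = ind p * ind r := by
  unfold ind
  by_cases h1 : p <;> by_cases h2 : r <;> simp [h1, h2]

theorem Plant_fam (𝒱 : (U → Bool) → Finset U → Prop)
    (hz : ∀ x V, 𝒱 x V → ∀ e ∈ V, x e = false)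
    {𝒴 : Type} [Fintype 𝒴] (Y : 𝒴 → Finset U) (q : ℝ) (hq : 0 < q) (K : ℕ)
    (hspread : ∀ V : Finset U, V.card ≤ K →
      ((univ.filter fun y => V ⊆ Y y).card : ℝ) * q ^ V.card ≤ Fintype.card 𝒴)
    (Bd : Finset U → (U → Bool) → Prop) (M : ℕ → ℝ) (hM : ∀ k, 0 ≤ M k)
    (hcount : ∀ k R x, ¬ Bd R x →
      ((univ.filter fun V : Finset U => V ⊆ R ∧ V.card = k ∧ 𝒱 x V).card : ℝ) ≤ M k)
    (Q a : ℝ) (hQ : 0 < Q) (ha : 0 ≤ a) (hQa : Q + a ≤ 1) (η : ℝ)
    (hη : Ex (law Q a) (fun σ : U → Bool × Bool => ind (Bd (stars σ) (vals σ))) ≤ η)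
    (T : Finset ℕ) (hT : ∀ k ∈ T, k ≤ K) :
    ∑ y, Ex (law Q a) (fun σ : U → Bool × Bool =>
        ∑ k ∈ T, ∑ V ∈ univ.filter (fun V : Finset U => V.card = k),
          ind (V ⊆ Y y ∧ 𝒱 (vals σ) V)) ≤
      Fintype.card 𝒴 * ∑ k ∈ T, (2 / (q * Q)) ^ k * (M k + (Fintype.card U : ℝ) ^ k * η) := by
  have hl0 := law_nonneg hQ.le ha hQa
  have hE0 : ∀ V : Finset U,
      0 ≤ Ex (law Q a) (fun σ : U → Bool × Bool => ind (𝒱 (vals σ) V)) := by
    intro V
    have h := Ex_mono (law Q a) hl0 (fun _ : U → Bool × Bool => (0 : ℝ))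
      (fun σ => ind (𝒱 (vals σ) V)) (fun σ => ind_nonneg _)
    rwa [Ex_const _ (law_sum _ _)] at h
  have h1 : ∑ y, Ex (law Q a) (fun σ : U → Bool × Bool =>
        ∑ k ∈ T, ∑ V ∈ univ.filter (fun V : Finset U => V.card = k),
          ind (V ⊆ Y y ∧ 𝒱 (vals σ) V)) =
      ∑ k ∈ T, ∑ V ∈ univ.filter (fun V : Finset U => V.card = k),
        ((univ.filter fun y => V ⊆ Y y).card : ℝ) *
          Ex (law Q a) (fun σ : U → Bool × Bool => ind (𝒱 (vals σ) V)) := by
    have h2 : ∀ y, Ex (law Q a) (fun σ : U → Bool × Bool =>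
        ∑ k ∈ T, ∑ V ∈ univ.filter (fun V : Finset U => V.card = k),
          ind (V ⊆ Y y ∧ 𝒱 (vals σ) V)) =
        ∑ k ∈ T, ∑ V ∈ univ.filter (fun V : Finset U => V.card = k),
          ind (V ⊆ Y y) * Ex (law Q a) (fun σ : U → Bool × Bool => ind (𝒱 (vals σ) V)) := by
      intro y
      rw [Ex_sum]
      apply Finset.sum_congr rfl
      intro k _
      rw [Ex_sum]
      apply Finset.sum_congr rfl
      intro V _
      simp only [Plant_and]
      rw [Ex_mul]
    simp only [h2]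
    rw [Finset.sum_comm]
    apply Finset.sum_congr rfl
    intro k _
    rw [Finset.sum_comm]
    apply Finset.sum_congr rfl
    intro V _
    rw [← Finset.sum_mul, PerK_card]
  rw [h1, Finset.mul_sum]
  apply Finset.sum_le_sum
  intro k hk
  have hqk : 0 < q ^ k := pow_pos hq k
  have hQk : 0 < (Q / 2) ^ k := by positivity
  have hper := per_k 𝒱 hz k Bd (M k) (hM k) (hcount k) Q a hQ.le ha hQa η hη
  have h3 : ∑ V ∈ univ.filter (fun V : Finset U => V.card = k),
        ((univ.filter fun y => V ⊆ Y y).card : ℝ) *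
          Ex (law Q a) (fun σ : U → Bool × Bool => ind (𝒱 (vals σ) V)) ≤
      ∑ V ∈ univ.filter (fun V : Finset U => V.card = k),
        (Fintype.card 𝒴 / q ^ k) *
          Ex (law Q a) (fun σ : U → Bool × Bool => ind (𝒱 (vals σ) V)) := by
    apply Finset.sum_le_sum
    intro V hV
    have hVk := (Finset.mem_filter.1 hV).2
    apply mul_le_mul_of_nonneg_right _ (hE0 V)
    rw [le_div_iff₀ hqk, ← hVk]
    exact hspread V (by rw [hVk]; exact hT k hk)
  refine h3.trans ?_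
  rw [← Finset.mul_sum]
  have h4 : ∑ V ∈ univ.filter (fun V : Finset U => V.card = k),
      Ex (law Q a) (fun σ : U → Bool × Bool => ind (𝒱 (vals σ) V)) ≤
      (M k + (Fintype.card U : ℝ) ^ k * η) / (Q / 2) ^ k := by
    rw [le_div_iff₀ hQk, mul_comm]
    exact hper
  calc (Fintype.card 𝒴 / q ^ k) * ∑ V ∈ univ.filter (fun V : Finset U => V.card = k),
        Ex (law Q a) (fun σ : U → Bool × Bool => ind (𝒱 (vals σ) V)) ≤
      (Fintype.card 𝒴 / q ^ k) * ((M k + (Fintype.card U : ℝ) ^ k * η) / (Q / 2) ^ k) :=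
        mul_le_mul_of_nonneg_left h4 (by positivity)
    _ = Fintype.card 𝒴 * ((2 / (q * Q)) ^ k * (M k + (Fintype.card U : ℝ) ^ k * η)) := by
        rw [div_pow, div_pow, mul_pow]
        field_simp

theorem planted {S d : ℕ} (C : Circ U S d) (f : Fn U) (hf : f ∈ C.L d)
    {𝒴 : Type} [Fintype 𝒴] (Y : 𝒴 → Finset U) (q : ℝ) (hq : 0 < q) (K : ℕ)
    (hspread : ∀ V : Finset U, V.card ≤ K →
      ((univ.filter fun y => V ⊆ Y y).card : ℝ) * q ^ V.card ≤ Fintype.card 𝒴)
    (D r : ℕ) (hD : 1 ≤ D) (hr : 1 ≤ r) (hK : (d + 1) * r ≤ K)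
    (Q a : ℝ) (hQ : 0 < Q) (ha : 0 ≤ a) (hQa : Q + a ≤ 1) (η : ℝ) (hη0 : 0 ≤ η)
    (hη : Ex (law Q a) (fun σ : U → Bool × Bool => ind (Bad C D d (stars σ) (vals σ))) ≤ η) :
    ∑ y, Ex (law Q a) (fun σ : U → Bool × Bool =>
        ind (f (vals σ) = false ∧ f (swOn (vals σ) (Y y)) = true)) ≤
      Fintype.card 𝒴 *
        (∑ k ∈ Icc 1 r, (2 / (q * Q)) ^ k * ((D : ℝ) ^ k + (Fintype.card U : ℝ) ^ k * η) +
         ∑ k ∈ Icc r K, (2 / (q * Q)) ^ k *
          (((S : ℝ) + k + 2) ^ d * (2 * D) ^ k + (Fintype.card U : ℝ) ^ k * η)) := by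
  have hl0 := law_nonneg hQ.le ha hQa
  have hrK : r ≤ K := le_trans (by nlinarith) hK
  have hfam1 := Plant_fam (fun x V => Piv f x V) (fun x V h => h.2.1) Y q hq K hspread
    (Bad C D d) (fun k => (D : ℝ) ^ k) (fun k => by positivity) (by
      intro k R x hb
      have hdt : DT D R x f := by
        by_contra hc
        exact hb ⟨d, le_refl _, f, hf, hc⟩
      have := (piv_card D R x f hdt k).trans (Nat.choose_le_pow D k)
      exact_mod_cast this) Q a hQ ha hQa η hη (Icc 1 r) (by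
      intro k hk
      rw [Finset.mem_Icc] at hk
      omega)
  have hfam2 := Plant_fam (fun x V => LC C d f x V) (fun x V h => lc_zeros C d f x V h) Y q hq K
    hspread (Bad C D d) (fun k => ((S : ℝ) + k + 2) ^ d * (2 * D) ^ k) (fun k => by positivity) (by
      intro k R x hb
      have := lc_card C D hD R x d hb f hf k
      exact_mod_cast this) Q a hQ ha hQa η hη (Icc r K) (by
      intro k hk
      rw [Finset.mem_Icc] at hk
      omega)
  rw [mul_add]
  refine le_trans ?_ (add_le_add hfam1 hfam2)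
  rw [← Finset.sum_add_distrib]
  apply Finset.sum_le_sum
  intro y _
  rw [← Ex_add]
  apply Ex_mono _ hl0
  intro σ
  have hn1 : 0 ≤ ∑ k ∈ Icc 1 r, ∑ V ∈ univ.filter (fun V : Finset U => V.card = k),
      ind (V ⊆ Y y ∧ Piv f (vals σ) V) :=
    Finset.sum_nonneg fun k _ => Finset.sum_nonneg fun V _ => ind_nonneg _
  have hn2 : 0 ≤ ∑ k ∈ Icc r K, ∑ V ∈ univ.filter (fun V : Finset U => V.card = k),
      ind (V ⊆ Y y ∧ LC C d f (vals σ) V) :=
    Finset.sum_nonneg fun k _ => Finset.sum_nonneg fun V _ => ind_nonneg _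
  by_cases h : f (vals σ) = false ∧ f (swOn (vals σ) (Y y)) = true
  · obtain ⟨W, hW, hp⟩ := exists_piv f (vals σ) (Y y) h.1 h.2
    refine (ind_le_one _).trans ?_
    have hone : ∀ (T : Finset ℕ) (P : Finset U → Prop) (V : Finset U), V.card ∈ T → P V →
        1 ≤ ∑ k ∈ T, ∑ V ∈ univ.filter (fun V : Finset U => V.card = k), ind (P V) := by
      intro T P V hV hP
      refine le_trans ?_ (Finset.single_le_sum
        (fun k _ => Finset.sum_nonneg fun V _ => ind_nonneg _) hV)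
      refine le_trans ?_ (Finset.single_le_sum (fun V _ => ind_nonneg _)
        (Finset.mem_filter.2 ⟨Finset.mem_univ V, rfl⟩))
      rw [ind, if_pos hP]
    by_cases hc : W.card ≤ r
    · have := hone (Icc 1 r) (fun V => V ⊆ Y y ∧ Piv f (vals σ) V) W
        (Finset.mem_Icc.2 ⟨hp.1.card_pos, hc⟩) ⟨hW, hp⟩
      linarith
    · rw [not_le] at hc
      obtain ⟨V, hV, hlc, hV1, hV2⟩ := lc_exists C r hr d (le_refl _) f hf (vals σ) W hp hc
      have := hone (Icc r K) (fun V => V ⊆ Y y ∧ LC C d f (vals σ) V) V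
        (Finset.mem_Icc.2 ⟨hV1, hV2.trans hK⟩) ⟨hV.trans hW, hlc⟩
      linarith
  · rw [ind, if_neg h]
    linarith

end Pool.Agent.ACG
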