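import Pool.Agent.ACG.SL

/-! Project ACG: stages of the random restriction. -/

set_option autoImplicit false

namespace Pool.Agent.ACG

open Finset Classical

variable {U : Type} [Fintype U] [DecidableEq U]

theorem Stage_list (D : ℕ) (R : Finset U) (x : U → Bool) (hs : List (Fn U))
    (h : ∀ f ∈ hs, DT D R x f) :
    ∃ Ts : List (Term U), (∀ T ∈ Ts, T.1.card ≤ D) ∧
      ∀ y, (∃ f ∈ hs, f (ovr R y x) = true) ↔ ∃ T ∈ Ts, Term.Sat T y := by
  induction hs with
  | nil => exact ⟨[], by simp, by simp⟩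
  | cons f hs ih =>
    obtain ⟨Ts, hTs1, hTs2⟩ := ih fun f' hf' => h f' (List.mem_cons_of_mem _ hf')
    obtain ⟨Ts', hTs'1, hTs'2⟩ := (h f List.mem_cons_self).dnf
    refine ⟨Ts' ++ Ts, ?_, ?_⟩
    · intro T hT
      rw [List.mem_append] at hT
      rcases hT with hT | hT
      · exact (hTs'1 T hT).2
      · exact hTs1 T hT
    · intro y
      constructor
      · rintro ⟨f', hf', hy⟩
        rw [List.mem_cons] at hf'
        rcases hf' with rfl | hf'
        · obtain ⟨T, hT, hs'⟩ := (hTs'2 y).1 hy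
          exact ⟨T, List.mem_append_left _ hT, hs'⟩
        · obtain ⟨T, hT, hs'⟩ := (hTs2 y).1 ⟨f', hf', hy⟩
          exact ⟨T, List.mem_append_right _ hT, hs'⟩
      · rintro ⟨T, hT, hs'⟩
        rw [List.mem_append] at hT
        rcases hT with hT | hT
        · exact ⟨f, List.mem_cons_self, (hTs'2 y).2 ⟨T, hT, hs'⟩⟩
        · obtain ⟨f', hf', hy⟩ := (hTs2 y).2 ⟨T, hT, hs'⟩
          exact ⟨f', List.mem_cons_of_mem _ hf', hy⟩

theorem Stage_not {k : ℕ} {R : Finset U} {x : U → Bool} {f : Fn U}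
    (hd : DT k R x (fun z => !f z)) : DT k R x f := by
  have := hd.not
  simpa using this

/-- A gate over decision trees. -/
theorem Stage_gate (D : ℕ) (R : Finset U) (x : U → Bool) (hs : List (Fn U))
    (h : ∀ f ∈ hs, DT D R x f) (g : Fn U) (b : Bool)
    (hg : ∀ x, g x = if b = true then hs.all (fun h => h x) else hs.any (fun h => h x)) :
    ∃ (Ts : List (Term U)) (G : Fn U), (∀ T ∈ Ts, T.1.card ≤ D) ∧
      (∀ y, G y = true ↔ ∃ T ∈ Ts, Term.Sat T y) ∧
      ∀ k R' u, R' ⊆ R → DT k R' u G → DT k R' (ovr R u x) g := by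
  cases b with
  | false =>
    obtain ⟨Ts, h1, h2⟩ := Stage_list D R x hs h
    refine ⟨Ts, fun y => g (ovr R y x), h1, fun y => ?_, fun k R' u hR hd => hd.lift hR⟩
    show g (ovr R y x) = true ↔ _
    rw [← h2, hg]
    simp
  | true =>
    obtain ⟨Ts, h1, h2⟩ := Stage_list D R x (hs.map fun f z => !f z) (by
      intro f hf
      rw [List.mem_map] at hf
      obtain ⟨f', hf', rfl⟩ := hf
      exact (h f' hf').not)
    refine ⟨Ts, fun y => !g (ovr R y x), h1, fun y => ?_, fun k R' u hR hd => ?_⟩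
    · show (!g (ovr R y x)) = true ↔ _
      rw [← h2, hg]
      simp
    · exact (Stage_not hd).lift hR

theorem bad_one {S d : ℕ} (C : Circ U S d) (hd : 1 ≤ d) (D : ℕ) (hD : 1 ≤ D) (Q a : ℝ)
    (hQ : 0 ≤ Q) (ha : 0 < a) (hQa : Q + 2 * a ≤ 1) (h : 4 * D * Q / a ≤ 1 / 2) :
    Ex (law Q a) (fun σ : U → Bool × Bool => ind (Bad C D 1 (stars σ) (vals σ))) ≤
      S * (2 * (4 * D * Q / a) ^ D) := by
  have hlaw0 : ∀ o, 0 ≤ law Q a o := law_nonneg hQ ha.le (by linarith)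
  have hpt : ∀ σ : U → Bool × Bool, ind (Bad C D 1 (stars σ) (vals σ)) ≤
      ∑ g ∈ C.L 1, ind (¬ DT D (stars σ) (vals σ) g) := by
    intro σ
    by_cases hb : Bad C D 1 (stars σ) (vals σ)
    · obtain ⟨j, hj, g, hg, hn⟩ := hb
      have hj1 : j = 1 := by
        rcases Nat.lt_or_ge j 1 with h0 | h0
        · exfalso
          have : j = 0 := by omega
          subst this
          exact hn ((DT.lit (C.base g hg)).mono hD)
        · omega
      subst hj1
      refine (ind_le_one _).trans ?_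
      refine le_trans ?_ (Finset.single_le_sum (fun g _ => ind_nonneg _) hg)
      rw [ind, if_pos hn]
    · rw [ind, if_neg hb]
      exact Finset.sum_nonneg fun g _ => ind_nonneg _
  refine (Ex_mono _ hlaw0 _ _ hpt).trans ?_
  rw [Ex_sum]
  have hterm : ∀ g ∈ C.L 1, Ex (law Q a) (fun σ : U → Bool × Bool =>
      ind (¬ DT D (stars σ) (vals σ) g)) ≤ 2 * (4 * D * Q / a) ^ D := by
    intro g hg
    obtain ⟨Ts, G, h1, h2, h3⟩ := Stage_gate 1 univ (fun _ => false) (C.kids 0 g)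
      (fun f hf => DT.lit (C.base f (C.kids_mem 0 g f hf))) g (C.isAnd 0 g)
      (C.eval 0 hd g hg)
    have hsw := switching D Ts (fun T hT => (h1 T hT).trans hD) G h2 (law Q a) hlaw0
      (law_sum Q a) Q a (by simp only [law]; ring) ha (by
        intro b
        cases b <;> simp only [law] <;> linarith) D h
    refine le_trans (Ex_mono _ hlaw0 _ _ fun σ => ?_) hsw
    by_cases hn : DT D (stars σ) (vals σ) G
    · have h4 := h3 D _ _ (Finset.subset_univ _) hn
      have h5 : ovr univ (vals σ) (fun _ => false) = vals σ := by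
        funext e
        exact ovr_mem (Finset.mem_univ e)
      rw [h5] at h4
      rw [ind, if_neg (not_not.2 h4)]
      exact ind_nonneg _
    · refine (ind_le_one _).trans ?_
      rw [ind, if_pos hn]
  refine (Finset.sum_le_card_nsmul _ _ _ hterm).trans ?_
  rw [nsmul_eq_mul]
  apply mul_le_mul_of_nonneg_right
  · exact_mod_cast C.card_le 1
  · positivity

/-- Composition of restrictions. -/
def Stage_phi (o : (Bool × Bool) × (Bool × Bool)) : Bool × Bool :=
  if o.1.1 = true then o.2 else (false, o.1.2)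

theorem Stage_law (Q a γ : ℝ) : law (Q * γ) (a + Q * (1 - γ) / 2) = fun o' =>
    ∑ o, @ite ℝ (Stage_phi o = o') (Classical.propDecidable _)
      (law Q a o.1 * law γ ((1 - γ) / 2) o.2) 0 := by
  funext o'
  simp only [Fintype.sum_prod_type, Fintype.sum_bool, Stage_phi]
  rcases o' with ⟨_ | _, _ | _⟩ <;> simp [law] <;> ring

theorem Stage_inner {S d : ℕ} (C : Circ U S d) (i : ℕ) (hi : i + 1 ≤ d) (D : ℕ) (hD : 1 ≤ D)
    (γ : ℝ) (hγ0 : 0 ≤ γ) (hγ1 : γ ≤ 1) (h : 8 * D * γ ≤ 1 / 2) (R : Finset U) (x : U → Bool)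
    (hb : ¬ Bad C D i R x) :
    Ex (law γ ((1 - γ) / 2)) (fun σ : U → Bool × Bool =>
      ind (Bad C D (i + 1) (R ∩ stars σ) (ovr R (vals σ) x))) ≤
      S * (2 * (8 * D * γ) ^ D) := by
  have hlaw0 : ∀ o, 0 ≤ law γ ((1 - γ) / 2) o :=
    law_nonneg hγ0 (by linarith) (by linarith)
  have hlow : ∀ j ≤ i, ∀ g ∈ C.L j, DT D R x g := by
    intro j hj g hg
    by_contra hc
    exact hb ⟨j, hj, g, hg, hc⟩
  have hpt : ∀ σ : U → Bool × Bool,
      ind (Bad C D (i + 1) (R ∩ stars σ) (ovr R (vals σ) x)) ≤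
      ∑ g ∈ C.L (i + 1), ind (¬ DT D (R ∩ stars σ) (ovr R (vals σ) x) g) := by
    intro σ
    by_cases hb : Bad C D (i + 1) (R ∩ stars σ) (ovr R (vals σ) x)
    · obtain ⟨j, hj, g, hg, hn⟩ := hb
      have hj1 : j = i + 1 := by
        rcases Nat.lt_or_ge j (i + 1) with h0 | h0
        · exfalso
          apply hn
          have h1 := (hlow j (by omega) g hg).restrict (R \ stars σ) Finset.sdiff_subset (vals σ)
          rw [Finset.sdiff_sdiff_self_left] at h1
          apply h1.congr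
          intro e he
          rw [Finset.mem_inter, not_and] at he
          by_cases heR : e ∈ R
          · rw [ovr_mem heR, ovr_mem (Finset.mem_sdiff.2 ⟨heR, he heR⟩)]
          · rw [ovr_not_mem heR, ovr_not_mem]
            intro hc
            exact heR (Finset.mem_sdiff.1 hc).1
        · omega
      subst hj1
      refine (ind_le_one _).trans ?_
      refine le_trans ?_ (Finset.single_le_sum (fun g _ => ind_nonneg _) hg)
      rw [ind, if_pos hn]
    · rw [ind, if_neg hb]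
      exact Finset.sum_nonneg fun g _ => ind_nonneg _
  refine (Ex_mono _ hlaw0 _ _ hpt).trans ?_
  rw [Ex_sum]
  have hterm : ∀ g ∈ C.L (i + 1), Ex (law γ ((1 - γ) / 2)) (fun σ : U → Bool × Bool =>
      ind (¬ DT D (R ∩ stars σ) (ovr R (vals σ) x) g)) ≤ 2 * (8 * D * γ) ^ D := by
    intro g hg
    obtain ⟨Ts, G, h1, h2, h3⟩ := Stage_gate D R x (C.kids i g)
      (fun f hf => hlow i (le_refl _) f (C.kids_mem i g f hf)) g (C.isAnd i g)
      (C.eval i hi g hg)
    have e8 : 4 * (D : ℝ) * γ / (1 / 2) = 8 * D * γ := by ring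
    have hsw := switching D Ts h1 G h2 (law γ ((1 - γ) / 2)) hlaw0
      (law_sum _ _) γ (1 / 2) (by simp only [law]; ring) (by norm_num) (by
        intro b
        cases b <;> simp only [law] <;> linarith) D (by rw [e8]; exact h)
    rw [e8] at hsw
    refine le_trans (Ex_mono _ hlaw0 _ _ fun σ => ?_) hsw
    by_cases hn : DT D (stars σ) (vals σ) G
    · have h4 := h3 D _ _ (Finset.inter_subset_left) (hn.subset (Finset.inter_subset_right (s₁ := R)))
      rw [ind, if_neg (not_not.2 h4)]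
      exact ind_nonneg _
    · refine (ind_le_one _).trans ?_
      rw [ind, if_pos hn]
  refine (Finset.sum_le_card_nsmul _ _ _ hterm).trans ?_
  rw [nsmul_eq_mul]
  apply mul_le_mul_of_nonneg_right
  · exact_mod_cast C.card_le (i + 1)
  · positivity

theorem bad_step {S d : ℕ} (C : Circ U S d) (i : ℕ) (hi : i + 1 ≤ d) (D : ℕ) (hD : 1 ≤ D)
    (Q a γ : ℝ) (hQ : 0 ≤ Q) (ha : 0 ≤ a) (hQa : Q + a ≤ 1) (hγ0 : 0 ≤ γ) (hγ1 : γ ≤ 1)
    (h : 8 * D * γ ≤ 1 / 2) :
    Ex (law (Q * γ) (a + Q * (1 - γ) / 2))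
        (fun σ : U → Bool × Bool => ind (Bad C D (i + 1) (stars σ) (vals σ))) ≤
      Ex (law Q a) (fun σ : U → Bool × Bool => ind (Bad C D i (stars σ) (vals σ))) +
        S * (2 * (8 * D * γ) ^ D) := by
  rw [Stage_law]
  rw [Ex_push (fun o : (Bool × Bool) × (Bool × Bool) =>
    law Q a o.1 * law γ ((1 - γ) / 2) o.2) Stage_phi, Ex_pair]
  have hlaw0 : ∀ o, 0 ≤ law Q a o := law_nonneg hQ ha hQa
  have hlaw0' : ∀ o, 0 ≤ law γ ((1 - γ) / 2) o :=
    law_nonneg hγ0 (by linarith) (by linarith)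
  have hc : Ex (law Q a) (fun σ : U → Bool × Bool => ind (Bad C D i (stars σ) (vals σ))) +
      S * (2 * (8 * D * γ) ^ D) = Ex (law Q a) (fun σ : U → Bool × Bool =>
        ind (Bad C D i (stars σ) (vals σ)) + S * (2 * (8 * D * γ) ^ D)) := by
    rw [Ex_add, Ex_const _ (law_sum _ _)]
  rw [hc]
  apply Ex_mono _ hlaw0
  intro σ
  have hst : ∀ σ' : U → Bool × Bool, stars (fun e => Stage_phi (σ e, σ' e)) =
      stars σ ∩ stars σ' := by
    intro σ'
    ext e
    simp only [stars, Finset.mem_inter, Finset.mem_filter, Finset.mem_univ, true_and, Stage_phi]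
    by_cases he : (σ e).1 = true <;> simp [he]
  have hva : ∀ σ' : U → Bool × Bool, vals (fun e => Stage_phi (σ e, σ' e)) =
      ovr (stars σ) (vals σ') (vals σ) := by
    intro σ'
    funext e
    simp only [stars, Finset.mem_filter, Finset.mem_univ, true_and, Stage_phi, vals, ovr]
    by_cases he : (σ e).1 = true <;> simp [he]
  simp only [hst, hva]
  by_cases hb : Bad C D i (stars σ) (vals σ)
  · have h1 : Ex (law γ ((1 - γ) / 2)) (fun σ' : U → Bool × Bool =>
        ind (Bad C D (i + 1) (stars σ ∩ stars σ') (ovr (stars σ) (vals σ') (vals σ)))) ≤ 1 := by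
      refine (Ex_mono _ hlaw0' _ (fun _ => 1) fun σ' => ind_le_one _).trans ?_
      rw [Ex_const _ (law_sum _ _)]
    rw [ind, if_pos hb]
    have : 0 ≤ (S : ℝ) * (2 * (8 * D * γ) ^ D) := by positivity
    linarith
  · rw [ind, if_neg hb, zero_add]
    exact Stage_inner C i hi D hD γ hγ0 hγ1 h _ _ hb

theorem Stage_final {S d : ℕ} (C : Circ U S d) (D : ℕ) (hD : 1 ≤ D) (θ a : ℝ)
    (hθ : 0 < θ) (ha : 0 < a) (ha1 : 4 * a ≤ 1) (h : 8 * D * θ ≤ 1) (i : ℕ) (hi : i + 1 ≤ d) :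
    Ex (law (a * θ ^ (2 * (i + 1))) (a + a * θ ^ 2 / 2 - a * θ ^ (2 * (i + 1)) / 2))
        (fun σ : U → Bool × Bool => ind (Bad C D (i + 1) (stars σ) (vals σ))) ≤
      ((i + 1 : ℕ) : ℝ) * S * (2 * θ ^ D) := by
  have hD1 : (1 : ℝ) ≤ D := by exact_mod_cast hD
  have hθ8 : 8 * θ ≤ 1 := by nlinarith
  have hθ1 : θ ≤ 1 := by linarith
  have hDθ : 8 * D * θ ^ 2 ≤ θ := by
    calc 8 * (D : ℝ) * θ ^ 2 = (8 * D * θ) * θ := by ring
      _ ≤ 1 * θ := mul_le_mul_of_nonneg_right h hθ.le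
      _ = θ := one_mul θ
  induction i with
  | zero =>
    have e1 : a + a * θ ^ 2 / 2 - a * θ ^ (2 * (0 + 1)) / 2 = a := by ring
    have e2 : a * θ ^ (2 * (0 + 1)) = a * θ ^ 2 := by ring
    have e3 : 4 * (D : ℝ) * (a * θ ^ 2) / a = 4 * D * θ ^ 2 := by
      field_simp
    rw [e1, e2]
    have hle : θ ^ 2 ≤ 1 := pow_le_one₀ hθ.le hθ1
    have hsq : 0 ≤ (D : ℝ) * θ ^ 2 := by positivity
    have h1 := bad_one C (by omega) D hD (a * θ ^ 2) a (by positivity) ha (by nlinarith)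
      (by rw [e3]; linarith)
    rw [e3] at h1
    refine h1.trans ?_
    have e4 : ((0 + 1 : ℕ) : ℝ) = 1 := by norm_num
    rw [e4, one_mul]
    have h2 : (4 * (D : ℝ) * θ ^ 2) ^ D ≤ θ ^ D := by
      apply pow_le_pow_left₀ (by positivity)
      linarith
    have hS : (0 : ℝ) ≤ S := Nat.cast_nonneg _
    nlinarith
  | succ i ih =>
    have ih' := ih (by omega)
    have hpow : θ ^ (2 * (i + 1)) ≤ 1 := pow_le_one₀ hθ.le hθ1
    have hpow2 : θ ^ (2 * (i + 1)) ≤ θ ^ 2 := pow_le_pow_of_le_one hθ.le hθ1 (by omega)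
    have hpow0 : 0 < θ ^ (2 * (i + 1)) := by positivity
    have hle : θ ^ 2 ≤ 1 := pow_le_one₀ hθ.le hθ1
    have hsq : 0 < θ ^ 2 := by positivity
    have ha2 : a * θ ^ (2 * (i + 1)) ≤ a := by nlinarith
    have ha3 : a * θ ^ (2 * (i + 1)) ≤ a * θ ^ 2 := mul_le_mul_of_nonneg_left hpow2 ha.le
    have ha4 : a * θ ^ 2 ≤ a := by nlinarith
    have ha5 : 0 < a * θ ^ (2 * (i + 1)) := by positivity
    have h1 := bad_step C (i + 1) hi D hD (a * θ ^ (2 * (i + 1)))
      (a + a * θ ^ 2 / 2 - a * θ ^ (2 * (i + 1)) / 2) (θ ^ 2) ha5.le (by linarith)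
      (by linarith) hsq.le hle (by linarith)
    have e1 : a * θ ^ (2 * (i + 1)) * θ ^ 2 = a * θ ^ (2 * (i + 1 + 1)) := by ring
    have e2 : a + a * θ ^ 2 / 2 - a * θ ^ (2 * (i + 1)) / 2 +
        a * θ ^ (2 * (i + 1)) * (1 - θ ^ 2) / 2 =
        a + a * θ ^ 2 / 2 - a * θ ^ (2 * (i + 1 + 1)) / 2 := by ring
    rw [e1, e2] at h1
    refine h1.trans ?_
    have h2 : (8 * (D : ℝ) * θ ^ 2) ^ D ≤ θ ^ D := pow_le_pow_left₀ (by positivity) hDθ _
    have hS : (0 : ℝ) ≤ S := Nat.cast_nonneg _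
    have h3 : (S : ℝ) * (2 * (8 * (D : ℝ) * θ ^ 2) ^ D) ≤ S * (2 * θ ^ D) := by
      apply mul_le_mul_of_nonneg_left _ hS
      linarith
    calc _ ≤ ((i + 1 : ℕ) : ℝ) * S * (2 * θ ^ D) + S * (2 * θ ^ D) := add_le_add ih' h3
      _ = ((i + 1 + 1 : ℕ) : ℝ) * S * (2 * θ ^ D) := by push_cast; ring

theorem bad_final {S d : ℕ} (C : Circ U S d) (hd : 1 ≤ d) (D : ℕ) (hD : 1 ≤ D) (θ a : ℝ)
    (hθ : 0 < θ) (ha : 0 < a) (ha1 : 4 * a ≤ 1) (h : 8 * D * θ ≤ 1) :
    Ex (law (a * θ ^ (2 * d)) (a + a * θ ^ 2 / 2 - a * θ ^ (2 * d) / 2))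
        (fun σ : U → Bool × Bool => ind (Bad C D d (stars σ) (vals σ))) ≤
      d * S * (2 * θ ^ D) := by
  obtain ⟨i, rfl⟩ : ∃ i, d = i + 1 := ⟨d - 1, by omega⟩
  exact Stage_final C D hD θ a hθ ha ha1 h i (le_refl _)

end Pool.Agent.ACG
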