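import Pool.Agent.ACG.Num
import Pool.Agent.ACG.Csp
import Pool.Agent.ACG.Plant
import Pool.Agent.ACG.Stage
import Pool.Agent.ACG.CircB

/-! Project ACG: lower bound for the planted problem. -/

set_option autoImplicit false

namespace Pool.Agent.ACG

open Finset Classical

theorem Low_card (t q : ℕ) : Fintype.card (Vr t q) = 3 * t * q ^ 3 := by
  simp [Vr, Fintype.card_prod, Fintype.card_fin, Fintype.card_fun]

theorem Low_theta (d q : ℕ) (hd : 1 ≤ d) (hq : 1 ≤ q) :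
    ∃ θ : ℝ, 0 < θ ∧ θ ^ (16 * d) * q = 1 := by
  have hq0 : (0 : ℝ) < q := by exact_mod_cast hq
  refine ⟨(q : ℝ) ^ (-(1 / (16 * d : ℝ))), Real.rpow_pos_of_pos hq0 _, ?_⟩
  rw [← Real.rpow_natCast, ← Real.rpow_mul hq0.le]
  have hd' : (d : ℝ) ≠ 0 := by positivity
  have : -(1 / (16 * (d : ℝ))) * ((16 * d : ℕ) : ℝ) = -1 := by
    push_cast
    field_simp
  rw [this, Real.rpow_neg_one, inv_mul_cancel₀ hq0.ne']

theorem csp_lower (d t q r : ℕ) (hd : 1 ≤ d) (ht : 1 ≤ t) (hr : 1 ≤ r)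
    (hrt : 60 * ((d + 1) * r) ≤ t) (hq : (800 * d * t) ^ (16 * d) ≤ q)
    (N : Fin (3 * t) → Fin 3 → Fin t) (hN : Expands N) (S : ℕ)
    (h : Computes S d (csp (q := q) N)) : q ^ r < S ^ (16 * d) := by
  by_contra hcon
  push Not at hcon
  obtain ⟨F, hF, hfF⟩ := h
  obtain ⟨C, hC⟩ := exists_circ hF
  have hf : csp (q := q) N ∈ C.L d := by rw [hC]; exact hfF
  have hdt : 1 ≤ 800 * d * t := Nat.mul_pos (Nat.mul_pos (by norm_num) hd) ht
  have hq1 : 1 ≤ q := le_trans (Nat.one_le_pow _ _ hdt) hq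
  have hq0 : (0 : ℝ) < q := by exact_mod_cast hq1
  obtain ⟨θ, hθ0, hθq⟩ := Low_theta d q hd hq1
  have hd1 : (1 : ℝ) ≤ d := by exact_mod_cast hd
  have ht1 : (1 : ℝ) ≤ t := by exact_mod_cast ht
  have h16 : 16 * d ≠ 0 := by omega
  have h800 : 800 * d * t * θ ≤ 1 := by
    rw [← pow_le_one_iff_of_nonneg (by positivity) h16, mul_pow]
    calc (800 * (d : ℝ) * t) ^ (16 * d) * θ ^ (16 * d) ≤ q * θ ^ (16 * d) := by
          apply mul_le_mul_of_nonneg_right _ (by positivity)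
          exact_mod_cast hq
      _ = 1 := by rw [mul_comm]; exact hθq
  have hθ1 : θ ≤ 1 / 800 := by
    have h1 : 800 * θ ≤ 800 * d * t * θ := by
      have : (1 : ℝ) ≤ d * t := one_le_mul_of_one_le_of_one_le hd1 ht1
      nlinarith
    linarith
  have hθle : θ ≤ 1 := by linarith
  have hSr : (S : ℝ) * θ ^ r ≤ 1 := by
    have e : (θ ^ r) ^ (16 * d) = (θ ^ (16 * d)) ^ r := by rw [← pow_mul, ← pow_mul, mul_comm]
    rw [← pow_le_one_iff_of_nonneg (by positivity) h16, mul_pow, e]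
    calc (S : ℝ) ^ (16 * d) * (θ ^ (16 * d)) ^ r ≤ (q : ℝ) ^ r * (θ ^ (16 * d)) ^ r := by
          apply mul_le_mul_of_nonneg_right _ (by positivity)
          exact_mod_cast hcon
      _ = 1 := by rw [← mul_pow, mul_comm, hθq, one_pow]
  have h3t : 3 * (t : ℝ) * θ ≤ 1 := by
    have : 3 * (t : ℝ) * θ ≤ 800 * d * t * θ := by
      have h1 : 3 * (t : ℝ) ≤ 800 * d * t := by nlinarith
      exact mul_le_mul_of_nonneg_right h1 hθ0.le
    linarith
  have hnn : ((3 * t * q ^ 3 : ℕ) : ℝ) * θ ^ (64 * d) ≤ 1 := by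
    have e : ((3 * t * q ^ 3 : ℕ) : ℝ) * θ ^ (64 * d) =
        3 * t * θ ^ (16 * d) * (θ ^ (16 * d) * q) ^ 3 := by
      push_cast
      ring
    rw [e, hθq, one_pow, mul_one]
    calc 3 * (t : ℝ) * θ ^ (16 * d) ≤ 3 * t * θ ^ 1 := by
          apply mul_le_mul_of_nonneg_left _ (by positivity)
          exact pow_le_pow_of_le_one hθ0.le hθle (by omega)
      _ ≤ 1 := by rw [pow_one]; exact h3t
  have hKr : (d + 1) * r ≤ t / 60 := by
    rw [Nat.le_div_iff_mul_le (by norm_num)]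
    linarith
  have hrK : r ≤ t / 60 := le_trans (by nlinarith) hKr
  have hKt : t / 60 ≤ t := Nat.div_le_self _ _
  have hD : 1 ≤ 100 * d * t := Nat.mul_pos (Nat.mul_pos (by norm_num) hd) ht
  -- the final law
  have ha0 : 0 < θ ^ (8 * d) := by positivity
  have ha1 : 4 * θ ^ (8 * d) ≤ 1 := by
    have : θ ^ (8 * d) ≤ θ ^ 1 := pow_le_pow_of_le_one hθ0.le hθle (by omega)
    rw [pow_one] at this
    linarith
  have hQe : θ ^ (8 * d) * θ ^ (2 * d) = θ ^ (10 * d) := by rw [← pow_add]; congr 1; ring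
  have h8D : 8 * ((100 * d * t : ℕ) : ℝ) * θ ≤ 1 := by
    push_cast
    calc 8 * (100 * (d : ℝ) * t) * θ = 800 * d * t * θ := by ring
      _ ≤ 1 := h800
  have hbad := bad_final C hd (100 * d * t) hD θ (θ ^ (8 * d)) hθ0 ha0 ha1 h8D
  obtain ⟨a', ha'⟩ : ∃ a' : ℝ, a' = θ ^ (8 * d) + θ ^ (8 * d) * θ ^ 2 / 2 -
    θ ^ (8 * d) * θ ^ (2 * d) / 2 := ⟨_, rfl⟩
  rw [← ha', hQe] at hbad
  have hθ2 : θ ^ (2 * d) ≤ θ ^ 2 := pow_le_pow_of_le_one hθ0.le hθle (by omega)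
  have hθ21 : θ ^ 2 ≤ 1 := pow_le_one₀ hθ0.le hθle
  have ha'0 : 0 ≤ a' := by
    rw [ha']
    nlinarith
  have hQ0 : 0 < θ ^ (10 * d) := by positivity
  have hsum : θ ^ (10 * d) / 2 + a' = θ ^ (8 * d) * (1 + θ ^ 2 / 2) := by
    rw [ha', ← hQe]; ring
  have hQa : θ ^ (10 * d) + a' ≤ 1 := by
    have h1 : θ ^ (10 * d) ≤ θ ^ (8 * d) := pow_le_pow_of_le_one hθ0.le hθle (by omega)
    nlinarith
  have hpl := planted C (csp (q := q) N) hf (fun y : Fin t → Fin q => cspY N y) (q : ℝ) hq0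
    (t / 60) (by
      intro V hV
      have := csp_spread N hN V (by omega)
      exact_mod_cast this) (100 * d * t) r hD hr hKr (θ ^ (10 * d)) a' hQ0 ha'0 hQa
    (d * S * (2 * θ ^ (100 * d * t))) (by positivity) hbad
  have hnum := numeric d t r (t / 60) S hd ht hr hrK hKt θ hθ0 h800 hSr
    ((3 * t * q ^ 3 : ℕ) : ℝ) (by positivity) hnn
  have h2q : 2 / ((q : ℝ) * θ ^ (10 * d)) = 2 * θ ^ (6 * d) := by
    rw [div_eq_iff (by positivity)]
    have : 2 * θ ^ (6 * d) * (q * θ ^ (10 * d)) = 2 * (θ ^ (16 * d) * q) := by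
      have e : 16 * d = 6 * d + 10 * d := by ring
      rw [e, pow_add]; ring
    rw [this, hθq, mul_one]
  rw [h2q, Low_card] at hpl
  have hcast : ((100 * d * t : ℕ) : ℝ) = 100 * d * t := by push_cast; ring
  rw [hcast] at hpl
  have hcard0 : (0 : ℝ) < Fintype.card (Fin t → Fin q) := by
    have : Nonempty (Fin t → Fin q) := ⟨fun _ => ⟨0, hq1⟩⟩
    exact_mod_cast Fintype.card_pos
  have hup := le_trans hpl (mul_le_mul_of_nonneg_left hnum hcard0.le)
  -- the other side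
  have hone : ∀ y : Fin t → Fin q, Ex (law (θ ^ (10 * d)) a')
      (fun σ : Vr t q → Bool × Bool => ind (csp N (vals σ) = false ∧
        csp N (swOn (vals σ) (cspY N y)) = true)) =
      1 - Ex (law (θ ^ (10 * d)) a')
        (fun σ : Vr t q → Bool × Bool => ind (csp N (vals σ) = true)) := by
    intro y
    have h1 := Ex_const (U := Vr t q) (law (θ ^ (10 * d)) a') (law_sum _ _) 1
    have h2 := Ex_add (law (θ ^ (10 * d)) a')
      (fun σ : Vr t q → Bool × Bool => ind (csp N (vals σ) = false ∧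
        csp N (swOn (vals σ) (cspY N y)) = true))
      (fun σ : Vr t q → Bool × Bool => ind (csp N (vals σ) = true))
    have h3 : (fun σ : Vr t q → Bool × Bool => ind (csp N (vals σ) = false ∧
        csp N (swOn (vals σ) (cspY N y)) = true) + ind (csp N (vals σ) = true)) =
        fun _ => (1 : ℝ) := by
      funext σ
      rw [csp_swOn]
      cases csp N (vals σ) <;> simp [ind]
    rw [h3, h1] at h2
    linarith
  have hsp := csp_sparse (q := q) N (θ ^ (10 * d)) a' hQ0.le ha'0 hQa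
  have hquart : (q : ℝ) ^ t * (a' + θ ^ (10 * d) / 2) ^ (3 * t) ≤ 1 / 4 := by
    rw [add_comm a', hsum]
    have e1 : (q : ℝ) ^ t * (θ ^ (8 * d) * (1 + θ ^ 2 / 2)) ^ (3 * t) =
        ((θ ^ (16 * d) * q) * θ ^ (8 * d) * (1 + θ ^ 2 / 2) ^ 3) ^ t := by
      have e : (θ ^ (16 * d) * q) * θ ^ (8 * d) * (1 + θ ^ 2 / 2) ^ 3 =
        q * (θ ^ (8 * d) * (1 + θ ^ 2 / 2)) ^ 3 := by ring
      rw [e, mul_pow (q : ℝ) ((θ ^ (8 * d) * (1 + θ ^ 2 / 2)) ^ 3) t, ← pow_mul]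
    rw [e1, hθq, one_mul]
    have h1 : θ ^ (8 * d) ≤ θ := by
      calc θ ^ (8 * d) ≤ θ ^ 1 := pow_le_pow_of_le_one hθ0.le hθle (by omega)
        _ = θ := pow_one _
    have h2 : (1 + θ ^ 2 / 2) ^ 3 ≤ 4 := by
      have : 1 + θ ^ 2 / 2 ≤ 3 / 2 := by linarith
      calc (1 + θ ^ 2 / 2) ^ 3 ≤ (3 / 2) ^ 3 := by gcongr
        _ ≤ 4 := by norm_num
    have h3 : θ ^ (8 * d) * (1 + θ ^ 2 / 2) ^ 3 ≤ 1 / 4 := by
      calc θ ^ (8 * d) * (1 + θ ^ 2 / 2) ^ 3 ≤ θ * 4 :=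
            mul_le_mul h1 h2 (by positivity) hθ0.le
        _ ≤ 1 / 4 := by linarith
    calc (θ ^ (8 * d) * (1 + θ ^ 2 / 2) ^ 3) ^ t ≤ (1 / 4) ^ t := by gcongr
      _ ≤ (1 / 4) ^ 1 := pow_le_pow_of_le_one (by norm_num) (by norm_num) ht
      _ = 1 / 4 := pow_one _
  have hlow : (Fintype.card (Fin t → Fin q) : ℝ) * (3 / 4) ≤
      ∑ y, Ex (law (θ ^ (10 * d)) a')
        (fun σ : Vr t q → Bool × Bool => ind (csp N (vals σ) = false ∧
          csp N (swOn (vals σ) (cspY N y)) = true)) := by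
    rw [Finset.sum_congr rfl fun y _ => hone y, Finset.sum_const, nsmul_eq_mul,
      Finset.card_univ]
    apply mul_le_mul_of_nonneg_left _ hcard0.le
    linarith
  have := le_trans hlow hup
  nlinarith

end Pool.Agent.ACG
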