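import Pool.Agent.ACG.Defs2

/-! Project ACG: the planted problem is easy with enough guesses. -/

set_option autoImplicit false

namespace Pool.Agent.ACG

open Finset Classical

/-- A literal of a guessed bit. -/
def Up_lit {V : Type} {m : ℕ} (p : Fin m × Bool) : Fn (V ⊕ Fin m) :=
  fun w => w (Sum.inr p.1) == p.2

theorem Up_isLit {V : Type} {m : ℕ} (p : Fin m × Bool) : IsLit (Up_lit (V := V) p) := by
  obtain ⟨i, b⟩ := p
  cases b
  · exact Or.inr (Or.inr ⟨Sum.inr i, fun x => by simp [Up_lit]⟩)
  · exact Or.inr (Or.inl ⟨Sum.inr i, fun x => by simp [Up_lit]⟩)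

/-- The clause of `e`. -/
noncomputable def Up_clause {t l : ℕ} (N : Fin (3 * t) → Fin 3 → Fin t)
    (E : (Fin l → Bool) ≃ Fin (2 ^ l)) (e : Vr t (2 ^ l)) : Fn (Vr t (2 ^ l) ⊕ Fin (t * l)) :=
  fun w => w (Sum.inl e) || decide (∃ p : Fin 3 × Fin l,
    Up_lit (finProdFinEquiv (N e.1 p.1, p.2), !(E.symm (e.2 p.1) p.2)) w = true)

theorem Up_clause_iff {t l : ℕ} (N : Fin (3 * t) → Fin 3 → Fin t)
    (E : (Fin l → Bool) ≃ Fin (2 ^ l)) (x : Vr t (2 ^ l) → Bool) (y : Fin (t * l) → Bool) :
    (∀ e, Up_clause N E e (Sum.elim x y) = true) ↔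
      ∀ j, x (j, fun i => E fun b => y (finProdFinEquiv (N j i, b))) = true := by
  constructor
  · intro h j
    have h1 := h (j, fun i => E fun b => y (finProdFinEquiv (N j i, b)))
    simp only [Up_clause, Up_lit, Sum.elim_inl, Sum.elim_inr, Equiv.symm_apply_apply,
      Bool.or_eq_true, decide_eq_true_eq] at h1
    rcases h1 with h1 | ⟨p, h1⟩
    · exact h1
    · exfalso
      revert h1
      cases y (finProdFinEquiv (N j p.1, p.2)) <;> simp
  · rintro h ⟨j, z⟩
    simp only [Up_clause, Up_lit, Sum.elim_inl, Sum.elim_inr, Bool.or_eq_true, decide_eq_true_eq]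
    by_cases hz : z = fun i => E fun b => y (finProdFinEquiv (N j i, b))
    · left
      rw [hz]
      exact h j
    · right
      obtain ⟨i, hi⟩ := Function.ne_iff.1 hz
      have h1 : E.symm (z i) ≠ fun b => y (finProdFinEquiv (N j i, b)) := by
        intro hc
        apply hi
        rw [← hc, Equiv.apply_symm_apply]
      obtain ⟨b, hb⟩ := Function.ne_iff.1 h1
      refine ⟨(i, b), ?_⟩
      revert hb
      dsimp only
      cases y (finProdFinEquiv (N j i, b)) <;> cases E.symm (z i) b <;> simp

theorem csp_upper (l t : ℕ) (N : Fin (3 * t) → Fin 3 → Fin t) :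
    GuessComputes (2 * (3 * t * (2 ^ l) ^ 3) + 1) 2 (t * l) (csp (q := 2 ^ l) N) := by
  have hcardV : Fintype.card (Vr t (2 ^ l)) = 3 * t * (2 ^ l) ^ 3 := by
    simp [Vr, Fintype.card_prod, Fintype.card_fin]
  obtain ⟨M, hM⟩ : ∃ M, M = 3 * t * (2 ^ l) ^ 3 := ⟨_, rfl⟩
  rw [← hM] at hcardV ⊢
  have htl : 2 * (t * l) ≤ M := by
    have h1 : l ≤ (2 ^ l) ^ 3 := by
      calc l ≤ 2 ^ l := Nat.lt_two_pow_self.le
        _ = (2 ^ l) ^ 1 := (pow_one _).symm
        _ ≤ (2 ^ l) ^ 3 := Nat.pow_le_pow_right (Nat.pow_pos (by norm_num)) (by norm_num)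
    rw [hM]
    calc 2 * (t * l) ≤ 3 * (t * l) := Nat.mul_le_mul_right _ (by norm_num)
      _ = 3 * t * l := by ring
      _ ≤ 3 * t * (2 ^ l) ^ 3 := Nat.mul_le_mul_left _ h1
  have E : (Fin l → Bool) ≃ Fin (2 ^ l) := Fintype.equivFinOfCardEq (by
    rw [Fintype.card_fun, Fintype.card_bool, Fintype.card_fin])
  obtain ⟨c, hc⟩ : ∃ c : Fn (Vr t (2 ^ l) ⊕ Fin (t * l)),
      c = fun w => decide (∀ e, Up_clause N E e w = true) := ⟨_, rfl⟩
  refine ⟨c, ⟨{c}, ?_, Finset.mem_singleton_self c⟩, ?_⟩
  · have h0 : Levels (2 * M + 1) 0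
        ((univ.image fun (e : Vr t (2 ^ l)) (w : Vr t (2 ^ l) ⊕ Fin (t * l) → Bool) =>
          w (Sum.inl e)) ∪ univ.image fun p : Fin (t * l) × Bool => Up_lit p) := by
      apply Levels.zero
      · intro f hf
        rw [Finset.mem_union, Finset.mem_image, Finset.mem_image] at hf
        rcases hf with ⟨e, -, rfl⟩ | ⟨p, -, rfl⟩
        · exact Or.inr (Or.inl ⟨Sum.inl e, fun x => rfl⟩)
        · exact Up_isLit p
      · refine (Finset.card_union_le _ _).trans ?_
        have h1 : (univ.image fun (e : Vr t (2 ^ l)) (w : Vr t (2 ^ l) ⊕ Fin (t * l) → Bool) =>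
          w (Sum.inl e)).card ≤ M := by
          refine Finset.card_image_le.trans ?_
          rw [Finset.card_univ, hcardV]
        have h2 : (univ.image fun p : Fin (t * l) × Bool =>
            Up_lit (V := Vr t (2 ^ l)) p).card ≤ 2 * (t * l) := by
          refine Finset.card_image_le.trans ?_
          rw [Finset.card_univ, Fintype.card_prod, Fintype.card_fin, Fintype.card_bool, mul_comm]
        omega
    have h1 : Levels (2 * M + 1) 1 (univ.image (Up_clause N E)) := by
      refine Levels.succ _ _ _ h0 ?_ ?_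
      · intro g hg
        rw [Finset.mem_image] at hg
        obtain ⟨e, -, rfl⟩ := hg
        refine ⟨{fun w => w (Sum.inl e)} ∪ univ.image fun p : Fin 3 × Fin l =>
          Up_lit (finProdFinEquiv (N e.1 p.1, p.2), !(E.symm (e.2 p.1) p.2)), ?_, Or.inl ?_⟩
        · apply Finset.union_subset_union
          · rw [Finset.singleton_subset_iff]
            exact Finset.mem_image_of_mem _ (Finset.mem_univ e)
          · intro f hf
            rw [Finset.mem_image] at hf
            obtain ⟨p, -, rfl⟩ := hf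
            exact Finset.mem_image_of_mem _ (Finset.mem_univ _)
        · intro w
          simp only [Up_clause, Bool.or_eq_true, decide_eq_true_eq, Finset.mem_union,
            Finset.mem_singleton, Finset.mem_image, Finset.mem_univ, true_and]
          constructor
          · rintro (h | ⟨p, h⟩)
            · exact ⟨_, Or.inl rfl, h⟩
            · exact ⟨_, Or.inr ⟨p, rfl⟩, h⟩
          · rintro ⟨_, rfl | ⟨p, rfl⟩, h⟩
            · exact Or.inl h
            · exact Or.inr ⟨p, h⟩
      · refine Finset.card_image_le.trans ?_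
        rw [Finset.card_univ, hcardV]
        omega
    refine Levels.succ _ _ _ h1 ?_ ?_
    · intro g hg
      rw [Finset.mem_singleton] at hg
      subst hg
      refine ⟨univ.image (Up_clause N E), Finset.Subset.refl _, Or.inr ?_⟩
      intro w
      rw [hc, decide_eq_true_eq]
      constructor
      · intro h f hf
        rw [Finset.mem_image] at hf
        obtain ⟨e, -, rfl⟩ := hf
        exact h e
      · intro h e
        exact h _ (Finset.mem_image_of_mem _ (Finset.mem_univ e))
    · rw [Finset.card_singleton]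
      omega
  · intro x
    rw [csp, decide_eq_true_eq]
    simp only [hc, decide_eq_true_eq, Up_clause_iff]
    constructor
    · rintro ⟨Y, hY⟩
      refine ⟨fun i => E.symm (Y (finProdFinEquiv.symm i).1) (finProdFinEquiv.symm i).2, ?_⟩
      intro j
      simp only [Equiv.symm_apply_apply, Equiv.apply_symm_apply]
      exact hY j
    · rintro ⟨y, hy⟩
      exact ⟨fun v => E fun b => y (finProdFinEquiv (v, b)), hy⟩

end Pool.Agent.ACG
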