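import Pool.Agent.ACG.Low
import Pool.Agent.ACG.Expander
import Pool.Agent.ACG.Up

/-! Project ACG: the final theorems. -/

set_option autoImplicit false

namespace Pool.Agent.ACG

open Finset Classical

theorem Main_const (n S g : ℕ) (hS : 1 ≤ S) :
    GuessComputes S 2 g (fun _ : Fin n → Bool => false) := by
  refine ⟨fun _ => false, ⟨{fun _ => false}, ?_, Finset.mem_singleton_self _⟩, ?_⟩
  · have h0 : Levels (U := Fin n ⊕ Fin g) S 0 {fun _ => false} := by
      apply Levels.zero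
      · intro f hf
        rw [Finset.mem_singleton] at hf
        exact Or.inl ⟨false, fun x => by rw [hf]⟩
      · simpa using hS
    have hN : NextLevel ({fun _ => false} : Finset (Fn (Fin n ⊕ Fin g))) {fun _ => false} := by
      intro g' hg'
      rw [Finset.mem_singleton] at hg'
      refine ⟨{fun _ => false}, Finset.Subset.refl _, Or.inl fun x => ?_⟩
      rw [hg']
      simp
    exact Levels.succ _ _ _ (Levels.succ _ _ _ h0 hN (by simpa using hS)) hN (by simpa using hS)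
  · intro x
    simp

theorem Main_exists (n G : ℕ) : ∃ f : Fn (Fin n), GuessComputes (2 * n + 1) 2 G f ∧
    (3 * (G / (Nat.log 2 n / 4)) * (2 ^ (Nat.log 2 n / 4)) ^ 3 ≤ n →
      ∃ N : Fin (3 * (G / (Nat.log 2 n / 4))) → Fin 3 → Fin (G / (Nat.log 2 n / 4)), Expands N ∧
        ∀ S d g, GuessComputes S d g f →
          GuessComputes S d g (csp (q := 2 ^ (Nat.log 2 n / 4)) N)) := by
  generalize Nat.log 2 n / 4 = l
  by_cases hfit : 3 * (G / l) * (2 ^ l) ^ 3 ≤ n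
  · obtain ⟨N, hN⟩ := expander (G / l)
    have hc : Fintype.card (Vr (G / l) (2 ^ l)) ≤ Fintype.card (Fin n) := by
      have : Fintype.card (Vr (G / l) (2 ^ l)) = 3 * (G / l) * (2 ^ l) ^ 3 := by
        simp [Vr, Fintype.card_prod, Fintype.card_fin]
      rw [this, Fintype.card_fin]
      exact hfit
    obtain ⟨emb⟩ := Function.Embedding.nonempty_of_card_le hc
    refine ⟨fun x => csp N (fun e => x (emb e)), ?_, fun _ => ⟨N, hN, ?_⟩⟩
    · have h1 := (csp_upper l (G / l) N).subst (U := Fin n) (fun e => Sum.inl (emb e))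
      exact h1.mono (by omega) (Nat.div_mul_le_self _ _)
    · intro S d g h
      have h1 := h.subst (U := Vr (G / l) (2 ^ l)) (fun i =>
        if h : ∃ e, emb e = i then Sum.inl h.choose else Sum.inr false)
      have e : (fun x : Vr (G / l) (2 ^ l) → Bool => csp N (fun e => Sum.elim x id
          ((fun i => if h : ∃ e, emb e = i then Sum.inl h.choose else Sum.inr false)
            (emb e)))) = csp N := by
        funext x
        congr 1
        funext e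
        have hex : ∃ e', emb e' = emb e := ⟨e, rfl⟩
        have : hex.choose = e := emb.injective hex.choose_spec
        simp only [dif_pos hex, Sum.elim_inl, this]
      rw [← e]
      exact h1
  · exact ⟨fun _ => false, Main_const n _ G (by omega), fun h => absurd h hfit⟩

theorem Main_num (n d G : ℕ) (hd : 1 ≤ d) (hG : 1 ≤ G)
    (h1 : 12000 * d ^ 2 * Nat.log 2 n ≤ G) (h2 : (12000 * d * G) ^ (12000 * d) ≤ n) :
    1 ≤ Nat.log 2 n / 4 ∧ 3 * (G / (Nat.log 2 n / 4)) * (2 ^ (Nat.log 2 n / 4)) ^ 3 ≤ n ∧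
      (1600 * d * G) ^ (32 * d) ≤ 2 ^ (Nat.log 2 n / 4) ∧
      60 * (d + 2) ≤ G / (Nat.log 2 n / 4) := by
  have hbase : 12000 ≤ 12000 * d * G := by
    have : 1 ≤ d * G := Nat.mul_pos hd hG
    nlinarith
  have hn : 2 ^ 12000 ≤ n := by
    calc 2 ^ 12000 ≤ 2 ^ (12000 * d) := Nat.pow_le_pow_right (by norm_num) (by linarith)
      _ ≤ (12000 * d * G) ^ (12000 * d) := Nat.pow_le_pow_left (by omega) _
      _ ≤ n := h2
  have hn0 : n ≠ 0 := (lt_of_lt_of_le (Nat.pow_pos (by norm_num)) hn).ne'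
  have hL : 12000 ≤ Nat.log 2 n := Nat.le_log_of_pow_le (by norm_num) hn
  obtain ⟨L, hLd⟩ : ∃ L, L = Nat.log 2 n := ⟨_, rfl⟩
  rw [← hLd] at hL h1 ⊢
  have hlt : n < 2 ^ (L + 1) := by rw [hLd]; exact Nat.lt_pow_succ_log_self (by norm_num) n
  have hle : 2 ^ L ≤ n := by rw [hLd]; exact Nat.pow_log_le_self 2 hn0
  obtain ⟨l, hl⟩ : ∃ l, l = L / 4 := ⟨_, rfl⟩
  rw [← hl]
  have hl1 : 1 ≤ l := by omega
  have hkey : (1600 * d * G) ^ (32 * d) < 2 ^ l := by
    apply lt_of_pow_lt_pow_left₀ 8 (by positivity)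
    calc ((1600 * d * G) ^ (32 * d)) ^ 8 = (1600 * d * G) ^ (256 * d) := by
          rw [← pow_mul]; congr 1; ring
      _ ≤ (12000 * d * G) ^ (256 * d) := by
          apply Nat.pow_le_pow_left
          have : 1600 * d * G ≤ 12000 * d * G := by
            rw [mul_assoc, mul_assoc]
            exact Nat.mul_le_mul_right _ (by norm_num)
          exact this
      _ ≤ (12000 * d * G) ^ (12000 * d) := Nat.pow_le_pow_right (by omega) (by omega)
      _ ≤ n := h2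
      _ < 2 ^ (L + 1) := hlt
      _ ≤ (2 ^ l) ^ 8 := by
          rw [← pow_mul]
          exact Nat.pow_le_pow_right (by norm_num) (by omega)
  have h3G : 3 * G ≤ 2 ^ l := by
    calc 3 * G ≤ (1600 * d * G) ^ 1 := by
          rw [pow_one]
          have : 3 * G ≤ 1600 * (d * G) := by nlinarith
          linarith
      _ ≤ (1600 * d * G) ^ (32 * d) := by
          apply Nat.pow_le_pow_right _ (by omega)
          have : 1 ≤ d * G := Nat.mul_pos hd hG
          nlinarith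
      _ ≤ 2 ^ l := hkey.le
  refine ⟨hl1, ?_, hkey.le, ?_⟩
  · calc 3 * (G / l) * (2 ^ l) ^ 3 ≤ 2 ^ l * (2 ^ l) ^ 3 := by
          apply Nat.mul_le_mul_right
          have : G / l ≤ G := Nat.div_le_self _ _
          omega
      _ = 2 ^ (4 * l) := by rw [← pow_succ', ← pow_mul]; congr 1; ring
      _ ≤ 2 ^ L := Nat.pow_le_pow_right (by norm_num) (by omega)
      _ ≤ n := hle
  · rw [Nat.le_div_iff_mul_le hl1]
    have h5 : l ≤ L := by omega
    have h6 : 60 * (d + 2) ≤ 12000 * d ^ 2 := by nlinarith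
    calc 60 * (d + 2) * l ≤ 12000 * d ^ 2 * L := Nat.mul_le_mul h6 h5
      _ ≤ G := h1

theorem main :
    ∃ f : (n G : ℕ) → Fn (Fin n),
      (∀ n G, GuessComputes (2 * n + 1) 2 G (f n G)) ∧
      ∃ C : ℕ, ∀ n d G : ℕ, 1 ≤ d → C * d ^ 2 * Nat.log 2 n ≤ G → (C * d * G) ^ (C * d) ≤ n →
        ∀ S g : ℕ, GuessComputes S d g (f n G) → 2 ^ G ≤ (2 ^ g * S) ^ (C * d ^ 2) := by
  choose f hf1 hf2 using Main_exists
  refine ⟨f, hf1, 12000, ?_⟩
  intro n d G hd h1 h2 S g hcomp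
  have hpos : 1 ≤ 2 ^ g * S := hcomp.computes.pos
  rcases Nat.eq_zero_or_pos G with hG | hG
  · subst hG
    rw [pow_zero]
    exact Nat.one_le_pow _ _ hpos
  obtain ⟨hl, hfit, hkey, ht⟩ := Main_num n d G hd hG h1 h2
  obtain ⟨N, hN, hred⟩ := hf2 n G hfit
  have hcsp := (hred S d g hcomp).computes
  obtain ⟨l, hld⟩ : ∃ l, l = Nat.log 2 n / 4 := ⟨_, rfl⟩
  revert N
  rw [← hld] at hl hkey ht ⊢
  intro N hN _ hcsp
  obtain ⟨t, htd⟩ : ∃ t, t = G / l := ⟨_, rfl⟩
  rw [← htd] at ht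
  have htG : t ≤ G := by rw [htd]; exact Nat.div_le_self _ _
  have ht1 : 1 ≤ t := by omega
  obtain ⟨r, hrd⟩ : ∃ r, r = t / (60 * (d + 2)) := ⟨_, rfl⟩
  have hr1 : 1 ≤ r := by
    rw [hrd, Nat.le_div_iff_mul_le (by omega)]
    omega
  have hrt : r * (60 * (d + 2)) ≤ t := by rw [hrd]; exact Nat.div_mul_le_self _ _
  have hrt' : t < 60 * (d + 2) * (r + 1) := by
    rw [hrd]; exact Nat.lt_mul_div_succ _ (by omega)
  have hGt : G < l * (t + 1) := by
    rw [htd]; exact Nat.lt_mul_div_succ _ hl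
  have hq : (800 * (d + 1) * t) ^ (16 * (d + 1)) ≤ 2 ^ l := by
    refine le_trans ?_ hkey
    calc (800 * (d + 1) * t) ^ (16 * (d + 1)) ≤ (1600 * d * G) ^ (16 * (d + 1)) := by
          apply Nat.pow_le_pow_left
          apply Nat.mul_le_mul _ htG
          omega
      _ ≤ (1600 * d * G) ^ (32 * d) := by
          apply Nat.pow_le_pow_right _ (by omega)
          have : 1 ≤ d * G := Nat.mul_pos hd hG
          nlinarith
  subst htd
  have hlow := csp_lower (d + 1) (G / l) (2 ^ l) r (by omega) ht1 hr1 (by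
    calc 60 * ((d + 1 + 1) * r) = r * (60 * (d + 2)) := by ring
      _ ≤ G / l := hrt) hq N hN (2 ^ g * S) hcsp
  -- conclusion
  have hM : G ≤ l * r * (120 * (d + 2)) := by
    have h3 : G / l + 1 ≤ 120 * (d + 2) * r := by nlinarith
    calc G ≤ l * (G / l + 1) := hGt.le
      _ ≤ l * (120 * (d + 2) * r) := Nat.mul_le_mul_left _ h3
      _ = l * r * (120 * (d + 2)) := by ring
  calc 2 ^ G ≤ 2 ^ (l * r * (120 * (d + 2))) := Nat.pow_le_pow_right (by norm_num) hM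
    _ = ((2 ^ l) ^ r) ^ (120 * (d + 2)) := by rw [← pow_mul, ← pow_mul]; congr 1; ring
    _ ≤ ((2 ^ g * S) ^ (16 * (d + 1))) ^ (120 * (d + 2)) := Nat.pow_le_pow_left hlow.le _
    _ = (2 ^ g * S) ^ (16 * (d + 1) * (120 * (d + 2))) := by rw [← pow_mul]
    _ ≤ (2 ^ g * S) ^ (12000 * d ^ 2) := by
        apply Nat.pow_le_pow_right hpos
        nlinarith

/-- One more level. -/
theorem Main_succ {U : Type} [Fintype U] [DecidableEq U] {S d g : ℕ} {f : Fn U}
    (h : GuessComputes S d g f) : GuessComputes S (d + 1) g f := by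
  obtain ⟨c, ⟨F, hF, hcF⟩, hc⟩ := h
  refine ⟨c, ⟨F, ?_, hcF⟩, hc⟩
  have hS : F.card ≤ S := by
    cases hF with
    | zero _ _ h => exact h
    | succ _ _ _ _ _ h => exact h
  refine Levels.succ _ _ _ hF ?_ hS
  intro g' hg'
  refine ⟨{g'}, Finset.singleton_subset_iff.2 hg', Or.inl fun x => ?_⟩
  simp

theorem Main_poly (m K : ℕ) : ∃ L₀ : ℕ, ∀ L ≥ L₀, m * L ^ K ≤ 2 ^ L := by
  have h := (tendsto_pow_const_div_const_pow_of_one_lt K (r := 2) (by norm_num)).eventually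
    (gt_mem_nhds (show (0 : ℝ) < 1 / (m + 1) by positivity))
  obtain ⟨L₀, hL⟩ := Filter.eventually_atTop.1 h
  refine ⟨L₀, fun L hLL => ?_⟩
  have h1 := hL L hLL
  have h2 : (0 : ℝ) < 2 ^ L := by positivity
  rw [div_lt_div_iff₀ h2 (by positivity)] at h1
  have h3 : (m : ℝ) * (L : ℝ) ^ K ≤ 2 ^ L := by
    have : (0 : ℝ) ≤ (L : ℝ) ^ K := by positivity
    nlinarith
  exact_mod_cast h3

theorem hierarchy (k : ℕ) (hk : 1 ≤ k) :
    ∃ f : (n : ℕ) → Fn (Fin n),
      (∀ n, GuessComputes (2 * n + 1) 2 (Nat.log 2 n ^ (k + 1)) (f n)) ∧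
      ∀ d A : ℕ, ∃ n₀, ∀ n ≥ n₀,
        ¬ GuessComputes (2 ^ (A * Nat.log 2 n ^ k)) d (A * Nat.log 2 n ^ k) (f n) := by
  obtain ⟨f, hf, C, hC⟩ := main
  refine ⟨fun n => f n (Nat.log 2 n ^ (k + 1)), fun n => hf n _, ?_⟩
  intro d A
  obtain ⟨L₀, hL₀⟩ := Main_poly ((C * (d + 1)) ^ (C * (d + 1))) ((k + 1) * (C * (d + 1)))
  refine ⟨2 ^ (L₀ + 2 * A * (C * (d + 1) ^ 2) + C * (d + 1) ^ 2 + 1), fun n hn hcomp => ?_⟩
  have hn0 : n ≠ 0 := (lt_of_lt_of_le (Nat.pow_pos (by norm_num)) hn).ne'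
  have hL : L₀ + 2 * A * (C * (d + 1) ^ 2) + C * (d + 1) ^ 2 + 1 ≤ Nat.log 2 n :=
    Nat.le_log_of_pow_le (by norm_num) hn
  have hle : 2 ^ Nat.log 2 n ≤ n := Nat.pow_log_le_self 2 hn0
  obtain ⟨L, hLd⟩ : ∃ L, L = Nat.log 2 n := ⟨_, rfl⟩
  rw [← hLd] at hL hle hcomp
  have hL1 : 1 ≤ L := by omega
  have hmain := hC n (d + 1) (L ^ (k + 1)) (by omega) (by
    rw [← hLd, pow_succ]
    have h1 : C * (d + 1) ^ 2 ≤ L ^ k := by
      calc C * (d + 1) ^ 2 ≤ L ^ 1 := by rw [pow_one]; omega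
        _ ≤ L ^ k := Nat.pow_le_pow_right hL1 hk
    exact Nat.mul_le_mul_right _ h1) (by
    calc (C * (d + 1) * L ^ (k + 1)) ^ (C * (d + 1)) =
          (C * (d + 1)) ^ (C * (d + 1)) * L ^ ((k + 1) * (C * (d + 1))) := by
          rw [mul_pow, ← pow_mul]
      _ ≤ 2 ^ L := hL₀ L (by omega)
      _ ≤ n := hle) (2 ^ (A * L ^ k)) (A * L ^ k) (by
    have := Main_succ hcomp
    beta_reduce at this
    rw [← hLd] at this
    exact this)
  have h2 : 2 ^ L ^ (k + 1) ≤ 2 ^ (2 * A * (C * (d + 1) ^ 2) * L ^ k) := by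
    calc 2 ^ L ^ (k + 1) ≤ (2 ^ (A * L ^ k) * 2 ^ (A * L ^ k)) ^ (C * (d + 1) ^ 2) := hmain
      _ = 2 ^ (2 * A * (C * (d + 1) ^ 2) * L ^ k) := by
          rw [← pow_add, ← pow_mul]; congr 1; ring
  have h3 : L ^ (k + 1) ≤ 2 * A * (C * (d + 1) ^ 2) * L ^ k :=
    (Nat.pow_le_pow_iff_right (by norm_num)).1 h2
  rw [pow_succ, mul_comm] at h3
  have h4 : L ≤ 2 * A * (C * (d + 1) ^ 2) :=
    Nat.le_of_mul_le_mul_right h3 (Nat.pow_pos hL1)
  omega

end Pool.Agent.ACG
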