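import Mathlib

/-! # The model: constant depth circuits with guessed bits

A circuit is given by the set of the Boolean functions computed by its gates. Inputs and negations
are free, OR and AND gates have unbounded fan-in. -/

set_option autoImplicit false

namespace Pool.Agent.ACG

/-- Boolean functions of the variables `U`. -/
abbrev Fn (U : Type) := (U → Bool) → Bool

/-- Inputs: constants, variables and negated variables. -/
def IsLit {U : Type} (f : Fn U) : Prop :=
  (∃ b, ∀ x, f x = b) ∨ (∃ e, ∀ x, f x = x e) ∨ (∃ e, ∀ x, f x = !(x e))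

/-- `f` is computed by a gate of a circuit with at most `S` gates and depth at most `d`:
every gate `g` has a level `lev g < d` and is the OR or the AND of any number of inputs, gates
of smaller level and negations of gates of smaller level. -/
def Circuit {U : Type} (S d : ℕ) (f : Fn U) : Prop :=
  ∃ (G : Finset (Fn U)) (lev : Fn U → ℕ), G.card ≤ S ∧ f ∈ G ∧ ∀ g ∈ G, lev g < d ∧
    ∃ H : Finset (Fn U),
      (∀ h ∈ H, IsLit h ∨ ∃ g' ∈ G, lev g' < lev g ∧ (h = g' ∨ h = fun x => !g' x)) ∧
      ((∀ x, g x = true ↔ ∃ h ∈ H, h x = true) ∨ (∀ x, g x = true ↔ ∀ h ∈ H, h x = true))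

/-- `f` is computed by such a circuit with `g` guessed bits: `f x = 1` if and only if the circuit
accepts `x` and some guess `y` (it can read the bits of `x` and of `y` as often as it likes). -/
def Guess {U : Type} (S d g : ℕ) (f : Fn U) : Prop :=
  ∃ c : Fn (U ⊕ Fin g), Circuit S d c ∧
    ∀ x, f x = true ↔ ∃ y : Fin g → Bool, c (Sum.elim x y) = true

end Pool.Agent.ACG
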