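import Mathlib

/-! # Project ACG: the numerical estimate -/

set_option autoImplicit false

namespace Pool.Agent.ACG

open Finset Classical

theorem Num_geom (r K : ℕ) (hr : 1 ≤ r) : ∑ k ∈ Icc r K, (1 / 16 : ℝ) ^ k ≤ 1 / 15 := by
  have h : ∀ m : ℕ, ∑ k ∈ Icc 1 m, (1 / 16 : ℝ) ^ k ≤ 1 / 15 - 1 / 15 * (1 / 16) ^ m := by
    intro m
    induction m with
    | zero => simp
    | succ m ih =>
      rw [Finset.sum_Icc_succ_top (by omega)]
      have : (1 / 16 : ℝ) ^ (m + 1) = (1 / 16) ^ m * (1 / 16) := pow_succ _ _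
      linarith
  have h1 : ∑ k ∈ Icc r K, (1 / 16 : ℝ) ^ k ≤ ∑ k ∈ Icc 1 K, (1 / 16 : ℝ) ^ k :=
    Finset.sum_le_sum_of_subset_of_nonneg (Finset.Icc_subset_Icc_left hr)
      fun k _ _ => by positivity
  have h2 := h K
  have h3 : (0 : ℝ) < (1 / 16) ^ K := by positivity
  linarith

theorem numeric (d t r K S : ℕ) (hd : 1 ≤ d) (ht : 1 ≤ t) (hr : 1 ≤ r) (hrK : r ≤ K)
    (hKt : K ≤ t) (θ : ℝ) (hθ0 : 0 < θ) (hθ : 800 * d * t * θ ≤ 1) (hS : (S : ℝ) * θ ^ r ≤ 1)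
    (n : ℝ) (hn0 : 0 ≤ n) (hn : n * θ ^ (64 * d) ≤ 1) :
    ∑ k ∈ Icc 1 r, (2 * θ ^ (6 * d)) ^ k *
        ((100 * d * t : ℝ) ^ k + n ^ k * (d * S * (2 * θ ^ (100 * d * t)))) +
      ∑ k ∈ Icc r K, (2 * θ ^ (6 * d)) ^ k *
        (((S : ℝ) + k + 2) ^ d * (2 * (100 * d * t)) ^ k +
          n ^ k * (d * S * (2 * θ ^ (100 * d * t)))) ≤ 1 / 2 := by
  have hd' : (1 : ℝ) ≤ d := by exact_mod_cast hd
  have ht' : (1 : ℝ) ≤ t := by exact_mod_cast ht
  have hdt : (1 : ℝ) ≤ d * t := one_le_mul_of_one_le_of_one_le hd' ht'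
  have hdtd : (d : ℝ) ≤ d * t := le_mul_of_one_le_right (by linarith) ht'
  have hdtt : (t : ℝ) ≤ d * t := le_mul_of_one_le_left (by linarith) hd'
  have hdtθ : (d : ℝ) * t * θ ≤ 1 / 800 := by nlinarith
  have hθ1 : θ ≤ 1 / 800 := by nlinarith
  have hθd : (d : ℝ) * θ ≤ 1 / 800 := by nlinarith
  have hθt : (t : ℝ) * θ ≤ 1 / 800 := by nlinarith
  have hθle : θ ≤ 1 := by linarith
  have hpow1 : ∀ m : ℕ, 1 ≤ m → θ ^ m ≤ θ := fun m hm => by
    calc θ ^ m ≤ θ ^ 1 := pow_le_pow_of_le_one hθ0.le hθle hm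
      _ = θ := pow_one θ
  have hpow2 : ∀ m : ℕ, 2 ≤ m → θ ^ m ≤ θ ^ 2 := fun m hm =>
    pow_le_pow_of_le_one hθ0.le hθle hm
  -- the main terms of the first sum
  have hA : ∀ k : ℕ, (2 * θ ^ (6 * d)) ^ k * (100 * d * t : ℝ) ^ k ≤ (1 / 16) ^ k := by
    intro k
    rw [← mul_pow]
    refine pow_le_pow_left₀ (by positivity) ?_ k
    have h := hpow2 (6 * d) (by omega)
    have h1 : 2 * θ ^ (6 * d) * (100 * d * t : ℝ) ≤ 2 * θ ^ 2 * (100 * d * t) :=
      mul_le_mul_of_nonneg_right (by linarith) (by positivity)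
    have h2 : 2 * θ ^ 2 * (100 * d * t : ℝ) = 200 * (d * t * θ) * θ := by ring
    have h3 : 200 * ((d : ℝ) * t * θ) * θ ≤ 200 * (1 / 800) * θ :=
      mul_le_mul_of_nonneg_right (by linarith) hθ0.le
    linarith
  -- the error terms
  have hB : ∀ k : ℕ, k ≤ t → (2 * θ ^ (6 * d)) ^ k *
      (n ^ k * (d * S * (2 * θ ^ (100 * d * t)))) ≤ (1 / 16) ^ k := by
    intro k hk
    have hrt : r ≤ t := hrK.trans hKt
    have hdk : 64 * d * k ≤ 64 * d * t := Nat.mul_le_mul_left _ hk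
    have hrd : r ≤ d * t := hrt.trans (Nat.le_mul_of_pos_left t hd)
    have h1 : 1 ≤ d * t := Nat.mul_pos hd ht
    obtain ⟨e, he⟩ : ∃ e, 100 * d * t = 64 * d * k + r + (e + 1) := by
      refine ⟨100 * d * t - (64 * d * k + r) - 1, ?_⟩
      have h2 : 64 * d * t = 64 * (d * t) := by ring
      have h3 : 100 * d * t = 100 * (d * t) := by ring
      omega
    have h4 : n ^ k * (S * θ ^ (100 * d * t)) ≤ θ := by
      have h5 : n ^ k * (S * θ ^ (100 * d * t)) =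
          (n * θ ^ (64 * d)) ^ k * (S * θ ^ r) * θ ^ (e + 1) := by
        rw [he, pow_add, pow_add, pow_mul, mul_pow]
        ring
      rw [h5]
      have h6 : (n * θ ^ (64 * d)) ^ k ≤ 1 := pow_le_one₀ (by positivity) hn
      have h7 : (n * θ ^ (64 * d)) ^ k * (S * θ ^ r) ≤ 1 :=
        mul_le_one₀ h6 (by positivity) hS
      calc (n * θ ^ (64 * d)) ^ k * (S * θ ^ r) * θ ^ (e + 1) ≤ 1 * θ ^ (e + 1) :=
            mul_le_mul_of_nonneg_right h7 (by positivity)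
        _ = θ ^ (e + 1) := one_mul _
        _ ≤ θ := hpow1 _ (by omega)
    have h8 : n ^ k * (d * S * (2 * θ ^ (100 * d * t))) ≤ 1 := by
      have h9 : n ^ k * (d * S * (2 * θ ^ (100 * d * t))) =
          2 * d * (n ^ k * (S * θ ^ (100 * d * t))) := by ring
      rw [h9]
      have h10 : 2 * (d : ℝ) * (n ^ k * (S * θ ^ (100 * d * t))) ≤ 2 * d * θ :=
        mul_le_mul_of_nonneg_left h4 (by positivity)
      linarith
    have h11 : (2 * θ ^ (6 * d)) ^ k ≤ (1 / 16) ^ k := by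
      refine pow_le_pow_left₀ (by positivity) ?_ k
      have := hpow1 (6 * d) (by omega)
      linarith
    calc (2 * θ ^ (6 * d)) ^ k * (n ^ k * (d * S * (2 * θ ^ (100 * d * t))))
        ≤ (1 / 16) ^ k * 1 := mul_le_mul h11 h8 (by positivity) (by positivity)
      _ = (1 / 16) ^ k := mul_one _
  -- the main terms of the second sum
  have hC : ∀ k : ℕ, r ≤ k → k ≤ t → (2 * θ ^ (6 * d)) ^ k *
      (((S : ℝ) + k + 2) ^ d * (2 * (100 * d * t)) ^ k) ≤ (1 / 16) ^ k := by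
    intro k hrk hk
    have hk' : (k : ℝ) ≤ t := by exact_mod_cast hk
    have h1 : ((S : ℝ) + k + 2) * θ ^ (2 * k) ≤ 1 := by
      obtain ⟨e, he⟩ : ∃ e, 2 * k = r + (e + 1) := ⟨2 * k - r - 1, by omega⟩
      have h2 : (S : ℝ) * θ ^ (2 * k) ≤ θ := by
        rw [he, pow_add, ← mul_assoc]
        calc (S : ℝ) * θ ^ r * θ ^ (e + 1) ≤ 1 * θ ^ (e + 1) :=
              mul_le_mul_of_nonneg_right hS (by positivity)
          _ = θ ^ (e + 1) := one_mul _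
          _ ≤ θ := hpow1 _ (by omega)
      have h3 : ((k : ℝ) + 2) * θ ^ (2 * k) ≤ 3 * (t * θ) := by
        calc ((k : ℝ) + 2) * θ ^ (2 * k) ≤ (3 * t) * θ :=
              mul_le_mul (by linarith) (hpow1 _ (by omega)) (by positivity) (by positivity)
          _ = 3 * (t * θ) := by ring
      have h4 : ((S : ℝ) + k + 2) * θ ^ (2 * k) =
          S * θ ^ (2 * k) + ((k : ℝ) + 2) * θ ^ (2 * k) := by ring
      rw [h4]
      linarith
    have h5 : 400 * ((d : ℝ) * t) * θ ^ (4 * d) ≤ 1 / 16 := by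
      have h := hpow2 (4 * d) (by omega)
      have h6 : 400 * ((d : ℝ) * t) * θ ^ (4 * d) ≤ 400 * ((d : ℝ) * t) * θ ^ 2 :=
        mul_le_mul_of_nonneg_left h (by positivity)
      have h7 : 400 * ((d : ℝ) * t) * θ ^ 2 = 400 * (d * t * θ) * θ := by ring
      have h8 : 400 * ((d : ℝ) * t * θ) * θ ≤ 400 * (1 / 800) * θ :=
        mul_le_mul_of_nonneg_right (by linarith) hθ0.le
      linarith
    have h9 : (2 * θ ^ (6 * d)) ^ k * (((S : ℝ) + k + 2) ^ d * (2 * (100 * d * t)) ^ k) =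
        (((S : ℝ) + k + 2) * θ ^ (2 * k)) ^ d * (400 * ((d : ℝ) * t) * θ ^ (4 * d)) ^ k := by
      have h10 : θ ^ (6 * d * k) = θ ^ (2 * k * d) * θ ^ (4 * d * k) := by
        rw [← pow_add]
        congr 1
        ring
      rw [mul_pow 2, mul_pow ((S : ℝ) + k + 2), mul_pow (400 * ((d : ℝ) * t)),
        ← pow_mul, ← pow_mul, ← pow_mul, h10]
      have h11 : (400 * ((d : ℝ) * t)) ^ k = 2 ^ k * (2 * (100 * d * t)) ^ k := by
        rw [← mul_pow]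
        congr 1
        ring
      rw [h11]
      ring
    rw [h9]
    have h12 : (((S : ℝ) + k + 2) * θ ^ (2 * k)) ^ d ≤ 1 := pow_le_one₀ (by positivity) h1
    have h13 : (400 * ((d : ℝ) * t) * θ ^ (4 * d)) ^ k ≤ (1 / 16) ^ k :=
      pow_le_pow_left₀ (by positivity) h5 k
    calc (((S : ℝ) + k + 2) * θ ^ (2 * k)) ^ d * (400 * ((d : ℝ) * t) * θ ^ (4 * d)) ^ k
        ≤ 1 * (1 / 16) ^ k := mul_le_mul h12 h13 (by positivity) (by norm_num)
      _ = (1 / 16) ^ k := one_mul _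
  have hs1 : ∑ k ∈ Icc 1 r, (2 * θ ^ (6 * d)) ^ k *
        ((100 * d * t : ℝ) ^ k + n ^ k * (d * S * (2 * θ ^ (100 * d * t)))) ≤ 2 / 15 := by
    calc ∑ k ∈ Icc 1 r, (2 * θ ^ (6 * d)) ^ k *
          ((100 * d * t : ℝ) ^ k + n ^ k * (d * S * (2 * θ ^ (100 * d * t))))
        ≤ ∑ k ∈ Icc 1 r, ((1 / 16 : ℝ) ^ k + (1 / 16) ^ k) := by
          refine Finset.sum_le_sum fun k hk => ?_
          rw [Finset.mem_Icc] at hk
          rw [mul_add]
          exact add_le_add (hA k) (hB k (hk.2.trans (hrK.trans hKt)))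
      _ = ∑ k ∈ Icc 1 r, (1 / 16 : ℝ) ^ k + ∑ k ∈ Icc 1 r, (1 / 16 : ℝ) ^ k :=
          Finset.sum_add_distrib
      _ ≤ 1 / 15 + 1 / 15 := add_le_add (Num_geom 1 r le_rfl) (Num_geom 1 r le_rfl)
      _ = 2 / 15 := by norm_num
  have hs2 : ∑ k ∈ Icc r K, (2 * θ ^ (6 * d)) ^ k *
        (((S : ℝ) + k + 2) ^ d * (2 * (100 * d * t)) ^ k +
          n ^ k * (d * S * (2 * θ ^ (100 * d * t)))) ≤ 2 / 15 := by
    calc ∑ k ∈ Icc r K, (2 * θ ^ (6 * d)) ^ k *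
          (((S : ℝ) + k + 2) ^ d * (2 * (100 * d * t)) ^ k +
            n ^ k * (d * S * (2 * θ ^ (100 * d * t))))
        ≤ ∑ k ∈ Icc r K, ((1 / 16 : ℝ) ^ k + (1 / 16) ^ k) := by
          refine Finset.sum_le_sum fun k hk => ?_
          rw [Finset.mem_Icc] at hk
          rw [mul_add]
          exact add_le_add (hC k hk.1 (hk.2.trans hKt)) (hB k (hk.2.trans hKt))
      _ = ∑ k ∈ Icc r K, (1 / 16 : ℝ) ^ k + ∑ k ∈ Icc r K, (1 / 16 : ℝ) ^ k :=
          Finset.sum_add_distrib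
      _ ≤ 1 / 15 + 1 / 15 := add_le_add (Num_geom r K hr) (Num_geom r K hr)
      _ = 2 / 15 := by norm_num
  linarith

end Pool.Agent.ACG
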