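import Pool.Agent.ACG.Exp

/-! Project ACG: expected numbers of sets, size by size. -/

set_option autoImplicit false

namespace Pool.Agent.ACG

open Finset Classical

variable {U : Type} [Fintype U] [DecidableEq U]

theorem PerK_card {α : Type} (s : Finset α) (p : α → Prop) [DecidablePred p] :
    ∑ V ∈ s, ind (p V) = ((s.filter p).card : ℝ) := by
  rw [Finset.card_filter, Nat.cast_sum]
  apply Finset.sum_congr rfl
  intro i _
  unfold ind
  split_ifs <;> simp

theorem PerK_ind (σ : U → Bool × Bool) (V : Finset U) (P : (U → Bool) → Prop) :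
    ind (V ⊆ stars σ ∧ P (vals σ)) = ∑ x : U → Bool, ind (P x) *
      ∏ e, if e ∈ V then ind (σ e = (true, x e)) else ind ((σ e).2 = x e) := by
  have h1 : ∀ x : U → Bool, (∏ e, if e ∈ V then ind (σ e = (true, x e)) else
      ind ((σ e).2 = x e)) = if vals σ = x then ind (V ⊆ stars σ) else 0 := by
    intro x
    by_cases hx : vals σ = x
    · rw [if_pos hx]
      have hxe : ∀ e, (σ e).2 = x e := fun e => congrFun hx e
      by_cases hV : V ⊆ stars σ
      · rw [ind, if_pos hV]
        apply Finset.prod_eq_one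
        intro e _
        by_cases he : e ∈ V
        · rw [if_pos he, ind, if_pos]
          have := hV he
          rw [stars, Finset.mem_filter] at this
          exact Prod.ext this.2 (hxe e)
        · rw [if_neg he, ind, if_pos (hxe e)]
      · rw [ind, if_neg hV]
        rw [Finset.not_subset] at hV
        obtain ⟨e, he, hes⟩ := hV
        apply Finset.prod_eq_zero (Finset.mem_univ e)
        rw [if_pos he, ind, if_neg]
        intro hc
        apply hes
        rw [stars, Finset.mem_filter]
        exact ⟨Finset.mem_univ _, by rw [hc]⟩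
    · rw [if_neg hx]
      obtain ⟨e, he⟩ := Function.ne_iff.1 hx
      apply Finset.prod_eq_zero (Finset.mem_univ e)
      have he' : (σ e).2 ≠ x e := he
      by_cases heV : e ∈ V
      · rw [if_pos heV, ind, if_neg]
        intro hc
        apply he'
        rw [hc]
      · rw [if_neg heV, ind, if_neg he']
  simp only [h1, mul_ite, mul_zero, Finset.sum_ite_eq, Finset.mem_univ, if_true]
  unfold ind
  by_cases h2 : V ⊆ stars σ <;> by_cases h3 : P (vals σ) <;> simp [h2, h3]

theorem PerK_two (w : Bool × Bool → ℝ) (V : Finset U) (P : (U → Bool) → Prop) :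
    Ex w (fun σ : U → Bool × Bool => ind (V ⊆ stars σ ∧ P (vals σ))) =
      ∑ x : U → Bool, ind (P x) *
        ∏ e, if e ∈ V then w (true, x e) else w (true, x e) + w (false, x e) := by
  simp only [PerK_ind]
  rw [Ex_sum]
  apply Finset.sum_congr rfl
  intro x _
  rw [Ex_mul]
  congr 1
  rw [Ex_prod w (fun e o => if e ∈ V then ind (o = (true, x e)) else ind (o.2 = x e))]
  apply Finset.prod_congr rfl
  intro e _
  rw [Fintype.sum_prod_type]
  simp only [Fintype.sum_bool]
  by_cases he : e ∈ V
  · simp only [if_pos he, ind]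
    cases x e <;> simp
  · simp only [if_neg he, ind]
    cases x e <;> simp

theorem PerK_one (w : Bool × Bool → ℝ) (P : (U → Bool) → Prop) :
    Ex w (fun σ : U → Bool × Bool => ind (P (vals σ))) =
      ∑ x : U → Bool, ind (P x) * ∏ e, (w (true, x e) + w (false, x e)) := by
  have h := PerK_two w ∅ P
  simpa using h

theorem PerK_le (Q a : ℝ) (hQ : 0 ≤ Q) (ha : 0 ≤ a) (hQa : Q + a ≤ 1) (V : Finset U)
    (P : (U → Bool) → Prop) (hP : ∀ x, P x → ∀ e ∈ V, x e = false) :
    (Q / 2) ^ V.card * Ex (law Q a) (fun σ : U → Bool × Bool => ind (P (vals σ))) ≤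
      Ex (law Q a) (fun σ : U → Bool × Bool => ind (V ⊆ stars σ ∧ P (vals σ))) := by
  rw [PerK_one, PerK_two, Finset.mul_sum]
  apply Finset.sum_le_sum
  intro x _
  by_cases hx : P x
  · rw [ind, if_pos hx, one_mul, one_mul]
    have hp : (Q / 2) ^ V.card = ∏ e, if e ∈ V then Q / 2 else 1 := by
      rw [Finset.prod_ite_mem, Finset.univ_inter, Finset.prod_const]
    rw [hp, ← Finset.prod_mul_distrib]
    have hl0 := law_nonneg hQ ha hQa
    apply Finset.prod_le_prod
    · intro e _
      apply mul_nonneg _ (add_nonneg (hl0 _) (hl0 _))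
      split_ifs
      · linarith
      · norm_num
    · intro e _
      split_ifs with he
      · rw [hP x hx e he]
        simp only [law]
        nlinarith
      · rw [one_mul]
  · rw [ind, if_neg hx, zero_mul, zero_mul, mul_zero]

theorem per_k (𝒱 : (U → Bool) → Finset U → Prop) (hz : ∀ x V, 𝒱 x V → ∀ e ∈ V, x e = false)
    (k : ℕ) (Bd : Finset U → (U → Bool) → Prop) (M : ℝ) (hM : 0 ≤ M)
    (hcount : ∀ R x, ¬ Bd R x →
      ((univ.filter fun V : Finset U => V ⊆ R ∧ V.card = k ∧ 𝒱 x V).card : ℝ) ≤ M)
    (Q a : ℝ) (hQ : 0 ≤ Q) (ha : 0 ≤ a) (hQa : Q + a ≤ 1) (η : ℝ)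
    (hη : Ex (law Q a) (fun σ : U → Bool × Bool => ind (Bd (stars σ) (vals σ))) ≤ η) :
    (Q / 2) ^ k * ∑ V ∈ univ.filter (fun V : Finset U => V.card = k),
        Ex (law Q a) (fun σ : U → Bool × Bool => ind (𝒱 (vals σ) V)) ≤
      M + (Fintype.card U : ℝ) ^ k * η := by
  have hl0 := law_nonneg hQ ha hQa
  have h1 : (Q / 2) ^ k * ∑ V ∈ univ.filter (fun V : Finset U => V.card = k),
        Ex (law Q a) (fun σ : U → Bool × Bool => ind (𝒱 (vals σ) V)) ≤
      ∑ V ∈ univ.filter (fun V : Finset U => V.card = k),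
        Ex (law Q a) (fun σ : U → Bool × Bool => ind (V ⊆ stars σ ∧ 𝒱 (vals σ) V)) := by
    rw [Finset.mul_sum]
    apply Finset.sum_le_sum
    intro V hV
    rw [← (Finset.mem_filter.1 hV).2]
    exact PerK_le Q a hQ ha hQa V (fun x => 𝒱 x V) (fun x hx => hz x V hx)
  refine h1.trans ?_
  rw [← Ex_sum]
  have hpt : ∀ σ : U → Bool × Bool, ∑ V ∈ univ.filter (fun V : Finset U => V.card = k),
      ind (V ⊆ stars σ ∧ 𝒱 (vals σ) V) ≤
        M + (Fintype.card U : ℝ) ^ k * ind (Bd (stars σ) (vals σ)) := by
    intro σ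
    by_cases hb : Bd (stars σ) (vals σ)
    · rw [ind.eq_def (Bd _ _), if_pos hb, mul_one]
      have h2 : ∑ V ∈ univ.filter (fun V : Finset U => V.card = k),
          ind (V ⊆ stars σ ∧ 𝒱 (vals σ) V) ≤
          ((univ.filter (fun V : Finset U => V.card = k)).card : ℝ) := by
        refine (Finset.sum_le_card_nsmul _ _ 1 fun V _ => ind_le_one _).trans ?_
        rw [nsmul_eq_mul, mul_one]
      have h3 : (univ.filter (fun V : Finset U => V.card = k)).card ≤ Fintype.card U ^ k := by
        refine le_trans ?_ (Nat.choose_le_pow (Fintype.card U) k)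
        rw [← Finset.card_univ, ← Finset.card_powersetCard k (univ : Finset U)]
        apply Finset.card_le_card
        intro V hV
        rw [Finset.mem_powersetCard]
        exact ⟨Finset.subset_univ _, (Finset.mem_filter.1 hV).2⟩
      have h4 : ((univ.filter (fun V : Finset U => V.card = k)).card : ℝ) ≤
          (Fintype.card U : ℝ) ^ k := by exact_mod_cast h3
      linarith
    · rw [ind.eq_def (Bd _ _), if_neg hb, mul_zero, add_zero]
      refine le_trans (le_of_eq ?_) (hcount _ _ hb)
      rw [PerK_card, Finset.filter_filter]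
      congr 2
      ext V
      simp only [Finset.mem_filter, Finset.mem_univ, true_and]
      tauto
  refine (Ex_mono _ hl0 _ _ hpt).trans ?_
  rw [Ex_add, Ex_const _ (law_sum _ _), Ex_mul]
  have : (0 : ℝ) ≤ (Fintype.card U : ℝ) ^ k := by positivity
  have := mul_le_mul_of_nonneg_left hη this
  linarith

end Pool.Agent.ACG
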