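import Pool.Agent.ACG.DTB

/-! Project ACG: pivotal sets of decision trees. -/

set_option autoImplicit false

namespace Pool.Agent.ACG

open Finset Classical

variable {U : Type} [Fintype U] [DecidableEq U]

theorem PivC_sw_sw (x : U → Bool) (V W : Finset U) : swOn (swOn x V) W = swOn x (V ∪ W) := by
  funext e
  by_cases h1 : e ∈ V <;> by_cases h2 : e ∈ W <;> simp [swOn, h1, h2]

theorem PivC_sw_empty (x : U → Bool) : swOn x ∅ = x := by
  funext e
  simp [swOn]

/-- Below a pivotal set. -/
theorem Piv.sdiff {h : Fn U} {x : U → Bool} {W V : Finset U} (hW : Piv h x W) (hV : V ⊂ W) :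
    Piv h (swOn x V) (W \ V) := by
  obtain ⟨h1, h2, h3, h4, h5⟩ := hW
  refine ⟨?_, ?_, h5 V hV, ?_, ?_⟩
  · rw [Finset.sdiff_nonempty]
    exact hV.2
  · intro e he
    rw [Finset.mem_sdiff] at he
    simp [swOn, h2 e he.1, he.2]
  · rw [PivC_sw_sw, Finset.union_sdiff_of_subset hV.1]
    exact h4
  · intro V' hV'
    rw [PivC_sw_sw]
    apply h5
    refine ⟨Finset.union_subset hV.1 (hV'.1.trans Finset.sdiff_subset), fun hc => hV'.2 ?_⟩
    intro e he
    rw [Finset.mem_sdiff] at he
    have := hc he.1
    rw [Finset.mem_union] at this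
    rcases this with h | h
    · exact absurd h he.2
    · exact h

theorem exists_piv (h : Fn U) (x : U → Bool) (Y : Finset U) (h0 : h x = false)
    (h1 : h (swOn x Y) = true) : ∃ W, W ⊆ Y ∧ Piv h x W := by
  obtain ⟨W, hW, hmin⟩ := Finset.exists_min_image
    (Y.powerset.filter fun W => h (swOn x W) = true) Finset.card
    ⟨Y, by simp [h1]⟩
  rw [Finset.mem_filter, Finset.mem_powerset] at hW
  have hlt : ∀ V, V ⊂ W → h (swOn x V) = false := by
    intro V hV
    by_contra hc
    rw [Bool.not_eq_false] at hc
    have := hmin V (by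
      rw [Finset.mem_filter, Finset.mem_powerset]
      exact ⟨hV.1.trans hW.1, hc⟩)
    exact absurd (Finset.card_lt_card hV) (by omega)
  refine ⟨W, hW.1, ?_, ?_, h0, hW.2, hlt⟩
  · rw [Finset.nonempty_iff_ne_empty]
    rintro rfl
    rw [PivC_sw_empty, h0] at hW
    exact absurd hW.2 (by simp)
  · intro e he
    by_contra hc
    rw [Bool.not_eq_false] at hc
    have h2 := hlt (W.erase e) (Finset.erase_ssubset he)
    have h3 : swOn x (W.erase e) = swOn x W := by
      funext e'
      by_cases hee : e' = e
      · subst hee; simp [swOn, hc]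
      · simp [swOn, hee]
    rw [h3, hW.2] at h2
    exact absurd h2 (by simp)

theorem PivC_sw_cst {R W : Finset U} {x : U → Bool} {h : Fn U} (hc : Cst R x h) (hW : W ⊆ R) :
    h (swOn x W) = h x := by
  have := hc (swOn x W)
  rw [← this]
  congr 1
  funext e
  by_cases he : e ∈ R
  · simp [ovr, he]
  · have : e ∉ W := fun h' => he (hW h')
    simp [ovr, he, swOn, this]

theorem piv_card (k : ℕ) (R : Finset U) (x : U → Bool) (h : Fn U) (hd : DT k R x h) (a : ℕ) :
    (univ.filter fun W : Finset U => W ⊆ R ∧ W.card = a ∧ Piv h x W).card ≤ k.choose a := by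
  have hcst : ∀ (R : Finset U) (x : U → Bool), Cst R x h → ∀ a,
      (univ.filter fun W : Finset U => W ⊆ R ∧ W.card = a ∧ Piv h x W).card = 0 := by
    intro R x hc a
    rw [Finset.card_eq_zero, Finset.filter_eq_empty_iff]
    rintro W - ⟨h1, -, -, -, h3, h4, -⟩
    rw [PivC_sw_cst hc h1, h3] at h4
    exact absurd h4 (by simp)
  induction k generalizing R x a with
  | zero =>
    rw [hcst R x hd a]
    exact Nat.zero_le _
  | succ k ih =>
    rcases hd with hd | ⟨e, he, hb⟩
    · rw [hcst R x hd a]
      exact Nat.zero_le _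
    rcases Nat.eq_zero_or_pos a with ha | ha
    · subst ha
      have : (univ.filter fun W : Finset U => W ⊆ R ∧ W.card = 0 ∧ Piv h x W).card = 0 := by
        rw [Finset.card_eq_zero, Finset.filter_eq_empty_iff]
        rintro W - ⟨-, h2, h3, -⟩
        rw [Finset.card_eq_zero] at h2
        exact absurd h2 h3.ne_empty
      rw [this]
      exact Nat.zero_le _
    obtain ⟨b, rfl⟩ : ∃ b, a = b + 1 := ⟨a - 1, by omega⟩
    -- the sets without e
    have h0 : (univ.filter fun W : Finset U => (W ⊆ R ∧ W.card = b + 1 ∧ Piv h x W) ∧ e ∉ W).card ≤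
        k.choose (b + 1) := by
      refine le_trans (Finset.card_le_card ?_) (ih (R.erase e) x (by
        have := hb (x e)
        rwa [Function.update_eq_self] at this) (b + 1))
      intro W hW
      simp only [Finset.mem_filter, Finset.mem_univ, true_and] at hW ⊢
      exact ⟨Finset.subset_erase.2 ⟨hW.1.1, hW.2⟩, hW.1.2⟩
    -- the sets with e
    have h1 : (univ.filter fun W : Finset U => (W ⊆ R ∧ W.card = b + 1 ∧ Piv h x W) ∧ ¬ e ∉ W).card ≤
        k.choose b := by
      have hsw : ∀ W : Finset U, e ∈ W → (∀ e ∈ W, x e = false) →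
          swOn x {e} = Function.update x e true := by
        intro W he h0
        funext e'
        by_cases hee : e' = e
        · subst hee; simp [swOn]
        · simp [swOn, hee]
      rcases Nat.eq_zero_or_pos b with hb0 | hb0
      · subst hb0
        rw [Nat.choose_zero_right]
        refine le_trans (Finset.card_le_card (t := {{e}}) ?_) (by simp)
        intro W hW
        simp only [Finset.mem_filter, Finset.mem_univ, true_and, not_not] at hW
        rw [Finset.mem_singleton]
        obtain ⟨c, hc⟩ := Finset.card_eq_one.1 hW.1.2.1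
        rw [hc, Finset.mem_singleton] at hW
        rw [hc, hW.2]
      · refine le_trans (Finset.card_le_card_of_injOn (fun W => W.erase e) ?_ ?_)
          (ih (R.erase e) (Function.update x e true) (hb true) b)
        · intro W hW
          simp only [Finset.coe_filter, Finset.mem_univ, true_and, not_not, Set.mem_ofPred_eq]
            at hW ⊢
          obtain ⟨⟨h2, h3, h4⟩, h5⟩ := hW
          refine ⟨Finset.erase_subset_erase e h2, ?_, ?_⟩
          · rw [Finset.card_erase_of_mem h5, h3]; rfl
          · rw [← hsw W h5 h4.2.1, ← Finset.sdiff_singleton_eq_erase]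
            apply h4.sdiff
            rw [Finset.ssubset_iff_subset_ne]
            refine ⟨Finset.singleton_subset_iff.2 h5, ?_⟩
            intro hc
            rw [← hc, Finset.card_singleton] at h3
            omega
        · intro W hW W' hW' heq
          simp only [Finset.coe_filter, Finset.mem_univ, true_and, not_not, Set.mem_ofPred_eq]
            at hW hW'
          dsimp only at heq
          rw [← Finset.insert_erase hW.2, heq, Finset.insert_erase hW'.2]
    have h2 := Finset.card_filter_add_card_filter_not (s := univ.filter fun W : Finset U =>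
      W ⊆ R ∧ W.card = b + 1 ∧ Piv h x W) (fun W => e ∉ W)
    rw [Finset.filter_filter, Finset.filter_filter] at h2
    have h3 := Nat.choose_succ_succ k b
    have h4 := Nat.add_le_add h0 h1
    rw [← h2, h3]
    exact h4.trans (le_of_eq (add_comm _ _))

end Pool.Agent.ACG
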