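import Pool.Agent.ACG.Final

/-! Project ACG: the theorem which is handed in. -/

set_option autoImplicit false

namespace Pool.Agent.ACG

open Finset Filter

theorem Result_zero {U : Type} {S g : ℕ} {f : Fn U} (h : Guess S 0 g f) : False := by
  obtain ⟨c, ⟨G, lev, -, hc, hG⟩, -⟩ := h
  exact absurd (hG c hc).1 (by omega)

theorem Result_quant : ∃ (f : (n G : ℕ) → Fn (Fin n)) (C : ℕ), 1 ≤ C ∧
    (∀ n G : ℕ, Guess (n + 1) 2 G (f n G)) ∧
    (∀ n d G : ℕ, C * d ^ 2 * Nat.log 2 n ≤ G → (C * d * G) ^ (C * d) ≤ n →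
      ∀ S g : ℕ, Guess S d g (f n G) → 2 ^ G ≤ (2 ^ g * S) ^ (C * d ^ 2)) := by
  choose f hf1 hf2 using Final_exists
  refine ⟨f, 48000, by norm_num, hf1, ?_⟩
  intro n d G h1 h2 S g hcomp
  rcases Nat.eq_zero_or_pos d with hd | hd
  · subst hd
    exact (Result_zero hcomp).elim
  have hS : 1 ≤ S := hcomp.pos
  rcases Nat.eq_zero_or_pos G with hG | hG
  · subst hG
    rw [pow_zero]
    exact Nat.one_le_pow _ _ (Nat.mul_pos (Nat.pow_pos (by norm_num)) hS)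
  have hdG : 1 ≤ d * G := Nat.mul_pos hd hG
  have h2' : (12000 * d * G) ^ (12000 * d) ≤ n := by
    refine le_trans ?_ h2
    calc (12000 * d * G) ^ (12000 * d) ≤ (48000 * d * G) ^ (12000 * d) := by
          apply Nat.pow_le_pow_left
          rw [mul_assoc, mul_assoc]
          exact Nat.mul_le_mul_right _ (by norm_num)
      _ ≤ (48000 * d * G) ^ (48000 * d) := by
          apply Nat.pow_le_pow_right
          · rw [mul_assoc]
            exact Nat.mul_pos (by norm_num) hdG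
          · exact Nat.mul_le_mul_right _ (by norm_num)
  have h1' : 12000 * d ^ 2 * Nat.log 2 n ≤ G := by
    refine le_trans ?_ h1
    rw [mul_assoc, mul_assoc]
    exact Nat.mul_le_mul_right _ (by norm_num)
  have hl := (Main_num n d G hd hG h1' h2').1
  have hL : 3 ≤ Nat.log 2 n := by omega
  have hlow := Final_lower n G (f n G) (hf2 n G) d hd hG h1' h2' _ g hcomp.guessComputes
  rw [Fintype.card_fin] at hlow
  exact Final_num n d G S g hS hL h1 hlow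

theorem Result_qual (f : (n G : ℕ) → Fn (Fin n)) (C : ℕ) (hC : 1 ≤ C)
    (hf : ∀ n d G : ℕ, C * d ^ 2 * Nat.log 2 n ≤ G → (C * d * G) ^ (C * d) ≤ n →
      ∀ S g : ℕ, Guess S d g (f n G) → 2 ^ G ≤ (2 ^ g * S) ^ (C * d ^ 2))
    (g G : ℕ → ℕ) (hg : ∀ m : ℕ, ∀ᶠ n in atTop, m * (g n + Nat.log 2 n) ≤ G n)
    (hG : ∀ m : ℕ, ∀ᶠ n in atTop, G n ^ m ≤ n) (d m : ℕ) :
    ∀ᶠ n in atTop, ¬ Guess ((n * 2 ^ g n) ^ m) d (g n) (f n (G n)) := by
  filter_upwards [hg (C * d ^ 2), hg (C * d), hg (2 * (m + 1) * (C * d ^ 2) + 1),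
    hG (2 * (C * d)), eventually_ge_atTop 2] with n h1 h2 h3 h4 hn hcomp
  obtain ⟨L, hLd⟩ : ∃ L, L = Nat.log 2 n := ⟨_, rfl⟩
  rw [← hLd] at h1 h2 h3
  have hL1 : 1 ≤ L := by
    rw [hLd]
    exact Nat.le_log_of_pow_le (by norm_num) (by simpa using hn)
  have hlt : n < 2 ^ (L + 1) := by rw [hLd]; exact Nat.lt_pow_succ_log_self (by norm_num) n
  have h5 : C * d ≤ G n := le_trans (Nat.le_mul_of_pos_right _ (by omega)) h2
  have h6 : (C * d * G n) ^ (C * d) ≤ n := by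
    refine le_trans ?_ h4
    calc (C * d * G n) ^ (C * d) ≤ (G n * G n) ^ (C * d) :=
          Nat.pow_le_pow_left (Nat.mul_le_mul_right _ h5) _
      _ = G n ^ (2 * (C * d)) := by rw [← pow_two, ← pow_mul]
  have h7 := hf n d (G n) (by
    rw [← hLd]
    exact le_trans (Nat.mul_le_mul_left _ (by omega)) h1) h6 _ _ hcomp
  have h8 : 2 ^ g n * (n * 2 ^ g n) ^ m ≤ 2 ^ (2 * (m + 1) * (g n + L)) := by
    calc 2 ^ g n * (n * 2 ^ g n) ^ m ≤ 2 ^ g n * (2 ^ (L + 1) * 2 ^ g n) ^ m := by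
          apply Nat.mul_le_mul_left
          apply Nat.pow_le_pow_left
          exact Nat.mul_le_mul_right _ hlt.le
      _ = 2 ^ (g n + (L + 1 + g n) * m) := by
          rw [← pow_add, ← pow_mul, ← pow_add]
      _ ≤ 2 ^ (2 * (m + 1) * (g n + L)) := by
          apply Nat.pow_le_pow_right (by norm_num)
          nlinarith
  have h9 : 2 ^ G n ≤ 2 ^ (2 * (m + 1) * (g n + L) * (C * d ^ 2)) := by
    rw [pow_mul]
    exact h7.trans (Nat.pow_le_pow_left h8 _)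
  have h10 := (Nat.pow_le_pow_iff_right (by norm_num)).1 h9
  have h11 : (2 * (m + 1) * (C * d ^ 2) + 1) * (g n + L) =
    2 * (m + 1) * (g n + L) * (C * d ^ 2) + (g n + L) := by ring
  rw [h11] at h3
  omega

/-- **The guess hierarchy is strict for circuits of constant depth.** -/
theorem result : ∃ (f : (n G : ℕ) → Fn (Fin n)) (C : ℕ),
    (∀ n G : ℕ, Guess (n + 1) 2 G (f n G)) ∧
    (∀ n d G : ℕ, C * d ^ 2 * Nat.log 2 n ≤ G → (C * d * G) ^ (C * d) ≤ n →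
      ∀ S g : ℕ, Guess S d g (f n G) → 2 ^ G ≤ (2 ^ g * S) ^ (C * d ^ 2)) ∧
    (∀ g G : ℕ → ℕ, (∀ m : ℕ, ∀ᶠ n in atTop, m * (g n + Nat.log 2 n) ≤ G n) →
      (∀ m : ℕ, ∀ᶠ n in atTop, G n ^ m ≤ n) →
      ∀ d m : ℕ, ∀ᶠ n in atTop, ¬ Guess ((n * 2 ^ g n) ^ m) d (g n) (f n (G n))) := by
  obtain ⟨f, C, hC, h1, h2⟩ := Result_quant
  exact ⟨f, C, h1, h2, Result_qual f C hC h2⟩

end Pool.Agent.ACG
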