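import Pool.Agent.ACG.Wit
import Pool.Agent.ACG.DCard
import Pool.Agent.ACG.Exp

/-! Project ACG: the switching lemma. -/

set_option autoImplicit false

namespace Pool.Agent.ACG

open Finset Classical

variable {U : Type} [Fintype U] [DecidableEq U]

theorem SL_geom (ρ : ℝ) (h0 : 0 ≤ ρ) (h : ρ ≤ 1 / 2) (s m : ℕ) :
    ∑ k ∈ Ico s (s + m), ρ ^ k ≤ 2 * ρ ^ s - 2 * ρ ^ (s + m) := by
  induction m with
  | zero => simp
  | succ m ih =>
    rw [← add_assoc, Finset.sum_Ico_succ_top (by omega), pow_succ]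
    have : 0 ≤ ρ ^ (s + m) := pow_nonneg h0 _
    nlinarith

theorem SL_ex (ω : Bool × Bool → ℝ) (γ : ℝ) (hγ : ω (true, true) + ω (true, false) = γ)
    (W : Finset U) (z : U → Bool) :
    Ex ω (fun σ : U → Bool × Bool => ind (W ⊆ stars σ ∧ ∀ e, e ∉ W → z e = vals σ e)) =
      ∏ e, if e ∈ W then γ else ω (true, z e) + ω (false, z e) := by
  have h1 : ∀ σ : U → Bool × Bool, ind (W ⊆ stars σ ∧ ∀ e, e ∉ W → z e = vals σ e) =
      ∏ e, if e ∈ W then ind ((σ e).1 = true) else ind (z e = (σ e).2) := by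
    intro σ
    by_cases h : W ⊆ stars σ ∧ ∀ e, e ∉ W → z e = vals σ e
    · rw [ind, if_pos h]
      symm
      apply Finset.prod_eq_one
      intro e _
      by_cases he : e ∈ W
      · rw [if_pos he, ind, if_pos]
        have := h.1 he
        rw [stars, Finset.mem_filter] at this
        exact this.2
      · rw [if_neg he, ind, if_pos]
        exact h.2 e he
    · rw [ind, if_neg h]
      symm
      rw [not_and_or] at h
      rcases h with h | h
      · rw [Finset.not_subset] at h
        obtain ⟨e, he, hes⟩ := h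
        apply Finset.prod_eq_zero (Finset.mem_univ e)
        rw [if_pos he, ind, if_neg]
        intro hc
        apply hes
        rw [stars, Finset.mem_filter]
        exact ⟨Finset.mem_univ _, hc⟩
      · push Not at h
        obtain ⟨e, he, hes⟩ := h
        apply Finset.prod_eq_zero (Finset.mem_univ e)
        rw [if_neg he, ind, if_neg]
        exact hes
  simp only [h1]
  rw [Ex_prod ω (fun e o => if e ∈ W then ind (o.1 = true) else ind (z e = o.2))]
  apply Finset.prod_congr rfl
  intro e _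
  rw [Fintype.sum_prod_type]
  simp only [Fintype.sum_bool]
  by_cases he : e ∈ W
  · simp only [if_pos he, ind, ← hγ]
    simp
  · simp only [if_neg he, ind]
    cases z e <;> simp

theorem switching (w : ℕ) (Ts : List (Term U)) (hT : ∀ T ∈ Ts, T.1.card ≤ w) (g : Fn U)
    (hg : ∀ x, g x = true ↔ ∃ T ∈ Ts, Term.Sat T x) (ω : Bool × Bool → ℝ) (h0 : ∀ o, 0 ≤ ω o)
    (h1 : ∑ o, ω o = 1) (γ β : ℝ) (hγ : ω (true, true) + ω (true, false) = γ) (hβ0 : 0 < β)
    (hβ : ∀ b, β ≤ ω (true, b) + ω (false, b)) (s : ℕ) (hs : 4 * w * γ / β ≤ 1 / 2) :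
    Ex ω (fun σ : U → Bool × Bool => ind (¬ DT s (stars σ) (vals σ) g)) ≤
      2 * (4 * w * γ / β) ^ s := by
  have hγ0 : 0 ≤ γ := by rw [← hγ]; exact add_nonneg (h0 _) (h0 _)
  have hρ0 : 0 ≤ 4 * (w : ℝ) * γ / β := by positivity
  have hgb : 0 ≤ γ / β := by positivity
  have hμ0 : ∀ b, 0 ≤ ω (true, b) + ω (false, b) := fun b => add_nonneg (h0 _) (h0 _)
  obtain ⟨S, hS⟩ : ∃ S : (U → Bool) → Finset (Finset U), S = fun z =>
    univ.filter fun W : Finset U => s ≤ W.card ∧ Dec Ts z W := ⟨_, rfl⟩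
  -- pointwise bound
  have hpt : ∀ σ : U → Bool × Bool, ind (¬ DT s (stars σ) (vals σ) g) ≤
      ∑ z : U → Bool, ∑ W ∈ S z, ind (W ⊆ stars σ ∧ ∀ e, e ∉ W → z e = vals σ e) := by
    intro σ
    have hnn : ∀ z ∈ (univ : Finset (U → Bool)),
        0 ≤ ∑ W ∈ S z, ind (W ⊆ stars σ ∧ ∀ e, e ∉ W → z e = vals σ e) :=
      fun z _ => Finset.sum_nonneg fun W _ => ind_nonneg _
    by_cases h : ¬ DT s (stars σ) (vals σ) g
    · obtain ⟨W, hW1, hW2, -, z, hz, hdec⟩ := witness Ts w hT g hg s _ _ h
      refine le_trans ?_ (Finset.single_le_sum hnn (Finset.mem_univ z))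
      have hWS : W ∈ S z := by
        rw [hS]
        simp only [Finset.mem_filter, Finset.mem_univ, true_and]
        exact ⟨hW2, hdec⟩
      refine le_trans ?_ (Finset.single_le_sum (fun W _ => ind_nonneg _) hWS)
      rw [ind, if_pos h, ind, if_pos ⟨hW1, hz⟩]
    · rw [ind, if_neg h]
      exact Finset.sum_nonneg hnn
  refine (Ex_mono ω h0 _ _ hpt).trans ?_
  rw [Ex_sum]
  have hz : ∀ z ∈ (univ : Finset (U → Bool)), Ex ω (fun σ : U → Bool × Bool =>
      ∑ W ∈ S z, ind (W ⊆ stars σ ∧ ∀ e, e ∉ W → z e = vals σ e)) ≤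
      (∏ e, (ω (true, z e) + ω (false, z e))) * (2 * (4 * w * γ / β) ^ s) := by
    intro z _
    rw [Ex_sum]
    have hW : ∀ W ∈ S z, Ex ω (fun σ : U → Bool × Bool =>
        ind (W ⊆ stars σ ∧ ∀ e, e ∉ W → z e = vals σ e)) ≤
        (∏ e, (ω (true, z e) + ω (false, z e))) * (γ / β) ^ W.card := by
      intro W _
      rw [SL_ex ω γ hγ]
      have hp : (γ / β) ^ W.card = ∏ e, if e ∈ W then γ / β else 1 := by
        rw [Finset.prod_ite_mem, Finset.univ_inter, Finset.prod_const]
      rw [hp, ← Finset.prod_mul_distrib]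
      apply Finset.prod_le_prod
      · intro e _
        split_ifs
        · exact hγ0
        · exact hμ0 _
      · intro e _
        split_ifs
        · rw [mul_div_assoc', le_div_iff₀ hβ0, mul_comm]
          exact mul_le_mul_of_nonneg_right (hβ _) hγ0
        · rw [mul_one]
    refine (Finset.sum_le_sum hW).trans ?_
    rw [← Finset.mul_sum]
    apply mul_le_mul_of_nonneg_left _ (Finset.prod_nonneg fun e _ => hμ0 _)
    have hmaps : ∀ W ∈ S z, W.card ∈ Ico s (s + (Fintype.card U + 1)) := by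
      intro W hW
      rw [hS] at hW
      simp only [Finset.mem_filter, Finset.mem_univ, true_and] at hW
      rw [Finset.mem_Ico]
      have := Finset.card_le_univ W
      exact ⟨hW.1, by omega⟩
    rw [← Finset.sum_fiberwise_of_maps_to hmaps]
    have hk : ∀ k ∈ Ico s (s + (Fintype.card U + 1)),
        ∑ W ∈ (S z).filter (fun W => W.card = k), (γ / β) ^ W.card ≤
          (4 * w * γ / β) ^ k := by
      intro k _
      have hc : ((S z).filter (fun W => W.card = k)).card ≤ (4 * w) ^ k := by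
        refine (Finset.card_le_card ?_).trans (dec_card Ts w hT k z)
        intro W hW
        rw [hS] at hW
        simp only [Finset.mem_filter, Finset.mem_univ, true_and] at hW ⊢
        exact ⟨hW.2, hW.1.2⟩
      calc ∑ W ∈ (S z).filter (fun W => W.card = k), (γ / β) ^ W.card =
            ∑ W ∈ (S z).filter (fun W => W.card = k), (γ / β) ^ k := by
            apply Finset.sum_congr rfl
            intro W hW
            rw [(Finset.mem_filter.1 hW).2]
        _ = (((S z).filter (fun W => W.card = k)).card : ℝ) * (γ / β) ^ k := by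
            rw [Finset.sum_const, nsmul_eq_mul]
        _ ≤ (4 * w : ℝ) ^ k * (γ / β) ^ k := by
            apply mul_le_mul_of_nonneg_right _ (pow_nonneg hgb _)
            exact_mod_cast hc
        _ = (4 * w * γ / β) ^ k := by rw [← mul_pow, mul_div_assoc']
    refine (Finset.sum_le_sum hk).trans ?_
    refine (SL_geom _ hρ0 hs s _).trans ?_
    have : 0 ≤ (4 * (w : ℝ) * γ / β) ^ (s + (Fintype.card U + 1)) := pow_nonneg hρ0 _
    linarith
  refine (Finset.sum_le_sum hz).trans ?_
  rw [← Finset.sum_mul]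
  have hone : ∑ z : U → Bool, ∏ e, (ω (true, z e) + ω (false, z e)) = 1 := by
    rw [← Exp_prodsum (fun (_ : U) b => ω (true, b) + ω (false, b))]
    apply Finset.prod_eq_one
    intro e _
    rw [← h1, Fintype.sum_prod_type]
    simp only [Fintype.sum_bool]
    ring
  rw [hone, one_mul]

end Pool.Agent.ACG
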