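import Pool.Agent.ACG.DTB

/-! Project ACG: the witness of the switching lemma. -/

set_option autoImplicit false

namespace Pool.Agent.ACG

open Finset Classical

variable {U : Type} [Fintype U] [DecidableEq U]

theorem Wit_find {α : Type} (l : List α) (q r : α → Bool) (T : α) (h : l.find? q = some T)
    (hr : r T = true) (hqr : ∀ T', r T' = true → q T' = true) : l.find? r = some T := by
  rw [List.find?_eq_some_iff_append] at h ⊢
  obtain ⟨-, as, bs, h1, h2⟩ := h
  refine ⟨hr, as, bs, h1, fun a ha => ?_⟩
  have h3 := h2 a ha
  by_contra hc
  have h4 : r a = true := by simpa using hc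
  rw [hqr a h4] at h3
  exact absurd h3 (by simp)

theorem witness (Ts : List (Term U)) (w : ℕ) (hT : ∀ T ∈ Ts, T.1.card ≤ w) (g : Fn U)
    (hg : ∀ x, g x = true ↔ ∃ T ∈ Ts, Term.Sat T x) (s : ℕ) (R : Finset U) (x : U → Bool)
    (h : ¬ DT s R x g) :
    ∃ W, W ⊆ R ∧ s ≤ W.card ∧ W.card ≤ s + w ∧ ∃ z : U → Bool, (∀ e, e ∉ W → z e = x e) ∧
      Dec Ts z W := by
  induction s using Nat.strong_induction_on generalizing R x with
  | _ s ih =>
    rcases Nat.eq_zero_or_pos s with hs | hs
    · subst hs
      exact ⟨∅, Finset.empty_subset _, by simp, by simp, x, fun _ _ => rfl, Dec.nil x⟩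
    have hncst : ¬ Cst R x g := fun hc => h (DT.of_cst hc)
    obtain ⟨T₀, hT₀⟩ : ∃ T₀ : Option (Term U), T₀ =
      Ts.find? (fun T => decide (∀ e ∈ T.1, e ∉ R → x e = T.2 e)) := ⟨_, rfl⟩
    cases T₀ with
    | none =>
      exfalso
      apply hncst
      have hall := List.find?_eq_none.1 hT₀.symm
      have hf : ∀ y, g (ovr R y x) = false := by
        intro y
        by_contra hc
        rw [Bool.not_eq_false, hg] at hc
        obtain ⟨T, hTm, hsat⟩ := hc
        apply hall T hTm
        rw [decide_eq_true_eq]
        intro e he heR
        rw [← hsat e he, ovr_not_mem heR]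
      intro y
      rw [hf y]
      have := hf x
      rw [ovr_self] at this
      exact this.symm
    | some T =>
      have hmem : T ∈ Ts := List.mem_of_find?_eq_some hT₀.symm
      have hcons := List.find?_some hT₀.symm
      rw [decide_eq_true_eq] at hcons
      obtain ⟨A, hA⟩ : ∃ A, A = T.1 ∩ R := ⟨_, rfl⟩
      have hAR : A ⊆ R := by rw [hA]; exact Finset.inter_subset_right
      have hAT : A ⊆ T.1 := by rw [hA]; exact Finset.inter_subset_left
      have hne : A.Nonempty := by
        rw [Finset.nonempty_iff_ne_empty]
        intro hemp
        apply hncst
        have ht : ∀ y, g (ovr R y x) = true := by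
          intro y
          rw [hg]
          refine ⟨T, hmem, fun e he => ?_⟩
          have heR : e ∉ R := by
            intro h'
            have : e ∈ A := by rw [hA, Finset.mem_inter]; exact ⟨he, h'⟩
            rw [hemp] at this
            exact absurd this (Finset.notMem_empty e)
          rw [ovr_not_mem heR]
          exact hcons e he heR
        intro y
        rw [ht y]
        have := ht x
        rw [ovr_self] at this
        exact this.symm
      have hcard : A.card ≤ w := (Finset.card_le_card hAT).trans (hT T hmem)
      have hpos : 1 ≤ A.card := hne.card_pos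
      -- T is the first satisfied term
      have hfs : ∀ z : U → Bool, (∀ e, e ∉ R → z e = x e) → (∀ e ∈ A, z e = T.2 e) →
          fsat Ts z = some T := by
        intro z hz1 hz2
        apply Wit_find Ts _ _ T hT₀.symm
        · rw [decide_eq_true_eq]
          intro e he
          by_cases heR : e ∈ R
          · exact hz2 e (by rw [hA, Finset.mem_inter]; exact ⟨he, heR⟩)
          · rw [hz1 e heR]; exact hcons e he heR
        · intro T' hT'
          rw [decide_eq_true_eq] at hT' ⊢
          intro e he heR
          rw [← hz1 e heR]
          exact hT' e he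
      by_cases hsA : s ≤ A.card
      · refine ⟨A ∪ ∅, by simpa using hAR, by simpa using hsA, by simp; omega,
          ovr A T.2 x, ?_, ?_⟩
        · intro e he
          exact ovr_not_mem (by simpa using he)
        · refine Dec.cons _ T A ∅ ∅ ?_ hAT hne (Finset.empty_subset _)
            (Finset.disjoint_empty_right _) (Dec.nil _)
          apply hfs
          · intro e he
            exact ovr_not_mem fun h' => he (hAR h')
          · intro e he
            exact ovr_mem he
      · rw [not_le] at hsA
        have hB : ∃ B, B ⊆ A ∧ ¬ DT (s - A.card) (R \ A)
            (ovr A (fun e => decide (e ∈ B)) x) g := by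
          by_contra hc
          push Not at hc
          apply h
          have := DT.read (k := s - A.card) A hAR hc
          rwa [Nat.sub_add_cancel hsA.le] at this
        obtain ⟨B, hBA, hBn⟩ := hB
        obtain ⟨W, hWR, hW1, hW2, z, hz, hdec⟩ := ih (s - A.card) (by omega) _ _ hBn
        have hdis : Disjoint A W := by
          rw [Finset.subset_sdiff] at hWR
          exact hWR.2.symm
        have hcu := Finset.card_union_of_disjoint hdis
        refine ⟨A ∪ W, Finset.union_subset hAR (hWR.trans Finset.sdiff_subset), by omega,
          by omega, ovr A T.2 z, ?_, ?_⟩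
        · intro e he
          rw [Finset.mem_union, not_or] at he
          rw [ovr_not_mem he.1, hz e he.2, ovr_not_mem he.1]
        · refine Dec.cons _ T A B W ?_ hAT hne hBA hdis ?_
          · apply hfs
            · intro e he
              have h1 : e ∉ A := fun h' => he (hAR h')
              have h2 : e ∉ W := fun h' => he (Finset.sdiff_subset (hWR h'))
              rw [ovr_not_mem h1, hz e h2, ovr_not_mem h1]
            · intro e he
              exact ovr_mem he
          · have : ovr A (fun e => decide (e ∈ B)) (ovr A T.2 z) = z := by
              funext e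
              by_cases he : e ∈ A
              · rw [ovr_mem he, hz e (Finset.disjoint_left.1 hdis he), ovr_mem he]
              · rw [ovr_not_mem he, ovr_not_mem he]
            rw [this]
            exact hdec

end Pool.Agent.ACG
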